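import Pool.Agent.Lib_helper84.PLH.S4W

/-!
Discrete pluriharmonic functions: for bounded functions which are pluriharmonic in groups of
variables, the second moment with the monomials discounted according to the number of groups they
meet.
-/

set_option linter.unusedSectionVars false

namespace Pool.Agent.PLH.T

open Complex ComplexConjugate

variable {I M : Type*} [Fintype I] [DecidableEq I] [Fintype M] [DecidableEq M]

/-- Hoelder between the moments 1, 9/7, 2 -/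
lemma holder97 (F : (I → Bool × Bool) → ℂ) :
    (Av fun w => ‖F w‖^(9/7 : ℝ)) ≤
      (Av fun w => ‖F w‖) ^ (5/7 : ℝ) * (Av fun w => ‖F w‖^2) ^ (2/7 : ℝ) := by
  have hpq : Real.HolderConjugate (7/5) (7/2) := by
    rw [Real.holderConjugate_iff]; norm_num
  have hh := Real.inner_le_Lp_mul_Lq_of_nonneg (Finset.univ : Finset (I → Bool × Bool)) hpq
    (f := fun w => ‖F w‖ ^ (5/7 : ℝ)) (g := fun w => (‖F w‖^2) ^ (2/7 : ℝ))
    (fun w _ => by positivity) (fun w _ => by positivity)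
  have e1 : ∀ w, (‖F w‖ ^ (5/7 : ℝ)) ^ (7/5 : ℝ) = ‖F w‖ := by
    intro w; rw [← Real.rpow_mul (norm_nonneg _)]; norm_num
  have e2 : ∀ w, ((‖F w‖^2) ^ (2/7 : ℝ)) ^ (7/2 : ℝ) = ‖F w‖^2 := by
    intro w; rw [← Real.rpow_mul (by positivity)]; norm_num
  have e3 : ∀ w, ‖F w‖ ^ (5/7 : ℝ) * (‖F w‖^2) ^ (2/7 : ℝ) = ‖F w‖ ^ (9/7 : ℝ) := by
    intro w
    rw [← Real.rpow_natCast, ← Real.rpow_mul (norm_nonneg _),
      ← Real.rpow_add_of_nonneg (norm_nonneg _) (by norm_num) (by norm_num)]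
    norm_num
  simp only [e1, e2, e3] at hh
  have e4 : (1 / (7/5) : ℝ) = 5/7 := by norm_num
  have e5 : (1 / (7/2) : ℝ) = 2/7 := by norm_num
  rw [e4, e5] at hh
  have hc : (0:ℝ) < (Fintype.card (I → Bool × Bool) : ℝ) := by
    exact_mod_cast Fintype.card_pos
  have hs1 : 0 ≤ ∑ w, ‖F w‖ := Finset.sum_nonneg fun w _ => norm_nonneg _
  have hs2 : 0 ≤ ∑ w, ‖F w‖^2 := Finset.sum_nonneg fun w _ => by positivity
  unfold Av
  rw [Real.mul_rpow (by positivity) hs1, Real.mul_rpow (by positivity) hs2]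
  have e6 : ((Fintype.card (I → Bool × Bool) : ℝ)⁻¹) ^ (5/7 : ℝ) *
      ((Fintype.card (I → Bool × Bool) : ℝ)⁻¹) ^ (2/7 : ℝ) =
      (Fintype.card (I → Bool × Bool) : ℝ)⁻¹ := by
    rw [← Real.rpow_add (by positivity)]; norm_num
  calc (Fintype.card (I → Bool × Bool) : ℝ)⁻¹ * ∑ w, ‖F w‖^(9/7 : ℝ)
      ≤ (Fintype.card (I → Bool × Bool) : ℝ)⁻¹ * ((∑ w, ‖F w‖) ^ (5/7 : ℝ) *
        (∑ w, ‖F w‖^2) ^ (2/7 : ℝ)) := by gcongr
    _ = (((Fintype.card (I → Bool × Bool) : ℝ)⁻¹) ^ (5/7 : ℝ) *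
      ((Fintype.card (I → Bool × Bool) : ℝ)⁻¹) ^ (2/7 : ℝ)) *
        ((∑ w, ‖F w‖) ^ (5/7 : ℝ) * (∑ w, ‖F w‖^2) ^ (2/7 : ℝ)) := by rw [e6]
    _ = _ := by ring

/-- the processed functions, as analytic functions in swapped letters -/
lemma hf_ps (γ : I → M) (i0 : M) (l : List M) (hmem : ∀ i, i ∈ l ↔ i ≠ i0)
    (c : (M → Bool) → Finset I → ℂ)
    (h1 : ∀ e S, c e S ≠ 0 → i0 ∈ S.image γ → e i0 = false) (e' : M → Bool)
    (w : I → Bool × Bool) : Hf γ (ps γ l c e') w =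
      pv Finset.univ (aS γ l c e') (sw γ (fun i => if i = i0 then false else e' i) w) := by
  apply Hf_processed
  intro e S hne i hi
  rw [ps_eq] at hne
  by_cases hcond : ∀ i ∈ l, i ∈ S.image γ → e i = e' i
  · rw [if_pos hcond] at hne
    have hc : c e S ≠ 0 := right_ne_zero_of_mul hne
    by_cases hi0 : i = i0
    · rw [hi0]; simp only [if_true]
      exact h1 e S hc (hi0 ▸ hi)
    · simp only [hi0, if_false]
      exact hcond i ((hmem i).mpr hi0) hi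
  · rw [if_neg hcond] at hne; exact absurd rfl hne

/-- the mean square of a processed function -/
lemma sq_ps (γ : I → M) (i0 : M) (l : List M) (hmem : ∀ i, i ∈ l ↔ i ≠ i0)
    (c : (M → Bool) → Finset I → ℂ)
    (h1 : ∀ e S, c e S ≠ 0 → i0 ∈ S.image γ → e i0 = false) (e' : M → Bool) :
    (Av fun w => ‖Hf γ (ps γ l c e') w‖^2) = ∑ S, ‖aS γ l c e' S‖^2 := by
  simp_rw [hf_ps γ i0 l hmem c h1]
  rw [Av_sw γ _ (fun w => ‖pv Finset.univ (aS γ l c e') w‖^2), pars, Finset.powerset_univ]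

/-- (BQ) for the processed functions -/
lemma bq_ps (γ : I → M) (i0 : M) (l : List M) (hmem : ∀ i, i ∈ l ↔ i ≠ i0)
    (c : (M → Bool) → Finset I → ℂ)
    (h1 : ∀ e S, c e S ≠ 0 → i0 ∈ S.image γ → e i0 = false) (e' : M → Bool) :
    ∑ S, ‖aS γ l c e' S‖^2 ≤ (Av fun w => ‖Hf γ (ps γ l c e') w‖^(9/7 : ℝ)) ^ (7/9 : ℝ) *
      (Av fun w => ‖Hf γ (ps γ l c e') w‖^4) ^ (1/4 : ℝ) := by
  have hq := bq Finset.univ (aS γ l c e') (aS γ l c e')
  have hip : ‖ip Finset.univ (aS γ l c e') (aS γ l c e')‖ = ∑ S, ‖aS γ l c e' S‖^2 := by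
    have : ip Finset.univ (aS γ l c e') (aS γ l c e') = ((∑ S, ‖aS γ l c e' S‖^2 : ℝ) : ℂ) := by
      unfold ip
      rw [Finset.powerset_univ]
      push_cast
      apply Finset.sum_congr rfl; intro S _
      rw [Complex.mul_conj']
    rw [this, Complex.norm_real, Real.norm_eq_abs, abs_of_nonneg (by positivity)]
  rw [hip] at hq
  simp_rw [hf_ps γ i0 l hmem c h1]
  rw [Av_sw γ _ (fun w => ‖pv Finset.univ (aS γ l c e') w‖^(9/7 : ℝ)),
    Av_sw γ _ (fun w => ‖pv Finset.univ (aS γ l c e') w‖^4)]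
  exact hq

/-- From the pointwise inequality to the means. -/
theorem junta37 {E : Type*} [Fintype E] [Nonempty E] (X a b : E → ℝ) (hX0 : ∀ e, 0 ≤ X e)
    (ha0 : ∀ e, 0 ≤ a e) (hb0 : ∀ e, 0 ≤ b e) (t P R : ℝ) (ht : 0 ≤ t)
    (h : ∀ e, X e ≤ a e ^ (7/9 : ℝ) * b e ^ (1/4 : ℝ)) (ha : Lib_helper49.Pluri.avg a ≤ P)
    (hb : Lib_helper49.Pluri.avg b ≤ R) (hX : ∀ e, X e ≤ t) :
    (Lib_helper49.Pluri.avg X) ^ 37 ≤ t * P ^ 28 * R ^ 9 := by
  have hA0 : 0 ≤ Lib_helper49.Pluri.avg X := Lib_helper49.Pluri.avg_nonneg hX0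
  have ha' : 0 ≤ Lib_helper49.Pluri.avg a := Lib_helper49.Pluri.avg_nonneg ha0
  have hb' : 0 ≤ Lib_helper49.Pluri.avg b := Lib_helper49.Pluri.avg_nonneg hb0
  have hP : 0 ≤ P := ha'.trans ha
  have hR : 0 ≤ R := hb'.trans hb
  have h1 : ∀ e, X e ≤ t ^ (1/37 : ℝ) * (a e ^ (28/37 : ℝ) * b e ^ (9/37 : ℝ)) := by
    intro e
    have e1 : X e = X e ^ (1/37 : ℝ) * X e ^ (36/37 : ℝ) := by
      rw [← Real.rpow_add_of_nonneg (hX0 e) (by norm_num) (by norm_num)]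
      rw [show (1/37 + 36/37 : ℝ) = 1 by norm_num, Real.rpow_one]
    have e2 : X e ^ (36/37 : ℝ) ≤ a e ^ (28/37 : ℝ) * b e ^ (9/37 : ℝ) := by
      calc X e ^ (36/37 : ℝ) ≤ (a e ^ (7/9 : ℝ) * b e ^ (1/4 : ℝ)) ^ (36/37 : ℝ) :=
            Real.rpow_le_rpow (hX0 e) (h e) (by norm_num)
        _ = _ := by
            rw [Real.mul_rpow (Real.rpow_nonneg (ha0 e) _) (Real.rpow_nonneg (hb0 e) _),
              ← Real.rpow_mul (ha0 e), ← Real.rpow_mul (hb0 e)]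
            norm_num
    have e3 : X e ^ (1/37 : ℝ) ≤ t ^ (1/37 : ℝ) :=
      Real.rpow_le_rpow (hX0 e) (hX e) (by norm_num)
    calc X e = X e ^ (1/37 : ℝ) * X e ^ (36/37 : ℝ) := e1
      _ ≤ _ := mul_le_mul e3 e2 (Real.rpow_nonneg (hX0 e) _) (Real.rpow_nonneg ht _)
  have h2 := Lib_helper49.Pluri.avg_mono h1
  rw [Lib_helper49.Pluri.avg_mul] at h2
  have h3 : Lib_helper49.Pluri.avg X ≤ t ^ (1/37 : ℝ) * (P ^ (28/37 : ℝ) * R ^ (9/37 : ℝ)) := by
    refine h2.trans ?_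
    apply mul_le_mul_of_nonneg_left _ (Real.rpow_nonneg ht _)
    refine (Lib_helper49.Pluri.holder37 a b ha0 hb0).trans ?_
    exact mul_le_mul (Real.rpow_le_rpow ha' ha (by norm_num))
      (Real.rpow_le_rpow hb' hb (by norm_num)) (Real.rpow_nonneg hb' _) (Real.rpow_nonneg hP _)
  have h4 := pow_le_pow_left₀ hA0 h3 37
  have q1 : (t ^ (1/37 : ℝ)) ^ 37 = t := by
    rw [← Real.rpow_natCast, ← Real.rpow_mul ht]; norm_num
  have q2 : (P ^ (28/37 : ℝ)) ^ 37 = P ^ 28 := by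
    rw [← Real.rpow_natCast, ← Real.rpow_mul hP]
    rw [show (28/37 * ((37:ℕ):ℝ) : ℝ) = ((28:ℕ):ℝ) by norm_num, Real.rpow_natCast]
  have q3 : (R ^ (9/37 : ℝ)) ^ 37 = R ^ 9 := by
    rw [← Real.rpow_natCast, ← Real.rpow_mul hR]
    rw [show (9/37 * ((37:ℕ):ℝ) : ℝ) = ((9:ℕ):ℝ) by norm_num, Real.rpow_natCast]
  rw [mul_pow, mul_pow, q1, q2, q3] at h4
  calc Lib_helper49.Pluri.avg X ^ 37 ≤ t * (P ^ 28 * R ^ 9) := h4
    _ = _ := by ring

lemma aS_onl (γ : I → M) (l : List M) (c : (M → Bool) → Finset I → ℂ) (e' : M → Bool)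
    (S T : Finset I) : aS γ l (onl S c) e' T = if T = S then aS γ l c e' S else 0 := by
  unfold aS
  by_cases h : T = S
  · rw [if_pos h]
    apply Finset.sum_congr rfl; intro e _
    rw [ps_eq, ps_eq]
    simp only [onl, if_pos h]
    rw [h]
  · rw [if_neg h]
    apply Finset.sum_eq_zero; intro e _
    rw [ps_eq]
    simp [onl, if_neg h]

/-- the mean of the square of a collected coefficient -/
lemma mean_aS (γ : I → M) (i0 : M) (l : List M) (hnd : l.Nodup) (hmem : ∀ i, i ∈ l ↔ i ≠ i0)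
    (c : (M → Bool) → Finset I → ℂ)
    (h1 : ∀ e S, c e S ≠ 0 → i0 ∈ S.image γ → e i0 = false) (S : Finset I) :
    (Av fun e' : M → Bool => ‖aS γ l c e' S‖^2) =
      (1/2048 : ℝ) ^ ((S.image γ).erase i0).card * Av (fun w => ‖Hf γ (onl S c) w‖^2) := by
  have hc : ∀ e T, T ≠ S → onl S c e T = 0 := by
    intro e T hT; unfold onl; rw [if_neg hT]
  have h1' : ∀ e T, onl S c e T ≠ 0 → i0 ∈ T.image γ → e i0 = false := by
    intro e T hne hT
    unfold onl at hne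
    by_cases h : T = S
    · rw [if_pos h] at hne; exact h1 e T hne hT
    · rw [if_neg h] at hne; exact absurd rfl hne
  have hcount : (l.filter (fun i => i ∈ S.image γ)).length = ((S.image γ).erase i0).card := by
    rw [← List.toFinset_card_of_nodup (hnd.filter _)]
    congr 1
    ext i
    rw [List.mem_toFinset, List.mem_filter, hmem, Finset.mem_erase]
    simp
  have h2 := chain2 γ S l hnd (onl S c) hc
  rw [hcount] at h2
  rw [← h2]
  congr 1; funext e'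
  rw [sq_ps γ i0 l hmem (onl S c) h1' e', Finset.sum_eq_single S]
  · rw [aS_onl, if_pos rfl]
  · intro T _ hT
    rw [aS_onl, if_neg hT]; simp
  · simp

/-- **The second moment, discounted by the number of groups.** -/
theorem s4t' (γ : I → M) (i0 : M) (c : (M → Bool) → Finset I → ℂ)
    (h1 : ∀ e S, c e S ≠ 0 → i0 ∈ S.image γ → e i0 = false)
    (hb : ∀ w, ‖Hf γ c w‖ ≤ 1) :
    (Av fun w => ‖Hf γ (fun e S => (1/64 : ℂ) ^ ((S.image γ).erase i0).card * c e S) w‖^2) ^ 37 ≤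
      (Av fun w => ‖Hf γ c w‖) ^ 20 * (Av fun w => ‖Hf γ c w‖^2) ^ 18 := by
  obtain ⟨l, hl⟩ : ∃ l : List M, l = (Finset.univ.erase i0).toList := ⟨_, rfl⟩
  have hnd : l.Nodup := by rw [hl]; exact Finset.nodup_toList _
  have hmem : ∀ i, i ∈ l ↔ i ≠ i0 := by
    intro i; rw [hl, Finset.mem_toList, Finset.mem_erase]; simp
  have hav : ∀ F : (M → Bool) → ℝ, Lib_helper49.Pluri.avg F = Av F := by
    intro F
    unfold Lib_helper49.Pluri.avg Av
    rw [div_eq_inv_mul]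
  set X : (M → Bool) → ℝ := fun e' => ∑ S, ‖aS γ l c e' S‖^2 with hX
  set a : (M → Bool) → ℝ := fun e' => Av fun w => ‖Hf γ (ps γ l c e') w‖^(9/7 : ℝ) with ha
  set b : (M → Bool) → ℝ := fun e' => Av fun w => ‖Hf γ (ps γ l c e') w‖^4 with hb'
  have hXab : ∀ e', X e' ≤ a e' ^ (7/9 : ℝ) * b e' ^ (1/4 : ℝ) :=
    fun e' => bq_ps γ i0 l hmem c h1 e'
  have hX0 : ∀ e', 0 ≤ X e' := fun e' => Finset.sum_nonneg fun S _ => by positivity
  have ha0 : ∀ e', 0 ≤ a e' := fun e' => Av_nonneg fun w => by positivity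
  have hb0 : ∀ e', 0 ≤ b e' := fun e' => Av_nonneg fun w => by positivity
  have hA0 : ∀ S, 0 ≤ Av (fun w => ‖Hf γ (onl S c) w‖^2) := fun S => Av_nonneg fun w => by positivity
  -- the pointwise bound
  have hXt : ∀ e', X e' ≤ Av fun w => ‖Hf γ c w‖^2 := by
    intro e'
    rw [orthS]
    simp only [hX]
    apply Finset.sum_le_sum
    intro S _
    have hj := Lib_helper31.GPL.junta_le ((S.image γ).erase i0)
      (fun e'' => ‖aS γ l c e'' S‖^2) (fun e'' => by positivity) (by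
        intro e1 e2 h12
        have : aS γ l c e1 S = aS γ l c e2 S := by
          unfold aS
          apply Finset.sum_congr rfl; intro e _
          rw [ps_eq, ps_eq]
          have hiff : (∀ i ∈ l, i ∈ S.image γ → e i = e1 i) ↔
              (∀ i ∈ l, i ∈ S.image γ → e i = e2 i) := by
            constructor
            · intro h i hi hi2
              rw [h i hi hi2]
              exact h12 i (Finset.mem_erase.mpr ⟨(hmem i).mp hi, hi2⟩)
            · intro h i hi hi2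
              rw [h i hi hi2]
              exact (h12 i (Finset.mem_erase.mpr ⟨(hmem i).mp hi, hi2⟩)).symm
          by_cases hc : ∀ i ∈ l, i ∈ S.image γ → e i = e1 i
          · rw [if_pos hc, if_pos (hiff.mp hc)]
          · rw [if_neg hc, if_neg (fun h => hc (hiff.mpr h))]
        simp only [this]) e'
    refine hj.trans ?_
    have h3 := mean_aS γ i0 l hnd hmem c h1 S
    change 2 ^ ((S.image γ).erase i0).card * (Av fun e' : M → Bool => ‖aS γ l c e' S‖^2) ≤ _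
    rw [h3, ← mul_assoc, ← mul_pow]
    have h4 : ((2:ℝ) * (1/2048)) ^ ((S.image γ).erase i0).card ≤ 1 :=
      pow_le_one₀ (by norm_num) (by norm_num)
    exact mul_le_of_le_one_left (hA0 S) h4
  have hP := chainG γ (fun F => Av fun w => ‖F w‖^(9/7 : ℝ)) (fun i c => step97 γ i c) l hnd c
  have hR := chainG γ (fun F => Av fun w => ‖F w‖^4) (fun i c => step4 γ i c) l hnd c
  have hth0 : 0 ≤ Av fun w => ‖Hf γ c w‖^2 := Av_nonneg fun w => by positivity
  have h37 := junta37 X a b hX0 ha0 hb0 (Av fun w => ‖Hf γ c w‖^2)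
    (Av fun w => ‖Hf γ c w‖^(9/7 : ℝ)) (Av fun w => ‖Hf γ c w‖^4) hth0 hXab
    (by rw [hav]; exact hP) (by rw [hav]; exact hR) hXt
  rw [hav] at h37
  have hX10 : 0 ≤ Av fun w => ‖Hf γ c w‖ := Av_nonneg fun w => norm_nonneg _
  have hP0 : 0 ≤ Av fun w => ‖Hf γ c w‖^(9/7 : ℝ) := Av_nonneg fun w => by positivity
  have hR0 : 0 ≤ Av fun w => ‖Hf γ c w‖^4 := Av_nonneg fun w => by positivity
  have hRle : (Av fun w => ‖Hf γ c w‖^4) ≤ Av fun w => ‖Hf γ c w‖^2 := by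
    apply Av_mono
    intro w
    have h3 := hb w
    have h4 : 0 ≤ ‖Hf γ c w‖ := norm_nonneg _
    have h5 : ‖Hf γ c w‖^2 ≤ 1 := by nlinarith
    nlinarith [sq_nonneg (‖Hf γ c w‖)]
  have hP28 : (Av fun w => ‖Hf γ c w‖^(9/7 : ℝ)) ^ 28 ≤
      (Av fun w => ‖Hf γ c w‖) ^ 20 * (Av fun w => ‖Hf γ c w‖^2) ^ 8 := by
    calc (Av fun w => ‖Hf γ c w‖^(9/7 : ℝ)) ^ 28
        ≤ ((Av fun w => ‖Hf γ c w‖) ^ (5/7 : ℝ) * (Av fun w => ‖Hf γ c w‖^2) ^ (2/7 : ℝ)) ^ 28 :=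
          pow_le_pow_left₀ hP0 (holder97 _) 28
      _ = _ := by
          rw [mul_pow, ← Real.rpow_natCast, ← Real.rpow_natCast, ← Real.rpow_mul hX10,
            ← Real.rpow_mul hth0]
          norm_num
  have hR9 : (Av fun w => ‖Hf γ c w‖^4) ^ 9 ≤ (Av fun w => ‖Hf γ c w‖^2) ^ 9 :=
    pow_le_pow_left₀ hR0 hRle 9
  -- the lower bound
  have hlow : (Av fun w => ‖Hf γ (fun e S => (1/64 : ℂ) ^ ((S.image γ).erase i0).card * c e S) w‖^2)
      ≤ Av X := by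
    have e1 : Av X = ∑ S, Av (fun e'' : M → Bool => ‖aS γ l c e'' S‖^2) := by
      rw [← Av_sum]
    rw [e1, orthS]
    apply Finset.sum_le_sum
    intro S _
    rw [mean_aS γ i0 l hnd hmem c h1 S]
    have e2 : ∀ w, Hf γ (onl S (fun e S => (1/64 : ℂ) ^ ((S.image γ).erase i0).card * c e S)) w =
        (1/64 : ℂ) ^ ((S.image γ).erase i0).card * Hf γ (onl S c) w := by
      intro w
      rw [Hf_onl, Hf_onl, Finset.mul_sum]
      apply Finset.sum_congr rfl; intro e _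
      ring
    simp_rw [e2]
    have e3 : ∀ w, ‖(1/64 : ℂ) ^ ((S.image γ).erase i0).card * Hf γ (onl S c) w‖^2 =
        (1/4096 : ℝ) ^ ((S.image γ).erase i0).card * ‖Hf γ (onl S c) w‖^2 := by
      intro w
      rw [norm_mul, norm_pow, mul_pow, ← pow_mul, mul_comm _ 2, pow_mul]
      have : ‖(1/64 : ℂ)‖ ^ 2 = 1/4096 := by
        rw [norm_div, norm_one]
        norm_num
      rw [this]
    simp_rw [e3]
    rw [Av_mul]
    apply mul_le_mul_of_nonneg_right _ (hA0 S)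
    exact pow_le_pow_left₀ (by norm_num) (by norm_num) _
  have hL0 : 0 ≤ (Av fun w =>
      ‖Hf γ (fun e S => (1/64 : ℂ) ^ ((S.image γ).erase i0).card * c e S) w‖^2) :=
    Av_nonneg fun w => by positivity
  calc (Av fun w => ‖Hf γ (fun e S => (1/64 : ℂ) ^ ((S.image γ).erase i0).card * c e S) w‖^2) ^ 37
      ≤ (Av X) ^ 37 := pow_le_pow_left₀ hL0 hlow 37
    _ ≤ (Av fun w => ‖Hf γ c w‖^2) * (Av fun w => ‖Hf γ c w‖^(9/7 : ℝ)) ^ 28 *
        (Av fun w => ‖Hf γ c w‖^4) ^ 9 := h37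
    _ ≤ (Av fun w => ‖Hf γ c w‖^2) * ((Av fun w => ‖Hf γ c w‖) ^ 20 *
        (Av fun w => ‖Hf γ c w‖^2) ^ 8) * (Av fun w => ‖Hf γ c w‖^2) ^ 9 := by gcongr
    _ = _ := by ring

/-- the same with the letters `x + i y`, `x - i y`, `x, y = ±1` -/
theorem s4t {n m : ℕ} (γ : Fin n → Fin m) (i0 : Fin m)
    (c : (Fin m → Bool) → Finset (Fin n) → ℂ)
    (h1 : ∀ e S, c e S ≠ 0 → i0 ∈ S.image γ → e i0 = false)
    (hb : ∀ w : Fin n → Bool × Bool, ‖∑ e, ∑ S, c e S * ∏ i ∈ S,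
      ((-1) ^ (w i).1.toNat + (-1) ^ (e (γ i)).toNat * (-1) ^ (w i).2.toNat * Complex.I)‖ ≤ 1) :
    (Av fun w : Fin n → Bool × Bool => ‖∑ e, ∑ S,
      ((1/64 : ℂ) ^ ((S.image γ).erase i0).card * c e S) * ∏ i ∈ S,
      ((-1) ^ (w i).1.toNat + (-1) ^ (e (γ i)).toNat * (-1) ^ (w i).2.toNat * Complex.I)‖^2)
        ^ 37 ≤
    (Av fun w : Fin n → Bool × Bool => ‖∑ e, ∑ S, c e S * ∏ i ∈ S,
      ((-1) ^ (w i).1.toNat + (-1) ^ (e (γ i)).toNat * (-1) ^ (w i).2.toNat * Complex.I)‖) ^ 20 *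
    (Av fun w : Fin n → Bool × Bool => ‖∑ e, ∑ S, c e S * ∏ i ∈ S,
      ((-1) ^ (w i).1.toNat + (-1) ^ (e (γ i)).toNat * (-1) ^ (w i).2.toNat * Complex.I)‖^2)
        ^ 18 := by
  have hH : ∀ (c : (Fin m → Bool) → Finset (Fin n) → ℂ) (w : Fin n → Bool × Bool),
      ∑ e, ∑ S, c e S * ∏ i ∈ S,
      ((-1) ^ (w i).1.toNat + (-1) ^ (e (γ i)).toNat * (-1) ^ (w i).2.toNat * Complex.I) =
      Hf γ (fun e S => c e S * ∏ i ∈ S, kp (e (γ i))) w := by
    intro c w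
    unfold Hf mon
    apply Finset.sum_congr rfl; intro e _
    apply Finset.sum_congr rfl; intro S _
    rw [mul_assoc, ← Finset.prod_mul_distrib]
    congr 1
    apply Finset.prod_congr rfl; intro i _
    exact letter (e (γ i)) (w i)
  simp_rw [hH] at hb ⊢
  have h := s4t' γ i0 (fun e S => c e S * ∏ i ∈ S, kp (e (γ i)))
    (fun e S h => h1 e S (left_ne_zero_of_mul h)) hb
  simp_rw [mul_assoc]
  exact h

end Pool.Agent.PLH.T
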