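import Pool.Agent.Lib_helper84.PLH.S4G

/-!
Discrete pluriharmonic functions: the same with the letters `x + i y`, `x - i y`, `x, y = ±1`.
-/

namespace Pool.Agent.PLH

open Complex ComplexConjugate

/-- factor of a letter -/
noncomputable def kp (e : Bool) : ℂ := if e then 1 - Complex.I else 1 + Complex.I

lemma letter (e : Bool) (x : Bool × Bool) :
    ((-1 : ℂ) ^ x.1.toNat + (-1) ^ e.toNat * (-1) ^ x.2.toNat * Complex.I) = kp e * zs e x := by
  obtain ⟨a, b⟩ := x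
  cases e <;> cases a <;> cases b <;>
    (apply Complex.ext <;> simp [kp, zs, zt])

theorem s4g {n m : ℕ} (γ : Fin n → Fin m) (k : ℕ) (i0 : Fin m)
    (c : (Fin m → Bool) → Finset (Fin n) → ℂ)
    (h1 : ∀ e S, c e S ≠ 0 → i0 ∈ S.image γ → e i0 = false)
    (h2 : ∀ e S, c e S ≠ 0 → ((S.image γ).erase i0).card ≤ k)
    (hb : ∀ w : Fin n → Bool × Bool, ‖∑ e, ∑ S, c e S * ∏ i ∈ S,
      ((-1) ^ (w i).1.toNat + (-1) ^ (e (γ i)).toNat * (-1) ^ (w i).2.toNat * Complex.I)‖ ≤ 1) :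
    (Av fun w : Fin n → Bool × Bool => ‖∑ e, ∑ S, c e S * ∏ i ∈ S,
      ((-1) ^ (w i).1.toNat + (-1) ^ (e (γ i)).toNat * (-1) ^ (w i).2.toNat * Complex.I)‖^2)
        ^ (19/20 : ℝ) ≤
    2 ^ (20 * k) * Av fun w : Fin n → Bool × Bool => ‖∑ e, ∑ S, c e S * ∏ i ∈ S,
      ((-1) ^ (w i).1.toNat + (-1) ^ (e (γ i)).toNat * (-1) ^ (w i).2.toNat * Complex.I)‖ := by
  have hH : ∀ w : Fin n → Bool × Bool, ∑ e, ∑ S, c e S * ∏ i ∈ S,
      ((-1) ^ (w i).1.toNat + (-1) ^ (e (γ i)).toNat * (-1) ^ (w i).2.toNat * Complex.I) =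
      Hf γ (fun e S => c e S * ∏ i ∈ S, kp (e (γ i))) w := by
    intro w
    unfold Hf mon
    apply Finset.sum_congr rfl; intro e _
    apply Finset.sum_congr rfl; intro S _
    rw [mul_assoc, ← Finset.prod_mul_distrib]
    congr 1
    apply Finset.prod_congr rfl; intro i _
    exact letter (e (γ i)) (w i)
  simp_rw [hH] at hb ⊢
  refine s4f γ k i0 _ (fun e S h => h1 e S (left_ne_zero_of_mul h))
    (fun e S h => h2 e S (left_ne_zero_of_mul h)) hb

end Pool.Agent.PLH
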