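import Mathlib

/-!
Abstract end: a function which is correlated with a function whose influences satisfy a power sum
bound has a large influence.
-/

set_option autoImplicit false

namespace Pool.Agent.PLH

open Finset

/-- **The end, from the power sum bound.** -/
theorem corr20 {ι α : Type*} [Fintype α] [DecidableEq ι] [DecidableEq α] (J : Finset ι)
    (hJ : J.Nonempty) (met : Finset ι → Finset α) (hmet : ∀ L ⊆ J, met J ⊆ met L ∪ met (J \ L))
    (a f : α → ℝ) (ha : ∑ W, a W ^ 2 ≤ 1) (hf : ∑ W, f W ^ 2 ≤ 1) (t φ : ι → ℝ)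
    (ht0 : ∀ j ∈ J, 0 ≤ t j) (hφ0 : ∀ j ∈ J, 0 ≤ φ j)
    (hT : ∀ K ⊆ J, ∑ W ∈ met K, a W ^ 2 ≤ ∑ j ∈ K, t j)
    (hφ : ∀ K ⊆ J, ∑ W ∈ met K, f W ^ 2 ≤ ∑ j ∈ K, φ j)
    {B : ℝ} (hB : ∑ j ∈ J, t j ^ (19/20 : ℝ) ≤ B)
    {C : ℝ} (hC : C = ∑ W ∈ met J, |a W * f W|) :
    ∃ j ∈ J, (C / 2) ^ 40 ≤ B ^ 20 * φ j := by
  have hB0 : 0 ≤ B := (sum_nonneg fun j hj => Real.rpow_nonneg (ht0 j hj) _).trans hB
  have hC0 : 0 ≤ C := by
    rw [hC]; exact sum_nonneg fun W _ => abs_nonneg _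
  obtain ⟨j0, hj0, hmax⟩ := J.exists_max_image φ hJ
  refine ⟨j0, hj0, ?_⟩
  have hM0 : 0 ≤ φ j0 := hφ0 j0 hj0
  rcases hC0.eq_or_lt with hCz | hCpos
  · rw [← hCz]
    simp only [zero_div, ne_eq, OfNat.ofNat_ne_zero, not_false_eq_true, zero_pow]
    positivity
  by_contra hcon
  push Not at hcon
  set M := φ j0 with hM
  have hC2 : 0 < C / 2 := by positivity
  obtain ⟨s, hs0, hs1, hs2⟩ : ∃ s : ℝ, 0 < s ∧ s * B ≤ (C / 2) ^ 2 ∧ B * M < s ^ 19 * (C / 2) ^ 2 := by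
    rcases hB0.eq_or_lt with h | h
    · refine ⟨1, one_pos, ?_, ?_⟩
      · rw [← h, mul_zero]; positivity
      · rw [← h, zero_mul]; positivity
    · refine ⟨(C / 2) ^ 2 / B, by positivity, (div_mul_cancel₀ _ h.ne').le, ?_⟩
      have h1 : (B * M) * B ^ 19 < ((C / 2) ^ 2 / B) ^ 19 * (C / 2) ^ 2 * B ^ 19 := by
        calc (B * M) * B ^ 19 = B ^ 20 * M := by ring
          _ < (C / 2) ^ 40 := hcon
          _ = ((C / 2) ^ 2 / B) ^ 19 * (C / 2) ^ 2 * B ^ 19 := by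
              rw [div_pow]; field_simp
      exact lt_of_mul_lt_mul_right h1 (by positivity)
  set L : Finset ι := J.filter (fun j => s ^ 20 ≤ t j) with hL
  have hLJ : L ⊆ J := filter_subset _ _
  have hJL : J \ L ⊆ J := sdiff_subset
  have e19 : (s ^ 20) ^ (19/20 : ℝ) = s ^ 19 := by
    rw [← Real.rpow_natCast, ← Real.rpow_natCast, ← Real.rpow_mul hs0.le]; norm_num
  have e1 : (s ^ 20) ^ (1/20 : ℝ) = s := by
    rw [← Real.rpow_natCast, ← Real.rpow_mul hs0.le]; norm_num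
  have hcard : (L.card : ℝ) * s ^ 19 ≤ B := by
    calc (L.card : ℝ) * s ^ 19 = ∑ j ∈ L, s ^ 19 := by rw [sum_const, nsmul_eq_mul]
      _ ≤ ∑ j ∈ L, t j ^ (19/20 : ℝ) := sum_le_sum fun j hj => by
          rw [← e19]
          exact Real.rpow_le_rpow (by positivity) (mem_filter.mp hj).2 (by norm_num)
      _ ≤ ∑ j ∈ J, t j ^ (19/20 : ℝ) :=
          sum_le_sum_of_subset_of_nonneg hLJ fun j hj _ => Real.rpow_nonneg (ht0 j hj) _
      _ ≤ B := hB
  have hpartL : ∑ j ∈ L, φ j < (C / 2) ^ 2 := by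
    have h1 : ∑ j ∈ L, φ j ≤ L.card * M := by
      calc ∑ j ∈ L, φ j ≤ ∑ j ∈ L, M := sum_le_sum fun j hj => hmax j (hLJ hj)
        _ = L.card * M := by rw [sum_const, nsmul_eq_mul]
    have h4 : (∑ j ∈ L, φ j) * s ^ 19 < (C / 2) ^ 2 * s ^ 19 := by
      calc (∑ j ∈ L, φ j) * s ^ 19 ≤ L.card * M * s ^ 19 :=
            mul_le_mul_of_nonneg_right h1 (by positivity)
        _ = (L.card * s ^ 19) * M := by ring
        _ ≤ B * M := mul_le_mul_of_nonneg_right hcard hM0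
        _ < s ^ 19 * (C / 2) ^ 2 := hs2
        _ = (C / 2) ^ 2 * s ^ 19 := by ring
    exact lt_of_mul_lt_mul_right h4 (by positivity)
  have hpartR : ∑ j ∈ J \ L, t j ≤ (C / 2) ^ 2 := by
    calc ∑ j ∈ J \ L, t j ≤ ∑ j ∈ J \ L, s * t j ^ (19/20 : ℝ) := by
          refine sum_le_sum fun j hj => ?_
          have hjJ : j ∈ J := hJL hj
          rw [mem_sdiff, hL, mem_filter, not_and, not_le] at hj
          have h1 : t j < s ^ 20 := hj.2 hj.1
          have h2 : t j = t j ^ (1/20 : ℝ) * t j ^ (19/20 : ℝ) := by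
            rw [← Real.rpow_add_of_nonneg (ht0 j hjJ) (by norm_num) (by norm_num)]
            norm_num
          conv_lhs => rw [h2]
          refine mul_le_mul_of_nonneg_right ?_ (Real.rpow_nonneg (ht0 j hjJ) _)
          calc t j ^ (1/20 : ℝ) ≤ (s ^ 20) ^ (1/20 : ℝ) :=
                Real.rpow_le_rpow (ht0 j hjJ) h1.le (by norm_num)
            _ = s := e1
      _ = s * ∑ j ∈ J \ L, t j ^ (19/20 : ℝ) := by rw [mul_sum]
      _ ≤ s * ∑ j ∈ J, t j ^ (19/20 : ℝ) := by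
          refine mul_le_mul_of_nonneg_left ?_ hs0.le
          exact sum_le_sum_of_subset_of_nonneg hJL fun j hj _ => Real.rpow_nonneg (ht0 j hj) _
      _ ≤ s * B := mul_le_mul_of_nonneg_left hB hs0.le
      _ ≤ (C / 2) ^ 2 := hs1
  have hsf : ∀ s : Finset α, ∑ W ∈ s, f W ^ 2 ≤ 1 := fun s =>
    (sum_le_sum_of_subset_of_nonneg (subset_univ s) fun W _ _ => by positivity).trans hf
  have hsa : ∀ s : Finset α, ∑ W ∈ s, a W ^ 2 ≤ 1 := fun s =>
    (sum_le_sum_of_subset_of_nonneg (subset_univ s) fun W _ _ => by positivity).trans ha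
  have hcs : ∀ s : Finset α, ∑ W ∈ s, |a W * f W| ≤
      √(∑ W ∈ s, a W ^ 2) * √(∑ W ∈ s, f W ^ 2) := by
    intro s
    have h1 := Real.sum_mul_le_sqrt_mul_sqrt s (fun W => |a W|) (fun W => |f W|)
    simp only [sq_abs] at h1
    refine le_trans (le_of_eq ?_) h1
    exact sum_congr rfl fun W _ => abs_mul _ _
  have h1 : C ≤ ∑ W ∈ met L, |a W * f W| + ∑ W ∈ met (J \ L), |a W * f W| := by
    rw [hC]
    calc ∑ W ∈ met J, |a W * f W| ≤ ∑ W ∈ met L ∪ met (J \ L), |a W * f W| :=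
          sum_le_sum_of_subset_of_nonneg (hmet L hLJ) fun W _ _ => abs_nonneg _
      _ ≤ _ := by
          rw [← sum_union_inter]
          exact le_add_of_nonneg_right (sum_nonneg fun W _ => abs_nonneg _)
  have h2 : ∑ W ∈ met L, |a W * f W| < C / 2 := by
    calc ∑ W ∈ met L, |a W * f W|
        ≤ √(∑ W ∈ met L, a W ^ 2) * √(∑ W ∈ met L, f W ^ 2) := hcs _
      _ ≤ 1 * √(∑ W ∈ met L, f W ^ 2) := by
          gcongr
          rw [Real.sqrt_le_one]
          exact hsa _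
      _ = √(∑ W ∈ met L, f W ^ 2) := one_mul _
      _ < √((C / 2) ^ 2) := by
          apply Real.sqrt_lt_sqrt (sum_nonneg fun W _ => by positivity)
          exact lt_of_le_of_lt (hφ L hLJ) hpartL
      _ = C / 2 := Real.sqrt_sq hC2.le
  have h3 : ∑ W ∈ met (J \ L), |a W * f W| ≤ C / 2 := by
    calc ∑ W ∈ met (J \ L), |a W * f W|
        ≤ √(∑ W ∈ met (J \ L), a W ^ 2) * √(∑ W ∈ met (J \ L), f W ^ 2) := hcs _
      _ ≤ √(∑ W ∈ met (J \ L), a W ^ 2) * 1 := by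
          gcongr
          rw [Real.sqrt_le_one]
          exact hsf _
      _ = √(∑ W ∈ met (J \ L), a W ^ 2) := mul_one _
      _ ≤ √((C / 2) ^ 2) := Real.sqrt_le_sqrt ((hT (J \ L) hJL).trans hpartR)
      _ = C / 2 := Real.sqrt_sq hC2.le
  linarith

end Pool.Agent.PLH
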