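import Pool.Agent.Lib_helper84.PLH.S4W
import Pool.Agent.Lib_helper4.PluriG.Main
import Pool.Agent.Lib_helper84.PLH.Corr20

/-!
The covariance of a bounded function which is pluriharmonic in groups of variables with any
function of small influences.
-/

set_option autoImplicit false

namespace Pool.Agent.PLH

open Finset Pool.Agent.Lib_helper30.AA Pool.Agent.Lib_helper14.AAQ Pool.Agent.Lib_helper4.PluriG

/-- The covariance form, with the sum of the absolute values of the products of the Fourier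
coefficients. -/
theorem abs40 (n m : ℕ) (g : Fin n → Fin m) (k : ℕ) (c : (Fin m → Bool) → Finset (Fin n) → ℂ)
    (f : (Fin n ⊕ Fin n → Bool) → ℝ) (hbd : ∀ v, |F g c v| ≤ 1)
    (hf : ((2 : ℝ) ^ (2 * n))⁻¹ * ∑ v, f v ^ 2 ≤ 1)
    (J : Finset (Fin n)) (hJ : J.Nonempty) (d : ℕ)
    (hdeg : ∀ u S, c u S ≠ 0 → (S ∩ J).card ≤ d)
    (hk : ∀ u S, c u S ≠ 0 → (S ∩ J).Nonempty → (S.image g).card ≤ k + 1)
    (Inf : Fin n ⊕ Fin n → ℝ)
    (hInf : ∀ k, Inf k = ((2 : ℝ) ^ (2 * n))⁻¹ * ∑ v, ((f v - f (Function.update v k (!v k))) / 2) ^ 2)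
    (C : ℝ)
    (hC : C = ∑ W with (W ∩ J.disjSum J).Nonempty, |coef (F g c) W * coef f W|) :
    ∃ j ∈ J, C ^ 40 ≤ 2 ^ (400 * k + 60) * (d : ℝ) ^ 40 *
      (Inf (Sum.inl j) + Inf (Sum.inr j)) := by
  have hInf' : ∀ k, Inf k =
      ∑ W ∈ (univ : Finset (Finset (Fin n ⊕ Fin n))).filter (fun W => k ∈ W),
        coef f W ^ 2 := by
    intro k
    rw [hInf, ← influence_eq, Pool.Agent.Lib_helper4.Pluri.two_pow_card]
  have hInf0 : ∀ k, 0 ≤ Inf k := fun k => by
    rw [hInf' k]; exact Finset.sum_nonneg fun W _ => sq_nonneg _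
  have ha : ∑ W, coef (F g c) W ^ 2 ≤ 1 := by
    rw [parseval_sq]
    rw [inv_mul_le_iff₀ (by positivity), mul_one]
    refine (Finset.sum_le_sum fun x _ => (sq_le_one_iff_abs_le_one _).mpr (hbd x)).trans
      (le_of_eq ?_)
    simp
  have hf' : ∑ W, coef f W ^ 2 ≤ 1 := by
    rw [parseval_sq, Pool.Agent.Lib_helper4.Pluri.two_pow_card]
    exact hf
  have hth : ∀ K : Finset (Fin n), ∑ j ∈ K, th g c j = ∑ k ∈ K.disjSum K,
      ∑ W ∈ (univ : Finset (Finset (Fin n ⊕ Fin n))).filter (fun W => k ∈ W),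
        coef (F g c) W ^ 2 := by
    intro K
    have hc : ∀ k, ((2 : ℝ) ^ (2 * n))⁻¹ * ∑ v, Pool.Agent.Lib_helper4.Pluri.hd (F g c) k v ^ 2 =
        ∑ W ∈ (univ : Finset (Finset (Fin n ⊕ Fin n))).filter (fun W => k ∈ W),
          coef (F g c) W ^ 2 := by
      intro k
      rw [← influence_eq, Pool.Agent.Lib_helper4.Pluri.two_pow_card]
      rfl
    rw [Finset.sum_disjSum, ← Finset.sum_add_distrib]
    refine Finset.sum_congr rfl fun j _ => ?_
    rw [← hc, ← hc, hd_sum]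
  have key := corr20 J hJ
    (fun K => (univ : Finset (Finset (Fin n ⊕ Fin n))).filter
      (fun W => (W ∩ K.disjSum K).Nonempty))
    (by
      intro L hL W hW
      rw [mem_filter] at hW
      obtain ⟨-, k, hk⟩ := hW
      rw [mem_inter] at hk
      rw [mem_union, mem_filter, mem_filter]
      rcases k with j | j
      · have hj : j ∈ J := by simpa using hk.2
        by_cases hjL : j ∈ L
        · exact Or.inl ⟨mem_univ _, Sum.inl j, mem_inter.mpr ⟨hk.1, by simpa using hjL⟩⟩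
        · exact Or.inr ⟨mem_univ _, Sum.inl j, mem_inter.mpr ⟨hk.1, by simp [hj, hjL]⟩⟩
      · have hj : j ∈ J := by simpa using hk.2
        by_cases hjL : j ∈ L
        · exact Or.inl ⟨mem_univ _, Sum.inr j, mem_inter.mpr ⟨hk.1, by simpa using hjL⟩⟩
        · exact Or.inr ⟨mem_univ _, Sum.inr j, mem_inter.mpr ⟨hk.1, by simp [hj, hjL]⟩⟩)
    (coef (F g c)) (coef f) ha hf' (th g c)
    (fun j => Inf (Sum.inl j) + Inf (Sum.inr j))
    (fun j _ => th_nonneg _ _ j) (fun j _ => add_nonneg (hInf0 _) (hInf0 _))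
    (by
      intro K _
      rw [hth]
      exact Pool.Agent.Lib_helper4.Pluri.weight_le_inf _ _)
    (by
      intro K _
      refine (Pool.Agent.Lib_helper4.Pluri.weight_le_inf f (K.disjSum K)).trans (le_of_eq ?_)
      simp_rw [← hInf']
      rw [Finset.sum_disjSum, ← Finset.sum_add_distrib])
    (sum_th (fun _ _ g k i0 c h1 h2 hb => s4g g k i0 c h1 h2 hb) hdeg hk hbd) (C := C) hC
  obtain ⟨j, hj, h1⟩ := key
  refine ⟨j, hj, ?_⟩
  have h2 : C ^ 40 = 2 ^ 40 * (C / 2) ^ 40 := by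
    rw [div_pow, mul_div_cancel₀]
    positivity
  rw [h2]
  calc (2:ℝ) ^ 40 * (C / 2) ^ 40 ≤ 2 ^ 40 * ((2 * 2 ^ (20 * k) * (d : ℝ) ^ 2) ^ 20 *
        (Inf (Sum.inl j) + Inf (Sum.inr j))) := mul_le_mul_of_nonneg_left h1 (by positivity)
    _ = 2 ^ (400 * k + 60) * (d : ℝ) ^ 40 * (Inf (Sum.inl j) + Inf (Sum.inr j)) := by
        rw [mul_pow, mul_pow, ← pow_mul, ← pow_mul, pow_add, show 20 * k * 20 = 400 * k by ring]
        ring

/-- **The leaf inequality.** The covariance of a bounded function which is pluriharmonic in groups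
of variables with any function with mean square at most one and influences at most `A`. -/
theorem leaf40 (n m : ℕ) (g : Fin n → Fin m) (k : ℕ) (c : (Fin m → Bool) → Finset (Fin n) → ℂ)
    (h f : (Fin n ⊕ Fin n → Bool) → ℝ)
    (hh : ∀ v, h v = (∑ u, ∑ S, c u S * ∏ i ∈ S, ((-1) ^ (v (Sum.inl i)).toNat +
      (-1) ^ (u (g i)).toNat * (-1) ^ (v (Sum.inr i)).toNat * Complex.I)).re)
    (hbd : ∀ v, |h v| ≤ 1) (hf : ((2 : ℝ) ^ (2 * n))⁻¹ * ∑ v, f v ^ 2 ≤ 1) (d : ℕ)
    (hdeg : ∀ u S, c u S ≠ 0 → S.card ≤ d)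
    (hk : ∀ u S, c u S ≠ 0 → (S.image g).card ≤ k + 1) (A : ℝ) (hA0 : 0 ≤ A)
    (hA : ∀ v, ((2 : ℝ) ^ (2 * n))⁻¹ * ∑ w, ((f w - f (Function.update w v (!w v))) / 2) ^ 2 ≤ A) :
    |((2 : ℝ) ^ (2 * n))⁻¹ * ∑ v, h v * f v -
      (((2 : ℝ) ^ (2 * n))⁻¹ * ∑ v, h v) * (((2 : ℝ) ^ (2 * n))⁻¹ * ∑ v, f v)| ^ 40 ≤
      2 ^ (400 * k + 61) * (d : ℝ) ^ 40 * A := by
  have hF : h = F g c := by
    funext v
    rw [hh]
    unfold F HH
    congr 1
    refine Finset.sum_congr rfl fun u _ => Finset.sum_congr rfl fun S _ => ?_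
    congr 1
    refine Finset.prod_congr rfl fun i _ => ?_
    unfold pt e
    push_cast
    rfl
  subst hF
  have hemp : ∀ q : (Fin n ⊕ Fin n → Bool) → ℝ, ((2 : ℝ) ^ (2 * n))⁻¹ * ∑ v, q v = coef q ∅ := by
    intro q
    unfold coef chi
    rw [Pool.Agent.Lib_helper4.Pluri.two_pow_card]
    simp
  have hcov : ((2 : ℝ) ^ (2 * n))⁻¹ * ∑ v, F g c v * f v -
      (((2 : ℝ) ^ (2 * n))⁻¹ * ∑ v, F g c v) * (((2 : ℝ) ^ (2 * n))⁻¹ * ∑ v, f v) =
      ∑ W ∈ (univ : Finset (Finset (Fin n ⊕ Fin n))).erase ∅, coef (F g c) W * coef f W := by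
    have e1 : ((2 : ℝ) ^ (2 * n))⁻¹ * ∑ v, F g c v * f v =
        ∑ W : Finset (Fin n ⊕ Fin n), coef (F g c) W * coef f W := by
      rw [parseval, Pool.Agent.Lib_helper4.Pluri.two_pow_card]
    rw [e1, hemp (F g c), hemp f,
      ← Finset.add_sum_erase univ (fun W => coef (F g c) W * coef f W) (mem_univ ∅)]
    ring
  rw [hcov]
  rcases (univ : Finset (Fin n)).eq_empty_or_nonempty with hn | hJ
  · have h0 : (univ : Finset (Finset (Fin n ⊕ Fin n))).erase ∅ = ∅ := by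
      ext W
      rw [mem_erase]
      constructor
      · rintro ⟨hW, -⟩
        exfalso
        apply hW
        ext k
        rcases k with j | j
        · exact absurd (mem_univ j) (by rw [hn]; simp)
        · exact absurd (mem_univ j) (by rw [hn]; simp)
      · intro h; simp at h
    rw [h0, sum_empty, abs_zero, zero_pow (by norm_num)]
    exact mul_nonneg (mul_nonneg (pow_nonneg (by norm_num) _)
      (pow_nonneg (Nat.cast_nonneg d) 40)) hA0
  obtain ⟨j, -, h1⟩ := abs40 n m g k c f hbd hf univ hJ d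
    (fun u S h => by simpa using hdeg u S h) (fun u S h _ => hk u S h)
    (fun k => ((2 : ℝ) ^ (2 * n))⁻¹ * ∑ v, ((f v - f (Function.update v k (!v k))) / 2) ^ 2)
    (fun k => rfl) _ rfl
  have h2 : |∑ W ∈ (univ : Finset (Finset (Fin n ⊕ Fin n))).erase ∅, coef (F g c) W * coef f W| ≤
      ∑ W with (W ∩ (univ : Finset (Fin n)).disjSum univ).Nonempty,
        |coef (F g c) W * coef f W| := by
    refine (Finset.abs_sum_le_sum_abs _ _).trans (le_of_eq (Finset.sum_congr ?_ fun W _ => rfl))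
    ext W
    rw [mem_erase, mem_filter]
    have h3 : (univ : Finset (Fin n)).disjSum (univ : Finset (Fin n)) = univ := by
      ext k
      rcases k with k | k <;> simp
    rw [h3, inter_univ, nonempty_iff_ne_empty]
    simp
  calc |∑ W ∈ (univ : Finset (Finset (Fin n ⊕ Fin n))).erase ∅, coef (F g c) W * coef f W| ^ 40
      ≤ (∑ W with (W ∩ (univ : Finset (Fin n)).disjSum univ).Nonempty,
        |coef (F g c) W * coef f W|) ^ 40 := pow_le_pow_left₀ (abs_nonneg _) h2 40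
    _ ≤ _ := h1
    _ ≤ 2 ^ (400 * k + 60) * (d : ℝ) ^ 40 * (A + A) := by
        exact mul_le_mul_of_nonneg_left (add_le_add (hA _) (hA _))
          (mul_nonneg (pow_nonneg (by norm_num) _) (pow_nonneg (Nat.cast_nonneg d) 40))
    _ = 2 ^ (400 * k + 61) * (d : ℝ) ^ 40 * A := by
        rw [show 400 * k + 61 = (400 * k + 60) + 1 by ring, pow_succ]; ring

end Pool.Agent.PLH
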