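import Pool.Agent.Lib_helper84.PLH.One

/-!
Discrete pluriharmonic functions: the improved Hoelder inequality for multi-affine functions on
`{1, i, -1, -i}^n`.
-/

namespace Pool.Agent.PLH

open Complex ComplexConjugate

variable {I : Type*} [Fintype I] [DecidableEq I]

/-- multi-affine function with coefficients `c`, variables in `s` -/
noncomputable def pv (s : Finset I) (c : Finset I → ℂ) (w : I → Bool × Bool) : ℂ :=
  ∑ S ∈ s.powerset, c S * ∏ i ∈ S, zt (w i)

/-- inner product of coefficients -/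
noncomputable def ip (s : Finset I) (c c' : Finset I → ℂ) : ℂ :=
  ∑ S ∈ s.powerset, c S * conj (c' S)

lemma Av_split (j : I) (F : (I → Bool × Bool) → ℝ) :
    Av F = 1/4 * ∑ x, Av (fun w => F (Function.update w j x)) := by
  have h1 : ∑ p : (I → Bool × Bool) × (Bool × Bool), F (Function.update p.1 j p.2) =
      ∑ p : (I → Bool × Bool) × (Bool × Bool), F p.1 := by
    refine Fintype.sum_equiv
      ⟨fun p => (Function.update p.1 j p.2, p.1 j), fun p => (Function.update p.1 j p.2, p.1 j),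
        fun p => ?_, fun p => ?_⟩ _ _ (fun p => rfl)
    · simp
    · simp
  rw [Fintype.sum_prod_type, Fintype.sum_prod_type] at h1
  simp only [Finset.sum_const, Finset.card_univ, Fintype.card_prod, Fintype.card_bool,
    nsmul_eq_mul] at h1
  have h2 : ∑ x, Av (fun w => F (Function.update w j x)) =
      (Fintype.card (I → Bool × Bool) : ℝ)⁻¹ * ∑ w, ∑ x, F (Function.update w j x) := by
    unfold Av
    rw [← Finset.mul_sum, Finset.sum_comm]
  rw [h2, h1, ← Finset.mul_sum]
  unfold Av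
  push_cast
  ring

lemma Av_const (a : ℝ) : Av (fun _ : I → Bool × Bool => a) = a := by
  unfold Av
  rw [Finset.sum_const, Finset.card_univ, nsmul_eq_mul]
  have : (Fintype.card (I → Bool × Bool) : ℝ) ≠ 0 := by
    have : 0 < Fintype.card (I → Bool × Bool) := Fintype.card_pos
    positivity
  field_simp

lemma pv_insert {j : I} {s : Finset I} (hj : j ∉ s) (c : Finset I → ℂ) (w : I → Bool × Bool) :
    pv (insert j s) c w = pv s c w + zt (w j) * pv s (fun S => c (insert j S)) w := by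
  unfold pv
  rw [Finset.sum_powerset_insert hj, Finset.mul_sum]
  congr 1
  apply Finset.sum_congr rfl
  intro S hS
  have : j ∉ S := fun h => hj (Finset.mem_powerset.mp hS h)
  rw [Finset.prod_insert this]; ring

lemma pv_update {j : I} {s : Finset I} (hj : j ∉ s) (c : Finset I → ℂ) (w : I → Bool × Bool)
    (x : Bool × Bool) : pv s c (Function.update w j x) = pv s c w := by
  unfold pv
  apply Finset.sum_congr rfl
  intro S hS
  congr 1
  apply Finset.prod_congr rfl
  intro i hi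
  rw [Function.update_of_ne]
  rintro rfl
  exact hj (Finset.mem_powerset.mp hS hi)

lemma ip_insert {j : I} {s : Finset I} (hj : j ∉ s) (c c' : Finset I → ℂ) :
    ip (insert j s) c c' = ip s c c' +
      ip s (fun S => c (insert j S)) (fun S => c' (insert j S)) := by
  unfold ip
  rw [Finset.sum_powerset_insert hj]

lemma pv_lin (s : Finset I) (a b : ℂ) (c c' : Finset I → ℂ) (w : I → Bool × Bool) :
    pv s (fun S => a * c S + b * c' S) w = a * pv s c w + b * pv s c' w := by
  unfold pv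
  rw [Finset.mul_sum, Finset.mul_sum, ← Finset.sum_add_distrib]
  apply Finset.sum_congr rfl
  intro S _; ring

lemma ip_lin (s : Finset I) (a b z : ℂ) (c1 c2 d1 d2 : Finset I → ℂ) :
    ip s (fun S => a * c1 S + b * c2 S) (fun S => 1 * d1 S + z * d2 S) =
      a * ip s c1 d1 + (a * conj z) * ip s c1 d2 + b * ip s c2 d1 + (b * conj z) * ip s c2 d2 := by
  unfold ip
  simp only [Finset.mul_sum]
  rw [← Finset.sum_add_distrib, ← Finset.sum_add_distrib, ← Finset.sum_add_distrib]
  apply Finset.sum_congr rfl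
  intro S _
  simp only [map_add, map_mul, map_one]; ring

/-- average over one variable of a function of `pv` -/
lemma Av_pv {j : I} {s : Finset I} (hj : j ∉ s) (c : Finset I → ℂ) (L : ℂ → ℝ) :
    Av (fun w => L (pv (insert j s) c w)) =
      1/4 * ∑ x, Av (fun w => L (pv s c w + zt x * pv s (fun S => c (insert j S)) w)) := by
  rw [Av_split j]
  congr 1
  apply Finset.sum_congr rfl
  intro x _
  congr 1
  funext w
  rw [pv_insert hj, pv_update hj, pv_update hj, Function.update_self]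

/-- arithmetic of the exponents -/
lemma fin_aux {u m S : ℝ} (hu : 0 ≤ u) (hm : 0 ≤ m) (hS0 : 0 ≤ S)
    (hS : S ≤ 4 * m ^ (9/8 : ℝ)) :
    u ^ (7/9 : ℝ) * S ^ (2/9 : ℝ) ≤ 4 * ((1/4 * u) ^ (7/9 : ℝ) * m ^ (1/4 : ℝ)) := by
  have e1 : (4 * m ^ (9/8 : ℝ)) ^ (2/9 : ℝ) = (4:ℝ) ^ (2/9 : ℝ) * m ^ (1/4 : ℝ) := by
    rw [Real.mul_rpow (by norm_num) (by positivity), ← Real.rpow_mul hm]
    norm_num
  have e2 : u ^ (7/9 : ℝ) = (4:ℝ) ^ (7/9 : ℝ) * (1/4 * u) ^ (7/9 : ℝ) := by
    rw [← Real.mul_rpow (by norm_num) (by positivity)]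
    congr 1; ring
  have e3 : (4:ℝ) ^ (7/9 : ℝ) * (4:ℝ) ^ (2/9 : ℝ) = 4 := by
    rw [← Real.rpow_add (by norm_num)]; norm_num
  have e4 : S ^ (2/9 : ℝ) ≤ (4:ℝ) ^ (2/9 : ℝ) * m ^ (1/4 : ℝ) := by
    rw [← e1]
    exact Real.rpow_le_rpow hS0 hS (by norm_num)
  calc u ^ (7/9 : ℝ) * S ^ (2/9 : ℝ)
      ≤ u ^ (7/9 : ℝ) * ((4:ℝ) ^ (2/9 : ℝ) * m ^ (1/4 : ℝ)) := by
        exact mul_le_mul_of_nonneg_left e4 (Real.rpow_nonneg hu _)
    _ = ((4:ℝ) ^ (7/9 : ℝ) * (4:ℝ) ^ (2/9 : ℝ)) * ((1/4 * u) ^ (7/9 : ℝ) * m ^ (1/4 : ℝ)) := by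
        rw [e2]; ring
    _ = _ := by rw [e3]

/-- **Improved Hoelder inequality.** -/
theorem bq (s : Finset I) : ∀ c c' : Finset I → ℂ,
    ‖ip s c c'‖ ≤ (Av fun w => ‖pv s c' w‖ ^ (9/7 : ℝ)) ^ (7/9 : ℝ) *
      (Av fun w => ‖pv s c w‖ ^ 4) ^ (1/4 : ℝ) := by
  induction s using Finset.induction_on with
  | empty =>
    intro c c'
    have e1 : ∀ c : Finset I → ℂ, ∀ w, pv ∅ c w = c ∅ := by
      intro c w; unfold pv; simp
    have e2 : ip ∅ c c' = c ∅ * conj (c' ∅) := by unfold ip; simp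
    simp_rw [e1]
    rw [Av_const, Av_const, e2, norm_mul, RCLike.norm_conj, ← Real.rpow_mul (norm_nonneg _),
      ← Real.rpow_natCast, ← Real.rpow_mul (norm_nonneg _)]
    norm_num
    rw [mul_comm]
  | insert j s hj ih =>
    intro c c'
    set A := fun w => pv s c w with hA
    set B := fun w => pv s (fun S => c (insert j S)) w with hB
    set C := fun w => pv s c' w with hC
    set D := fun w => pv s (fun S => c' (insert j S)) w with hD
    obtain ⟨V1, V2, hV1, hV1', hV2, hV2', hstep⟩ := one_step A B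
    -- averages
    have hM : Av (fun w => ‖pv (insert j s) c w‖ ^ 4) = m0 A B := by
      have h1 := Av_pv hj c (fun z => ‖z‖ ^ 4)
      rw [h1]
      have h2 := av_one A B
      simp only [hA, hB] at h2 ⊢
      rw [h2]; ring
    have hN : Av (fun w => ‖pv (insert j s) c' w‖ ^ (9/7 : ℝ)) =
        1/4 * ∑ x, Av (fun w => ‖C w + zt x * D w‖ ^ (9/7 : ℝ)) := by
      have h1 := Av_pv hj c' (fun z => ‖z‖ ^ (9/7 : ℝ))
      rw [h1]
    -- decomposition
    have hdec : 4 * ip (insert j s) c c' = ∑ x, ip s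
        (fun S => V1 x * c S + V2 x * c (insert j S))
        (fun S => 1 * c' S + zt x * c' (insert j S)) := by
      have h1 : ∀ x, ip s (fun S => V1 x * c S + V2 x * c (insert j S))
          (fun S => 1 * c' S + zt x * c' (insert j S)) =
          V1 x * ip s c c' + (V1 x * conj (zt x)) * ip s c (fun S => c' (insert j S)) +
          V2 x * ip s (fun S => c (insert j S)) c' +
          (V2 x * conj (zt x)) * ip s (fun S => c (insert j S)) (fun S => c' (insert j S)) :=
        fun x => ip_lin s (V1 x) (V2 x) (zt x) c (fun S => c (insert j S)) c'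
          (fun S => c' (insert j S))
      simp_rw [h1]
      rw [Finset.sum_add_distrib, Finset.sum_add_distrib, Finset.sum_add_distrib,
        ← Finset.sum_mul, ← Finset.sum_mul, ← Finset.sum_mul, ← Finset.sum_mul, hV1, hV1', hV2,
        hV2', ip_insert hj]
      ring
    set H : Bool × Bool → ℝ := fun x => Av (fun w => ‖C w + zt x * D w‖ ^ (9/7 : ℝ)) with hH
    set X : Bool × Bool → ℝ := fun x => Av (fun w => ‖V1 x * A w + V2 x * B w‖ ^ 4) with hX
    have hH0 : ∀ x, 0 ≤ H x := fun x => Av_nonneg fun w => by positivity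
    have hX0 : ∀ x, 0 ≤ X x := fun x => Av_nonneg fun w => by positivity
    have hterm : ∀ x, ‖ip s (fun S => V1 x * c S + V2 x * c (insert j S))
        (fun S => 1 * c' S + zt x * c' (insert j S))‖ ≤ H x ^ (7/9 : ℝ) * X x ^ (1/4 : ℝ) := by
      intro x
      have h1 := ih (fun S => V1 x * c S + V2 x * c (insert j S))
        (fun S => 1 * c' S + zt x * c' (insert j S))
      simp_rw [pv_lin] at h1
      simp_rw [one_mul] at h1 ⊢
      exact h1
    have hhol : ∑ x, H x ^ (7/9 : ℝ) * X x ^ (1/4 : ℝ) ≤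
        (∑ x, H x) ^ (7/9 : ℝ) * (∑ x, X x ^ (9/8 : ℝ)) ^ (2/9 : ℝ) := by
      have hpq : (9/7 : ℝ).HolderConjugate (9/2) := by
        rw [Real.holderConjugate_iff]; norm_num
      have h := Real.inner_le_Lp_mul_Lq Finset.univ (fun x => H x ^ (7/9 : ℝ))
        (fun x => X x ^ (1/4 : ℝ)) hpq
      have e1 : ∀ x, |H x ^ (7/9 : ℝ)| ^ (9/7 : ℝ) = H x := by
        intro x
        rw [abs_of_nonneg (Real.rpow_nonneg (hH0 x) _), ← Real.rpow_mul (hH0 x)]
        norm_num
      have e2 : ∀ x, |X x ^ (1/4 : ℝ)| ^ (9/2 : ℝ) = X x ^ (9/8 : ℝ) := by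
        intro x
        rw [abs_of_nonneg (Real.rpow_nonneg (hX0 x) _), ← Real.rpow_mul (hX0 x)]
        norm_num
      simp only [e1, e2] at h
      have e3 : (1 / (9/7) : ℝ) = 7/9 := by norm_num
      have e4 : (1 / (9/2) : ℝ) = 2/9 := by norm_num
      rw [e3, e4] at h
      exact h
    have hm0 : 0 ≤ m0 A B := by rw [← hM]; exact Av_nonneg fun w => by positivity
    have hSH : 0 ≤ ∑ x, H x := Finset.sum_nonneg fun x _ => hH0 x
    have h5 : 0 ≤ ∑ x, X x ^ (9/8 : ℝ) :=
      Finset.sum_nonneg fun x _ => Real.rpow_nonneg (hX0 x) _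
    have h6 := fin_aux hSH hm0 h5 hstep
    have h7 : 4 * ‖ip (insert j s) c c'‖ ≤ ∑ x, H x ^ (7/9 : ℝ) * X x ^ (1/4 : ℝ) := by
      have h8 : 4 * ‖ip (insert j s) c c'‖ = ‖4 * ip (insert j s) c c'‖ := by
        rw [norm_mul]; norm_num
      rw [h8, hdec]
      exact (norm_sum_le _ _).trans (Finset.sum_le_sum fun x _ => hterm x)
    have h9 := (h7.trans hhol).trans h6
    rw [hM, hN]
    linarith

end Pool.Agent.PLH
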