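import Mathlib

/-!
Abstract end: a function which is correlated with a function whose influences satisfy power sum
bounds has a large influence.
-/

set_option autoImplicit false

namespace Pool.Agent.PLH

open Finset

/-- Power sums: from the inequality for each index to the sum, when the `t j` are small. -/
theorem small_sum {ι : Type*} (K : Finset ι) (w b t : ι → ℝ)
    (_hw : ∀ j ∈ K, 0 ≤ w j) (hb : ∀ j ∈ K, 0 ≤ b j) (ht : ∀ j ∈ K, 0 ≤ t j)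
    (hold : K.Nonempty → ∃ j ∈ K,
      (∑ i ∈ K, w i) ^ 37 ≤ (∑ i ∈ K, b i) ^ 20 * (∑ i ∈ K, t i) ^ 17 * t j)
    {B D τ : ℝ} (hτ : 0 ≤ τ) (hB : ∑ j ∈ K, b j ≤ B) (hD : ∑ j ∈ K, t j ≤ D)
    (hs : ∀ j ∈ K, t j ≤ τ) : (∑ i ∈ K, w i) ^ 37 ≤ B ^ 20 * D ^ 17 * τ := by
  have hb' : 0 ≤ ∑ i ∈ K, b i := sum_nonneg hb
  have ht' : 0 ≤ ∑ i ∈ K, t i := sum_nonneg ht
  have hB0 : 0 ≤ B := hb'.trans hB
  have hD0 : 0 ≤ D := ht'.trans hD
  rcases K.eq_empty_or_nonempty with hK | hK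
  · rw [hK]
    simp only [sum_empty, ne_eq, OfNat.ofNat_ne_zero, not_false_eq_true, zero_pow]
    positivity
  · obtain ⟨j, hj, h⟩ := hold hK
    refine h.trans ?_
    have h1 : (∑ i ∈ K, b i) ^ 20 ≤ B ^ 20 := pow_le_pow_left₀ hb' hB 20
    have h2 : (∑ i ∈ K, t i) ^ 17 ≤ D ^ 17 := pow_le_pow_left₀ ht' hD 17
    have h3 := hs j hj
    have h4 := ht j hj
    gcongr

/-- **The end.** -/
theorem corr {ι α : Type*} [Fintype α] [DecidableEq ι] [DecidableEq α] (J : Finset ι)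
    (hJ : J.Nonempty) (met : Finset ι → Finset α) (hmet : ∀ L ⊆ J, met J ⊆ met L ∪ met (J \ L))
    (a f ω : α → ℝ) (hω0 : ∀ W, 0 ≤ ω W) (hω1 : ∀ W, ω W ≤ 1) (ha : ∑ W, a W ^ 2 ≤ 1)
    (hf : ∑ W, f W ^ 2 ≤ 1) (b t T φ : ι → ℝ) (hb0 : ∀ j ∈ J, 0 ≤ b j) (ht0 : ∀ j ∈ J, 0 ≤ t j)
    (hT0 : ∀ j ∈ J, 0 ≤ T j) (hφ0 : ∀ j ∈ J, 0 ≤ φ j)
    (hT : ∀ K ⊆ J, ∑ W ∈ met K, (ω W * a W) ^ 2 ≤ ∑ j ∈ K, T j)
    (hφ : ∀ K ⊆ J, ∑ W ∈ met K, f W ^ 2 ≤ ∑ j ∈ K, φ j)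
    (hold : ∀ K ⊆ J, K.Nonempty → ∃ j ∈ K,
      (∑ i ∈ K, T i) ^ 37 ≤ (∑ i ∈ K, b i) ^ 20 * (∑ i ∈ K, t i) ^ 17 * t j)
    {B D : ℝ} (hB : ∑ j ∈ J, b j ≤ B) (hD : ∑ j ∈ J, t j ≤ D)
    {C : ℝ} (hC : C = ∑ W ∈ met J, ω W * |a W * f W|) :
    ∃ j ∈ J, (C / 2) ^ 76 ≤ B ^ 20 * D ^ 18 * φ j := by
  have hB0 : 0 ≤ B := (sum_nonneg hb0).trans hB
  have hD0 : 0 ≤ D := (sum_nonneg ht0).trans hD
  have hC0 : 0 ≤ C := by
    rw [hC]; exact sum_nonneg fun W _ => mul_nonneg (hω0 W) (abs_nonneg _)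
  obtain ⟨j0, hj0, hmax⟩ := J.exists_max_image φ hJ
  refine ⟨j0, hj0, ?_⟩
  have hM0 : 0 ≤ φ j0 := hφ0 j0 hj0
  rcases hC0.eq_or_lt with hCz | hCpos
  · rw [← hCz]
    simp only [zero_div, ne_eq, OfNat.ofNat_ne_zero, not_false_eq_true, zero_pow]
    positivity
  by_contra hcon
  push Not at hcon
  set M := φ j0 with hM
  have hC2 : 0 < C / 2 := by positivity
  -- the threshold
  obtain ⟨τ, hτ1, hτ2⟩ : ∃ τ, D * M / (C / 2) ^ 2 < τ ∧ B ^ 20 * D ^ 17 * τ < (C / 2) ^ 74 := by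
    have hK0 : 0 ≤ B ^ 20 * D ^ 17 := by positivity
    rcases hK0.eq_or_lt with h | h
    · refine ⟨D * M / (C / 2) ^ 2 + 1, by linarith, ?_⟩
      rw [← h, zero_mul]; positivity
    · have h1 : D * M / (C / 2) ^ 2 < (C / 2) ^ 74 / (B ^ 20 * D ^ 17) := by
        rw [div_lt_div_iff₀ (by positivity) h]
        calc D * M * (B ^ 20 * D ^ 17) = B ^ 20 * D ^ 18 * M := by ring
          _ < (C / 2) ^ 76 := hcon
          _ = (C / 2) ^ 74 * (C / 2) ^ 2 := by ring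
      obtain ⟨τ, h2, h3⟩ := exists_between h1
      refine ⟨τ, h2, ?_⟩
      rw [lt_div_iff₀ h] at h3
      linarith
  have hτ0 : 0 < τ := lt_of_le_of_lt (by positivity) hτ1
  set L : Finset ι := J.filter (fun j => τ ≤ t j) with hL
  have hLJ : L ⊆ J := filter_subset _ _
  have hJL : J \ L ⊆ J := sdiff_subset
  have hcard : (L.card : ℝ) * τ ≤ D := by
    calc (L.card : ℝ) * τ = ∑ j ∈ L, τ := by rw [sum_const, nsmul_eq_mul]
      _ ≤ ∑ j ∈ L, t j := sum_le_sum fun j hj => (mem_filter.mp hj).2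
      _ ≤ ∑ j ∈ J, t j := sum_le_sum_of_subset_of_nonneg hLJ fun j hj _ => ht0 j hj
      _ ≤ D := hD
  -- the part which meets L
  have hpartL : ∑ j ∈ L, φ j < (C / 2) ^ 2 := by
    have h1 : ∑ j ∈ L, φ j ≤ L.card * M := by
      calc ∑ j ∈ L, φ j ≤ ∑ j ∈ L, M := sum_le_sum fun j hj => hmax j (hLJ hj)
        _ = L.card * M := by rw [sum_const, nsmul_eq_mul]
    have h2 : (L.card : ℝ) * M * τ ≤ D * M := by
      calc (L.card : ℝ) * M * τ = (L.card : ℝ) * τ * M := by ring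
        _ ≤ D * M := mul_le_mul_of_nonneg_right hcard hM0
    have h3 : D * M < τ * (C / 2) ^ 2 := by
      rwa [div_lt_iff₀ (by positivity)] at hτ1
    have h4 : (∑ j ∈ L, φ j) * τ < (C / 2) ^ 2 * τ := by
      calc (∑ j ∈ L, φ j) * τ ≤ L.card * M * τ := mul_le_mul_of_nonneg_right h1 hτ0.le
        _ ≤ D * M := h2
        _ < τ * (C / 2) ^ 2 := h3
        _ = (C / 2) ^ 2 * τ := by ring
    exact lt_of_mul_lt_mul_right h4 hτ0.le
  -- the other part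
  have hpartR : ∑ j ∈ J \ L, T j < (C / 2) ^ 2 := by
    have h1 := small_sum (J \ L) T b t (fun j hj => hT0 j (hJL hj)) (fun j hj => hb0 j (hJL hj))
      (fun j hj => ht0 j (hJL hj)) (hold _ hJL) (B := B) (D := D) (τ := τ) hτ0.le
      ((sum_le_sum_of_subset_of_nonneg hJL fun j hj _ => hb0 j hj).trans hB)
      ((sum_le_sum_of_subset_of_nonneg hJL fun j hj _ => ht0 j hj).trans hD) (by
        intro j hj
        rw [mem_sdiff, hL, mem_filter, not_and, not_le] at hj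
        exact (hj.2 hj.1).le)
    have h2 : (∑ j ∈ J \ L, T j) ^ 37 < ((C / 2) ^ 2) ^ 37 := by
      calc (∑ j ∈ J \ L, T j) ^ 37 ≤ B ^ 20 * D ^ 17 * τ := h1
        _ < (C / 2) ^ 74 := hτ2
        _ = ((C / 2) ^ 2) ^ 37 := by rw [← pow_mul]
    exact lt_of_pow_lt_pow_left₀ 37 (by positivity) h2
  have hsf : ∀ s : Finset α, ∑ W ∈ s, f W ^ 2 ≤ 1 := fun s =>
    (sum_le_sum_of_subset_of_nonneg (subset_univ s) fun W _ _ => by positivity).trans hf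
  have hsa : ∀ s : Finset α, ∑ W ∈ s, (ω W * a W) ^ 2 ≤ 1 := fun s => by
    refine le_trans (sum_le_sum fun W _ => ?_)
      ((sum_le_sum_of_subset_of_nonneg (subset_univ s) fun W _ _ => by positivity).trans ha)
    rw [mul_pow]
    exact mul_le_of_le_one_left (by positivity) (pow_le_one₀ (hω0 W) (hω1 W))
  have hcs : ∀ s : Finset α, ∑ W ∈ s, ω W * |a W * f W| ≤
      √(∑ W ∈ s, (ω W * a W) ^ 2) * √(∑ W ∈ s, f W ^ 2) := by
    intro s
    have h1 := Real.sum_mul_le_sqrt_mul_sqrt s (fun W => |ω W * a W|) (fun W => |f W|)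
    simp only [sq_abs] at h1
    refine le_trans (le_of_eq ?_) h1
    refine sum_congr rfl fun W _ => ?_
    rw [abs_mul, abs_mul, abs_of_nonneg (hω0 W)]
    ring
  have h1 : C ≤ ∑ W ∈ met L, ω W * |a W * f W| + ∑ W ∈ met (J \ L), ω W * |a W * f W| := by
    rw [hC]
    have hnn : ∀ W, 0 ≤ ω W * |a W * f W| := fun W => mul_nonneg (hω0 W) (abs_nonneg _)
    calc ∑ W ∈ met J, ω W * |a W * f W| ≤ ∑ W ∈ met L ∪ met (J \ L), ω W * |a W * f W| :=
          sum_le_sum_of_subset_of_nonneg (hmet L hLJ) fun W _ _ => hnn W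
      _ ≤ _ := by
          rw [← sum_union_inter]
          exact le_add_of_nonneg_right (sum_nonneg fun W _ => hnn W)
  have h2 : ∑ W ∈ met L, ω W * |a W * f W| < C / 2 := by
    calc ∑ W ∈ met L, ω W * |a W * f W|
        ≤ √(∑ W ∈ met L, (ω W * a W) ^ 2) * √(∑ W ∈ met L, f W ^ 2) := hcs _
      _ ≤ 1 * √(∑ W ∈ met L, f W ^ 2) := by
          gcongr
          rw [Real.sqrt_le_one]
          exact hsa _
      _ = √(∑ W ∈ met L, f W ^ 2) := one_mul _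
      _ < √((C / 2) ^ 2) := by
          apply Real.sqrt_lt_sqrt (sum_nonneg fun W _ => by positivity)
          exact lt_of_le_of_lt (hφ L hLJ) hpartL
      _ = C / 2 := Real.sqrt_sq hC2.le
  have h3 : ∑ W ∈ met (J \ L), ω W * |a W * f W| < C / 2 := by
    calc ∑ W ∈ met (J \ L), ω W * |a W * f W|
        ≤ √(∑ W ∈ met (J \ L), (ω W * a W) ^ 2) * √(∑ W ∈ met (J \ L), f W ^ 2) := hcs _
      _ ≤ √(∑ W ∈ met (J \ L), (ω W * a W) ^ 2) * 1 := by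
          gcongr
          rw [Real.sqrt_le_one]
          exact hsf _
      _ = √(∑ W ∈ met (J \ L), (ω W * a W) ^ 2) := mul_one _
      _ < √((C / 2) ^ 2) := by
          apply Real.sqrt_lt_sqrt (sum_nonneg fun W _ => by positivity)
          exact lt_of_le_of_lt (hT (J \ L) hJL) hpartR
      _ = C / 2 := Real.sqrt_sq hC2.le
  linarith

end Pool.Agent.PLH
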