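import Pool.Agent.Lib_helper31.GPL.App
import Pool.Agent.Lib_helper84.PLH.Corr

/-!
Functions which are correlated with a bounded function which is pluriharmonic in groups of
variables have an influential variable.
-/

set_option autoImplicit false

namespace Pool.Agent.PLH

open Finset Pool.Agent.Lib_helper30.AA Pool.Agent.Lib_helper14.AAQ Pool.Agent.Lib_helper4.PluriG
  Pool.Agent.Lib_helper31.GPL

theorem cstar (n m : ℕ) (g : Fin n → Fin m) (c : (Fin m → Bool) → Finset (Fin n) → ℂ)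
    (h f : (Fin n ⊕ Fin n → Bool) → ℝ)
    (hh : ∀ v, h v = (∑ u, ∑ S, c u S * ∏ i ∈ S, ((-1) ^ (v (Sum.inl i)).toNat +
      (-1) ^ (u (g i)).toNat * (-1) ^ (v (Sum.inr i)).toNat * Complex.I)).re)
    (hbd : ∀ v, |h v| ≤ 1) (hf : ((2 : ℝ) ^ (2 * n))⁻¹ * ∑ v, f v ^ 2 ≤ 1)
    (hc fc : Finset (Fin n ⊕ Fin n) → ℝ)
    (hhc : ∀ W, hc W = ((2 : ℝ) ^ (2 * n))⁻¹ * ∑ v, h v * ∏ k ∈ W, (-1 : ℝ) ^ (v k).toNat)
    (hfc : ∀ W, fc W = ((2 : ℝ) ^ (2 * n))⁻¹ * ∑ v, f v * ∏ k ∈ W, (-1 : ℝ) ^ (v k).toNat)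
    (J : Finset (Fin n)) (hJ : J.Nonempty) (d : ℕ)
    (hdeg : ∀ W, hc W ≠ 0 → (W ∩ J.disjSum J).card ≤ d)
    (Inf : Fin n ⊕ Fin n → ℝ)
    (hInf : ∀ k, Inf k = ((2 : ℝ) ^ (2 * n))⁻¹ * ∑ v, ((f v - f (Function.update v k (!v k))) / 2) ^ 2)
    (C : ℝ)
    (hC : C = ∑ W with (W ∩ J.disjSum J).Nonempty,
      |hc W * fc W| / 64 ^ ((W.image (Sum.elim g g)).card - 1)) :
    ∃ j ∈ J, C ^ 76 ≤ 2 ^ 96 * (d : ℝ) ^ 58 * (Inf (Sum.inl j) + Inf (Sum.inr j)) := by
  have hF : h = F g c := by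
    funext v
    rw [hh]
    unfold F HH
    congr 1
    refine Finset.sum_congr rfl fun u _ => Finset.sum_congr rfl fun S _ => ?_
    congr 1
    refine Finset.prod_congr rfl fun i _ => ?_
    unfold pt e
    push_cast
    rfl
  subst hF
  have hcoef : ∀ W : Finset (Fin n ⊕ Fin n), hc W = coef (F g c) W := fun W => by
    rw [hhc]
    unfold coef chi
    rw [Pool.Agent.Lib_helper4.Pluri.two_pow_card]
  have fcoef : ∀ W : Finset (Fin n ⊕ Fin n), fc W = coef f W := fun W => by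
    rw [hfc]
    unfold coef chi
    rw [Pool.Agent.Lib_helper4.Pluri.two_pow_card]
  have hdeg' : ∀ W, coef (F g c) W ≠ 0 → (W ∩ J.disjSum J).card ≤ d := fun W hW =>
    hdeg W (by rw [hcoef]; exact hW)
  have hInf' : ∀ k, Inf k =
      ∑ W ∈ (univ : Finset (Finset (Fin n ⊕ Fin n))).filter (fun W => k ∈ W),
        coef f W ^ 2 := by
    intro k
    rw [hInf, ← influence_eq, Pool.Agent.Lib_helper4.Pluri.two_pow_card]
  have hInf0 : ∀ k, 0 ≤ Inf k := fun k => by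
    rw [hInf' k]; exact Finset.sum_nonneg fun W _ => sq_nonneg _
  have ha : ∑ W, coef (F g c) W ^ 2 ≤ 1 := by
    rw [parseval_sq]
    rw [inv_mul_le_iff₀ (by positivity), mul_one]
    refine (Finset.sum_le_sum fun x _ => (sq_le_one_iff_abs_le_one _).mpr (hbd x)).trans
      (le_of_eq ?_)
    simp
  have hf' : ∑ W, coef f W ^ 2 ≤ 1 := by
    rw [parseval_sq, Pool.Agent.Lib_helper4.Pluri.two_pow_card]
    exact hf
  have key := corr J hJ
    (fun K => (univ : Finset (Finset (Fin n ⊕ Fin n))).filter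
      (fun W => (W ∩ K.disjSum K).Nonempty))
    (by
      intro L hL W hW
      rw [mem_filter] at hW
      obtain ⟨-, k, hk⟩ := hW
      rw [mem_inter] at hk
      rw [mem_union, mem_filter, mem_filter]
      rcases k with j | j
      · have hj : j ∈ J := by simpa using hk.2
        by_cases hjL : j ∈ L
        · exact Or.inl ⟨mem_univ _, Sum.inl j, mem_inter.mpr ⟨hk.1, by simpa using hjL⟩⟩
        · exact Or.inr ⟨mem_univ _, Sum.inl j, mem_inter.mpr ⟨hk.1, by simp [hj, hjL]⟩⟩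
      · have hj : j ∈ J := by simpa using hk.2
        by_cases hjL : j ∈ L
        · exact Or.inl ⟨mem_univ _, Sum.inr j, mem_inter.mpr ⟨hk.1, by simpa using hjL⟩⟩
        · exact Or.inr ⟨mem_univ _, Sum.inr j, mem_inter.mpr ⟨hk.1, by simp [hj, hjL]⟩⟩)
    (coef (F g c)) (coef f) (fun W => (1/64 : ℝ) ^ ((W.image (Sum.elim g g)).card - 1))
    (fun W => by positivity) (fun W => pow_le_one₀ (by norm_num) (by norm_num)) ha hf'
    (fun j => ((2 : ℝ) ^ (2 * n))⁻¹ * ∑ v, ‖HH g (dj g c j) v‖) (th g c) (th g (damp g c))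
    (fun j => Inf (Sum.inl j) + Inf (Sum.inr j))
    (fun j _ => by positivity) (fun j _ => th_nonneg _ _ j) (fun j _ => th_nonneg _ _ j)
    (fun j _ => add_nonneg (hInf0 _) (hInf0 _))
    (by
      intro K _
      rw [th_eq_coef]
      refine le_trans (le_of_eq ?_) (Pool.Agent.Lib_helper4.Pluri.weight_le_inf _ _)
      refine Finset.sum_congr rfl fun W _ => ?_
      rw [coef_damp])
    (by
      intro K _
      refine (Pool.Agent.Lib_helper4.Pluri.weight_le_inf f (K.disjSum K)).trans (le_of_eq ?_)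
      simp_rw [← hInf']
      rw [Finset.sum_disjSum, ← Finset.sum_add_distrib])
    (by
      intro K _ hK
      exact hold37 hK (th g (damp g c))
        (fun j => ((2 : ℝ) ^ (2 * n))⁻¹ * ∑ v, ‖HH g (dj g c j) v‖) (th g c)
        (fun j => th_nonneg _ _ j) (fun j => by positivity) (fun j => th_nonneg _ _ j)
        (fun j _ => th_damp_le hbd j) le_rfl le_rfl)
    (sum_one_le hbd hdeg') (sum_th_le hbd hdeg') (C := C) (by
      rw [hC]
      refine Finset.sum_congr rfl fun W _ => ?_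
      rw [hcoef, fcoef, div_eq_inv_mul, ← inv_pow]
      norm_num)
  obtain ⟨j, hj, h1⟩ := key
  refine ⟨j, hj, ?_⟩
  have h2 : C ^ 76 = 2 ^ 76 * (C / 2) ^ 76 := by
    rw [div_pow, mul_div_cancel₀]
    positivity
  rw [h2]
  calc (2:ℝ) ^ 76 * (C / 2) ^ 76 ≤ 2 ^ 76 * ((2 * (d:ℝ) ^ 2) ^ 20 * (d:ℝ) ^ 18 *
        (Inf (Sum.inl j) + Inf (Sum.inr j))) := mul_le_mul_of_nonneg_left h1 (by positivity)
    _ = 2 ^ 96 * (d : ℝ) ^ 58 * (Inf (Sum.inl j) + Inf (Sum.inr j)) := by ring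

end Pool.Agent.PLH
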