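import Pool.Agent.Lib_helper84.PLH.Semi
import Pool.Agent.Lib_helper80.PLH.Fourp
import Pool.Agent.Lib_helper80.PLH.Alg4
import Pool.Agent.Lib_helper25.PLH.Ptp

/-!
Discrete pluriharmonic functions: passing to the analytic part in one group of variables, with a
factor `1/32`, is a contraction.
-/

namespace Pool.Agent.PLH

open Complex ComplexConjugate

variable {I : Type*} [Fintype I] [DecidableEq I]

lemma Av_sub (F G : (I → Bool × Bool) → ℝ) : Av (fun w => F w - G w) = Av F - Av G := by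
  have h := Av_add F (fun w => (-1) * G w)
  rw [Av_mul] at h
  have e : (fun w => F w - G w) = fun w => F w + (-1) * G w := by funext w; ring
  rw [e, h]; ring

/-- data of one group: `c` constant in the group, `a` analytic, `b` antianalytic, mean zero -/
structure Grp (l : List I) (c a b : (I → Bool × Bool) → ℂ) : Prop where
  hc : ∀ j ∈ l, ∀ w x, c (Function.update w j x) = c w
  ha : ∀ j ∈ l, An j a
  hb : ∀ j ∈ l, An j (fun w => conj (b w))
  ha0 : ∀ w, avL l a w = 0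
  hb0 : ∀ w, avL l (fun w => conj (b w)) w = 0

/-- exponent `9/7` -/
theorem contr97 {l : List I} {c a b : (I → Bool × Bool) → ℂ} (h : Grp l c a b) :
    1/2 * Av (fun w => ‖c w + (1/32) * a w‖ ^ (9/7 : ℝ)) +
      1/2 * Av (fun w => ‖c w + (1/32) * b w‖ ^ (9/7 : ℝ)) ≤
    Av (fun w => ‖c w + a w + b w‖ ^ (9/7 : ℝ)) := by
  -- the superharmonic function
  have h1 := chain l (fun w α β => (‖c w‖^2 + ‖α‖^2 + ‖β‖^2) ^ (9/14 : ℝ)
      - 21 * ‖c w + α + conj β‖ ^ (9/7 : ℝ)) (fun j hj w x => by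
        funext α β; rw [h.hc j hj]) (fun w α β A B => fourp (c w) α β A B) a
      (fun w => conj (b w)) h.ha h.hb
  simp_rw [h.ha0, h.hb0, Complex.conj_conj, map_zero, norm_zero, add_zero] at h1
  have e0 : ∀ z : ℂ, (‖z‖^2 + 0^2 + 0^2) ^ (9/14 : ℝ) = ‖z‖ ^ (9/7 : ℝ) := by
    intro z
    rw [show ‖z‖^2 + 0^2 + (0:ℝ)^2 = ‖z‖^2 by ring, ← Real.rpow_natCast,
      ← Real.rpow_mul (norm_nonneg _)]
    norm_num
  simp_rw [e0, RCLike.norm_conj] at h1
  rw [Av_sub, Av_sub, Av_mul, Av_mul] at h1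
  -- pointwise
  have h2 : ∀ w, 1/2 * ‖c w + (1/32) * a w‖ ^ (9/7 : ℝ) + 1/2 * ‖c w + (1/32) * b w‖ ^ (9/7 : ℝ) ≤
      (‖c w‖ ^ (9/7 : ℝ) + (1/21) * ((‖c w‖^2 + ‖a w‖^2 + ‖b w‖^2) ^ (9/14 : ℝ)
        - ‖c w‖ ^ (9/7 : ℝ))) +
      (((((9/448) * ‖c w‖ ^ (-(5/7) : ℝ) : ℝ) : ℂ) * conj (c w)) * a w).re +
      (((((9/448) * ‖c w‖ ^ (-(5/7) : ℝ) : ℝ) : ℂ) * c w) * conj (b w)).re := by
    intro w
    have p1 := ptp (c w) (a w)
    have p2 := ptp (c w) (b w)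
    have m1 : (‖c w‖^2 + ‖a w‖^2) ^ (9/14 : ℝ) ≤ (‖c w‖^2 + ‖a w‖^2 + ‖b w‖^2) ^ (9/14 : ℝ) := by
      apply Real.rpow_le_rpow (by positivity) _ (by norm_num)
      nlinarith [sq_nonneg ‖b w‖]
    have m2 : (‖c w‖^2 + ‖b w‖^2) ^ (9/14 : ℝ) ≤ (‖c w‖^2 + ‖a w‖^2 + ‖b w‖^2) ^ (9/14 : ℝ) := by
      apply Real.rpow_le_rpow (by positivity) _ (by norm_num)
      nlinarith [sq_nonneg ‖a w‖]
    have r1 : (conj (c w) * ((1/32) * a w)).re = (1/32) * (conj (c w) * a w).re := by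
      rw [show conj (c w) * ((1/32) * a w) = ((1/32 : ℝ) : ℂ) * (conj (c w) * a w) by
        push_cast; ring, Complex.re_ofReal_mul]
    have r2 : (conj (c w) * ((1/32) * b w)).re = (1/32) * (c w * conj (b w)).re := by
      rw [show conj (c w) * ((1/32) * b w) = ((1/32 : ℝ) : ℂ) * conj (c w * conj (b w)) by
        rw [map_mul, Complex.conj_conj]; push_cast; ring, Complex.re_ofReal_mul, Complex.conj_re]
    rw [r1] at p1
    rw [r2] at p2
    rw [mul_assoc (((9/448) * ‖c w‖ ^ (-(5/7) : ℝ) : ℝ) : ℂ) (conj (c w)) (a w),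
      mul_assoc (((9/448) * ‖c w‖ ^ (-(5/7) : ℝ) : ℝ) : ℂ) (c w) (conj (b w)),
      Complex.re_ofReal_mul, Complex.re_ofReal_mul]
    linarith
  have h3 : Av (fun w => 1/2 * ‖c w + (1/32) * a w‖ ^ (9/7 : ℝ) +
      1/2 * ‖c w + (1/32) * b w‖ ^ (9/7 : ℝ)) ≤ _ := Av_mono h2
  rw [Av_add, Av_add, Av_add, Av_add, Av_mul, Av_mul, Av_mul, Av_sub] at h3
  have z1 := av_lin l (fun w => (((9/448) * ‖c w‖ ^ (-(5/7) : ℝ) : ℝ) : ℂ) * conj (c w)) a
    (fun j hj w x => by rw [h.hc j hj]) h.ha h.ha0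
  have z2 := av_lin l (fun w => (((9/448) * ‖c w‖ ^ (-(5/7) : ℝ) : ℝ) : ℂ) * c w)
    (fun w => conj (b w)) (fun j hj w x => by rw [h.hc j hj]) h.hb h.hb0
  rw [z1, z2] at h3
  linarith

/-- orthogonality -/
theorem orth2 {l : List I} {c a b : (I → Bool × Bool) → ℂ} (h : Grp l c a b)
    (u : (I → Bool × Bool) → ℝ) (hu : ∀ j ∈ l, ∀ w x, u (Function.update w j x) = u w) :
    Av (fun w => u w * ‖a w + b w‖^2) =
      Av (fun w => u w * ‖a w‖^2) + Av (fun w => u w * ‖b w‖^2) := by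
  have e1 : ∀ w, u w * ‖a w + b w‖^2 = (u w * ‖a w‖^2 + u w * ‖b w‖^2) +
      2 * (u w * (a w * conj (b w)).re) := by
    intro w
    have : ‖a w + b w‖^2 = ‖a w‖^2 + ‖b w‖^2 + 2 * (a w * conj (b w)).re := by
      rw [← Complex.normSq_eq_norm_sq, Complex.normSq_add, Complex.normSq_eq_norm_sq,
        Complex.normSq_eq_norm_sq]
    rw [this]; ring
  simp_rw [e1]
  rw [Av_add, Av_add, Av_mul, av_prod l u a (fun w => conj (b w)) hu h.ha h.hb h.ha0]
  ring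

/-- exponent `4` -/
theorem contr4 {l : List I} {c a b : (I → Bool × Bool) → ℂ} (h : Grp l c a b) :
    1/2 * Av (fun w => ‖c w + (1/32) * a w‖ ^ 4) + 1/2 * Av (fun w => ‖c w + (1/32) * b w‖ ^ 4) ≤
    Av (fun w => ‖c w + a w + b w‖ ^ 4) := by
  -- Riesz projection in L4
  have h1 := chain l (fun _ α β => -(2 * ‖α + conj β‖^4 - 8 * (α^2 * β^2).re))
    (fun j hj w x => rfl) (fun w α β A B => by
      have := r4 α β A B
      rw [Finset.sum_neg_distrib]; linarith) a (fun w => conj (b w)) h.ha h.hb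
  simp_rw [h.ha0, h.hb0, Complex.conj_conj, map_zero] at h1
  have e0 : -(2 * ‖(0:ℂ) + 0‖^4 - 8 * ((0:ℂ)^2 * 0^2).re) = 0 := by simp
  simp_rw [e0] at h1
  have h1' : 8 * Av (fun w => (a w ^ 2 * conj (b w) ^ 2).re) ≤ 2 * Av (fun w => ‖a w + b w‖^4) := by
    have e1 : (fun w => -(2 * ‖a w + b w‖^4 - 8 * (a w^2 * (conj (b w))^2).re)) =
        fun w => 8 * (a w^2 * (conj (b w))^2).re - 2 * ‖a w + b w‖^4 := by funext w; ring
    rw [e1, Av_sub, Av_mul, Av_mul] at h1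
    have : Av (fun _ : I → Bool × Bool => (0:ℝ)) = 0 := by unfold Av; simp
    linarith
  have h2 : Av (fun w => (‖a w‖^2 + ‖b w‖^2)^2) ≤ 14 * Av (fun w => ‖a w + b w‖^4) := by
    have m : Av (fun w => (‖a w‖^2 + ‖b w‖^2)^2) ≤
        Av (fun w => 12 * ‖a w + b w‖^4 + 8 * (a w ^ 2 * conj (b w) ^ 2).re) :=
      Av_mono (fun w => by
        have := p4 (a w) (conj (b w))
        rw [RCLike.norm_conj, Complex.conj_conj] at this
        exact this)
    rw [Av_add, Av_mul, Av_mul] at m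
    linarith
  -- lower bound
  have h3 : Av (fun w => ((‖c w‖^4 + (((4 * ‖c w‖^2 : ℝ) : ℂ) * conj (c w) * a w).re) +
      ((((4 * ‖c w‖^2 : ℝ) : ℂ) * c w) * conj (b w)).re) + ‖c w‖^2 * ‖a w + b w‖^2
        + 1/5 * ‖a w + b w‖^4) ≤ Av (fun w => ‖c w + a w + b w‖ ^ 4) := Av_mono (fun w => by
    have h := lo4 (c w) (a w + b w)
    rw [← add_assoc] at h
    have e : (conj (c w) * (a w + b w)).re = (conj (c w) * a w).re + (c w * conj (b w)).re := by
      rw [mul_add, Complex.add_re]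
      congr 1
      rw [← Complex.conj_re, map_mul, Complex.conj_conj]
    rw [mul_assoc, mul_assoc, Complex.re_ofReal_mul, Complex.re_ofReal_mul]
    rw [e] at h
    linarith)
  have h4 : Av (fun w => 1/2 * ‖c w + (1/32) * a w‖ ^ 4 + 1/2 * ‖c w + (1/32) * b w‖ ^ 4) ≤
      Av (fun w => ((‖c w‖^4 + (((1/16 * ‖c w‖^2 : ℝ) : ℂ) * conj (c w) * a w).re) +
      ((((1/16 * ‖c w‖^2 : ℝ) : ℂ) * c w) * conj (b w)).re) +
      (4/1024) * (‖c w‖^2 * ‖a w‖^2) + (4/1024) * (‖c w‖^2 * ‖b w‖^2)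
        + 3/2 * (1/32)^4 * (‖a w‖^2 + ‖b w‖^2)^2) := Av_mono (fun w => by
    have p1 := up4 (c w) ((1/32) * a w)
    have p2 := up4 (c w) ((1/32) * b w)
    have n1 : ‖(1/32) * a w‖ = 1/32 * ‖a w‖ := by
      rw [norm_mul]; norm_num
    have n2 : ‖(1/32) * b w‖ = 1/32 * ‖b w‖ := by
      rw [norm_mul]; norm_num
    have r1 : (conj (c w) * ((1/32) * a w)).re = (1/32) * (conj (c w) * a w).re := by
      rw [show conj (c w) * ((1/32) * a w) = ((1/32 : ℝ) : ℂ) * (conj (c w) * a w) by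
        push_cast; ring, Complex.re_ofReal_mul]
    have r2 : (conj (c w) * ((1/32) * b w)).re = (1/32) * (c w * conj (b w)).re := by
      rw [show conj (c w) * ((1/32) * b w) = ((1/32 : ℝ) : ℂ) * conj (c w * conj (b w)) by
        rw [map_mul, Complex.conj_conj]; push_cast; ring, Complex.re_ofReal_mul, Complex.conj_re]
    rw [n1, r1] at p1
    rw [n2, r2] at p2
    rw [mul_assoc, mul_assoc, Complex.re_ofReal_mul, Complex.re_ofReal_mul]
    have q1 : 0 ≤ ‖a w‖^2 * ‖b w‖^2 := by positivity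
    nlinarith [p1, p2, q1])
  have z1 := av_lin l (fun w => ((4 * ‖c w‖^2 : ℝ) : ℂ) * conj (c w)) a
    (fun j hj w x => by rw [h.hc j hj]) h.ha h.ha0
  have z2 := av_lin l (fun w => ((4 * ‖c w‖^2 : ℝ) : ℂ) * c w)
    (fun w => conj (b w)) (fun j hj w x => by rw [h.hc j hj]) h.hb h.hb0
  have z3 := av_lin l (fun w => ((1/16 * ‖c w‖^2 : ℝ) : ℂ) * conj (c w)) a
    (fun j hj w x => by rw [h.hc j hj]) h.ha h.ha0
  have z4 := av_lin l (fun w => ((1/16 * ‖c w‖^2 : ℝ) : ℂ) * c w)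
    (fun w => conj (b w)) (fun j hj w x => by rw [h.hc j hj]) h.hb h.hb0
  have o := orth2 h (fun w => ‖c w‖^2) (fun j hj w x => by rw [h.hc j hj])
  rw [Av_add, Av_add, Av_add, Av_add, Av_mul, z1, z2, o] at h3
  rw [Av_add, Av_mul, Av_mul, Av_add, Av_add, Av_add, Av_add, Av_add, Av_mul, Av_mul, Av_mul, z3,
    z4] at h4
  have k1 : 0 ≤ Av (fun w => ‖c w‖^2 * ‖a w‖^2) := Av_nonneg fun w => by positivity
  have k2 : 0 ≤ Av (fun w => ‖c w‖^2 * ‖b w‖^2) := Av_nonneg fun w => by positivity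
  have k3 : 0 ≤ Av (fun w => ‖a w + b w‖^4) := Av_nonneg fun w => by positivity
  norm_num at h4 ⊢
  linarith

end Pool.Agent.PLH
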