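import Pool.Agent.Lib_helper84.PLH.Poly

/-!
Discrete pluriharmonic functions: the four point inequality.
-/

namespace Pool.Agent.PLH

/-- the value at one point of the fourth moment of the weighted combination:
`ν = a + i b`, `P = g z`, `Q = g' z^2` -/
def Yv (a b P1 P2 Q1 Q2 : ℝ) : ℝ :=
  (a^2+b^2)^2 + 2*(a^2+b^2)*(P1*(a^2-b^2) - P2*(2*a*b))
   + 2*(Q1*((a^2-b^2)^2-(2*a*b)^2) - Q2*(2*(a^2-b^2)*(2*a*b)))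

lemma four (p q r s : ℝ) (h1 : p^2+q^2 ≤ 4/9) (h2 : r^2+s^2 ≤ 1/36) (Y1 Y2 Y3 Y4 : ℝ)
    (hY1 : Y1 = Yv (1+(-r/10)-p/6) (-(q/6)) p q r s)
    (hY2 : Y2 = Yv (1-(-r/10)+q/6) (-(p/6)) (-q) p (-r) (-s))
    (hY3 : Y3 = Yv (1+(-r/10)+p/6) (q/6) (-p) (-q) r s)
    (hY4 : Y4 = Yv (1-(-r/10)-q/6) (p/6) q (-p) (-r) (-s)) :
    7*(Y1+Y2+Y3+Y4) + (Y1^2+Y2^2+Y3^2+Y4^2) ≤ 32 := by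
  have ha : 0 ≤ p^2+q^2 := by positivity
  have hR : |p^2-q^2| ≤ p^2+q^2 := by
    rw [abs_le]; constructor <;> nlinarith [sq_nonneg p, sq_nonneg q]
  have hT : |2*p*q| ≤ p^2+q^2 := by
    rw [abs_le]; constructor <;> nlinarith [sq_nonneg (p+q), sq_nonneg (p-q)]
  have hr : |r| ≤ 1/6 := by
    rw [← Real.sqrt_sq (by norm_num : (0:ℝ) ≤ 1/6)]
    apply Real.abs_le_sqrt; nlinarith [sq_nonneg s]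
  have hs : |s| ≤ 1/6 := by
    rw [← Real.sqrt_sq (by norm_num : (0:ℝ) ≤ 1/6)]
    apply Real.abs_le_sqrt; nlinarith [sq_nonneg r]
  obtain ⟨e, he⟩ : ∃ e, e = -r/10 := ⟨_, rfl⟩
  obtain ⟨α, hα⟩ : ∃ α, α = p^2+q^2 := ⟨_, rfl⟩
  obtain ⟨R, hRd⟩ : ∃ R, R = p^2-q^2 := ⟨_, rfl⟩
  obtain ⟨T, hTd⟩ : ∃ T, T = 2*p*q := ⟨_, rfl⟩
  obtain ⟨x0, hx0⟩ : ∃ x0, x0 = 1+6*e^2+e^4+4*(1+e^2)*(1/36)*α+(1/1296)*α^2+4*e*(1/36)*R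
      -2*((1/6)*α*(1+3*e^2)+3*(1/6)*R*(3*e+e^3)+3*e*(1/216)*α*R+(1/216)*(R^2-T^2))
      +2*r*(4*e+4*e^3)+12*(1+e^2)*(1/36)*(r*R-s*T) := ⟨_, rfl⟩
  obtain ⟨x2, hx2⟩ : ∃ x2, x2 = 4*e+4*e^3+8*e*(1/36)*α+2*(1+e^2)*(1/36)*R-6*(1/6)*R*(1+3*e^2)
      -6*(1/216)*α*R
      -2*(1/6)*α*(3*e+e^3)-2*e*(1/216)*(R^2-T^2)+2*r*(1+6*e^2+e^4)+24*e*(1/36)*(r*R-s*T)
      +2*(1/1296)*(r*(R^2-T^2)-2*s*R*T) := ⟨_, rfl⟩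
  obtain ⟨Ur, hUr⟩ : ∃ Ur, Ur = (1+6*e^2+e^4+3*(1/36)*α*(1+e^2))-2*(1/6)*(1+3*e^2+(1/36)*α)
      +6*e*(1/36)*R-4*(1/6)*(r*(3*e+e^3+(1/36)*R)-s*((1/36)*T)) := ⟨_, rfl⟩
  obtain ⟨Ui, hUi⟩ : ∃ Ui, Ui = 6*e*(1/36)*T-4*(1/6)*(r*((1/36)*T)+s*(3*e+e^3+(1/36)*R)) :=
    ⟨_, rfl⟩
  obtain ⟨Wr, hWr⟩ : ∃ Wr, Wr = 4*e+4*e^3+6*e*(1/36)*α+3*(1+e^2)*(1/36)*R+(1/1296)*α*R
      -2*(1/6)*(3*e+e^3+e*(1/36)*α)-4*(1/6)*(r*(1+3*e^2+e*(1/36)*R)-s*(e*(1/36)*T)) := ⟨_, rfl⟩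
  obtain ⟨Wi, hWi⟩ : ∃ Wi, Wi = -(3*(1+e^2)*(1/36)*T+(1/1296)*α*T)
      -4*(1/6)*(-r*(e*(1/36)*T)-s*(1+3*e^2+e*(1/36)*R)) := ⟨_, rfl⟩
  have hc := core (α := α) (R := R) (T := T) (by rw [hα]; exact ha) (by rw [hα]; exact h1)
    (by rw [hα, hRd]; exact hR) (by rw [hα, hTd]; exact hT) hr hs e x0 x2 Ur Ui Wr Wi he
    (by rw [hx0]) (by rw [hx2]) (by rw [hUr]) (by rw [hUi]) (by rw [hWr]) (by rw [hWi])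
  obtain ⟨u, hu⟩ : ∃ u, u = p*Ur - q*Ui + p*Wr + q*Wi := ⟨_, rfl⟩
  obtain ⟨v, hv⟩ : ∃ v, v = p*Ui + q*Ur + p*Wi - q*Wr := ⟨_, rfl⟩
  have huv : u^2+v^2 = α*(Ur^2+Ui^2+Wr^2+Wi^2)+2*(R*(Ur*Wr+Ui*Wi)-T*(Ui*Wr-Ur*Wi)) := by
    rw [hu, hv, hα, hRd, hTd]; ring
  have e1 : Y1 = x0 + 2*u + x2 := by
    rw [hY1, hu, hx0, hx2, hUr, hUi, hWr, hWi, hα, hRd, hTd, he]; unfold Yv; ring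
  have e3 : Y3 = x0 - 2*u + x2 := by
    rw [hY3, hu, hx0, hx2, hUr, hUi, hWr, hWi, hα, hRd, hTd, he]; unfold Yv; ring
  have e2 : Y2 = x0 - 2*v - x2 := by
    rw [hY2, hv, hx0, hx2, hUr, hUi, hWr, hWi, hα, hRd, hTd, he]; unfold Yv; ring
  have e4 : Y4 = x0 + 2*v - x2 := by
    rw [hY4, hv, hx0, hx2, hUr, hUi, hWr, hWi, hα, hRd, hTd, he]; unfold Yv; ring
  rw [← huv] at hc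
  rw [e1, e2, e3, e4]
  linarith

end Pool.Agent.PLH
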