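import Pool.Agent.Lib_helper84.PLH.Contr

/-!
Discrete pluriharmonic functions: functions which are pluriharmonic in groups of variables.
-/

set_option linter.unusedSectionVars false

namespace Pool.Agent.PLH

open Complex ComplexConjugate

variable {I M : Type*} [Fintype I] [DecidableEq I] [Fintype M] [DecidableEq M]

/-- letter with sign -/
noncomputable def zs (e : Bool) (x : Bool × Bool) : ℂ := if e then conj (zt x) else zt x

/-- monomial -/
noncomputable def mon (γ : I → M) (e : M → Bool) (S : Finset I) (w : I → Bool × Bool) : ℂ :=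
  ∏ j ∈ S, zs (e (γ j)) (w j)

/-- the function with coefficients `c` -/
noncomputable def Hf (γ : I → M) (c : (M → Bool) → Finset I → ℂ) (w : I → Bool × Bool) : ℂ :=
  ∑ e, ∑ S, c e S * mon γ e S w

/-- restriction of a family of coefficients -/
noncomputable def rs (P : (M → Bool) → Finset I → Prop) [∀ e S, Decidable (P e S)]
    (c : (M → Bool) → Finset I → ℂ) : (M → Bool) → Finset I → ℂ :=
  fun e S => if P e S then c e S else 0

lemma sum_zs (e : Bool) : ∑ x, zs e x = 0 := by
  cases e
  · simpa [zs] using sum_zt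
  · have : ∑ x, conj (zt x) = 0 := by rw [← map_sum, sum_zt, map_zero]
    simpa [zs] using this

omit [Fintype I] [Fintype M] [DecidableEq M] in
lemma mon_update_notMem (γ : I → M) (e : M → Bool) {S : Finset I} {j : I} (hj : j ∉ S)
    (w : I → Bool × Bool) (x : Bool × Bool) :
    mon γ e S (Function.update w j x) = mon γ e S w := by
  unfold mon
  apply Finset.prod_congr rfl
  intro i hi
  rw [Function.update_of_ne]
  rintro rfl; exact hj hi

omit [Fintype I] [Fintype M] [DecidableEq M] in
lemma mon_update_mem (γ : I → M) (e : M → Bool) {S : Finset I} {j : I} (hj : j ∈ S)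
    (w : I → Bool × Bool) (x : Bool × Bool) :
    mon γ e S (Function.update w j x) = zs (e (γ j)) x * mon γ e (S.erase j) w := by
  unfold mon
  rw [← Finset.mul_prod_erase S _ hj, Function.update_self]
  congr 1
  apply Finset.prod_congr rfl
  intro i hi
  rw [Function.update_of_ne (Finset.ne_of_mem_erase hi)]

omit [Fintype I] in
lemma An_sum {K : Type*} (s : Finset K) (j : I) (F : K → (I → Bool × Bool) → ℂ)
    (h : ∀ k ∈ s, An j (F k)) : An j (fun w => ∑ k ∈ s, F k w) := by
  classical
  induction s using Finset.induction_on with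
  | empty => exact ⟨fun _ => 0, fun _ => 0, fun w x => by simp⟩
  | insert k s hk ih =>
    obtain ⟨A, B, hAB⟩ := ih (fun k' hk' => h k' (Finset.mem_insert_of_mem hk'))
    obtain ⟨A', B', hAB'⟩ := h k (Finset.mem_insert_self _ _)
    refine ⟨fun w => A' w + A w, fun w => B' w + B w, fun w x => ?_⟩
    have := hAB w x
    dsimp only at this ⊢
    rw [Finset.sum_insert hk, this, hAB']; ring

omit [Fintype I] in
lemma An_smul {j : I} {F : (I → Bool × Bool) → ℂ} (a : ℂ) (h : An j F) :
    An j (fun w => a * F w) := by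
  obtain ⟨A, B, hAB⟩ := h
  exact ⟨fun w => a * A w, fun w => a * B w, fun w x => by dsimp only; rw [hAB]; ring⟩

omit [Fintype I] [Fintype M] [DecidableEq M] in
lemma An_mon (γ : I → M) (e : M → Bool) (S : Finset I) (j : I)
    (h : j ∈ S → e (γ j) = false) : An j (mon γ e S) := by
  by_cases hj : j ∈ S
  · refine ⟨fun _ => 0, fun w => mon γ e (S.erase j) w, fun w x => ?_⟩
    rw [mon_update_mem γ e hj, h hj, zero_add]
    simp [zs]
  · exact ⟨mon γ e S, fun _ => 0, fun w x => by rw [mon_update_notMem γ e hj]; simp⟩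

omit [Fintype I] [Fintype M] [DecidableEq M] in
lemma An_conj_mon (γ : I → M) (e : M → Bool) (S : Finset I) (j : I)
    (h : j ∈ S → e (γ j) = true) : An j (fun w => conj (mon γ e S w)) := by
  by_cases hj : j ∈ S
  · refine ⟨fun _ => 0, fun w => conj (mon γ e (S.erase j) w), fun w x => ?_⟩
    dsimp only
    rw [mon_update_mem γ e hj, h hj, zero_add, map_mul]
    simp [zs]
  · exact ⟨fun w => conj (mon γ e S w), fun _ => 0, fun w x => by
      dsimp only; rw [mon_update_notMem γ e hj]; simp⟩

omit [Fintype I] in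
lemma av1_comm (i j : I) (F : (I → Bool × Bool) → ℂ) (w : I → Bool × Bool) :
    av1 i (av1 j F) w = av1 j (av1 i F) w := by
  rcases eq_or_ne i j with rfl | hij
  · rfl
  · unfold av1
    simp_rw [← Finset.mul_sum]
    rw [Finset.sum_comm]
    congr 1
    congr 1
    apply Finset.sum_congr rfl; intro x _
    apply Finset.sum_congr rfl; intro y _
    rw [Function.update_comm hij]

omit [Fintype I] in
lemma av1_zero_fun (i : I) (F : (I → Bool × Bool) → ℂ) (h : ∀ w, F w = 0) (w : I → Bool × Bool) :
    av1 i F w = 0 := by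
  unfold av1; simp [h]

omit [Fintype I] in
lemma avL_bal (l : List I) {j : I} (hj : j ∈ l) (F : (I → Bool × Bool) → ℂ)
    (h : ∀ w, av1 j F w = 0) : ∀ w, avL l F w = 0 := by
  have hb : ∀ l : List I, ∀ w, av1 j (avL l F) w = 0 := by
    intro l
    induction l with
    | nil => exact h
    | cons i l ih =>
      intro w
      change av1 j (av1 i (avL l F)) w = 0
      rw [av1_comm]
      exact av1_zero_fun i _ ih w
  induction l with
  | nil => simp at hj
  | cons i l ih =>
    intro w
    change av1 i (avL l F) w = 0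
    rcases List.mem_cons.mp hj with rfl | hj'
    · exact hb l w
    · exact av1_zero_fun i _ (ih hj') w

omit [Fintype I] in
lemma avL_sum {K : Type*} (s : Finset K) (l : List I) (F : K → (I → Bool × Bool) → ℂ) :
    avL l (fun w => ∑ k ∈ s, F k w) = fun w => ∑ k ∈ s, avL l (F k) w := by
  induction l with
  | nil => rfl
  | cons i l ih =>
    change av1 i (avL l (fun w => ∑ k ∈ s, F k w)) = _
    rw [ih]
    funext w
    unfold av1
    rw [Finset.sum_comm, Finset.mul_sum]
    rfl

omit [Fintype I] in
lemma avL_smul (l : List I) (a : ℂ) (F : (I → Bool × Bool) → ℂ) :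
    avL l (fun w => a * F w) = fun w => a * avL l F w := by
  induction l with
  | nil => rfl
  | cons i l ih =>
    change av1 i (avL l (fun w => a * F w)) = _
    rw [ih]
    funext w
    unfold av1
    rw [← Finset.mul_sum]
    change _ = a * (1/4 * ∑ x, avL l F (Function.update w i x))
    ring

omit [Fintype I] [Fintype M] [DecidableEq M] in
lemma av1_mon (γ : I → M) (e : M → Bool) {S : Finset I} {j : I} (hj : j ∈ S)
    (w : I → Bool × Bool) : av1 j (mon γ e S) w = 0 := by
  unfold av1
  simp_rw [mon_update_mem γ e hj]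
  rw [← Finset.sum_mul, sum_zs]; simp

omit [Fintype I] [Fintype M] [DecidableEq M] in
lemma av1_conj_mon (γ : I → M) (e : M → Bool) {S : Finset I} {j : I} (hj : j ∈ S)
    (w : I → Bool × Bool) : av1 j (fun w => conj (mon γ e S w)) w = 0 := by
  unfold av1
  simp_rw [mon_update_mem γ e hj, map_mul]
  rw [← Finset.sum_mul, ← map_sum, sum_zs]; simp

/-- the list of the variables of a group -/
noncomputable def gl (γ : I → M) (i : M) : List I := (Finset.univ.filter (fun j => γ j = i)).toList

omit [DecidableEq I] [Fintype M] in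
lemma mem_gl (γ : I → M) (i : M) (j : I) : j ∈ gl γ i ↔ γ j = i := by
  unfold gl; rw [Finset.mem_toList, Finset.mem_filter]; simp

/-- the three parts for the group `i` -/
noncomputable def c0 (γ : I → M) (i : M) (c : (M → Bool) → Finset I → ℂ) :
    (M → Bool) → Finset I → ℂ := fun e S => if i ∈ S.image γ then 0 else c e S
noncomputable def cb (γ : I → M) (i : M) (b : Bool) (c : (M → Bool) → Finset I → ℂ) :
    (M → Bool) → Finset I → ℂ := fun e S => if i ∈ S.image γ ∧ e i = b then c e S else 0

lemma Hf_split (γ : I → M) (i : M) (c : (M → Bool) → Finset I → ℂ) (w : I → Bool × Bool) :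
    Hf γ c w = Hf γ (c0 γ i c) w + Hf γ (cb γ i false c) w + Hf γ (cb γ i true c) w := by
  unfold Hf
  rw [← Finset.sum_add_distrib, ← Finset.sum_add_distrib]
  apply Finset.sum_congr rfl; intro e _
  rw [← Finset.sum_add_distrib, ← Finset.sum_add_distrib]
  apply Finset.sum_congr rfl; intro S _
  rw [← add_mul, ← add_mul]
  congr 1
  unfold c0 cb
  by_cases h : i ∈ S.image γ
  · cases h2 : e i <;> simp [h]
  · simp [h]

/-- the processed family -/
noncomputable def pc (γ : I → M) (i : M) (b : Bool) (c : (M → Bool) → Finset I → ℂ) :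
    (M → Bool) → Finset I → ℂ :=
  fun e S => if i ∈ S.image γ then (if e i = b then (1/32) * c e S else 0) else c e S

lemma Hf_pc (γ : I → M) (i : M) (b : Bool) (c : (M → Bool) → Finset I → ℂ)
    (w : I → Bool × Bool) :
    Hf γ (pc γ i b c) w = Hf γ (c0 γ i c) w + (1/32) * Hf γ (cb γ i b c) w := by
  unfold Hf
  rw [Finset.mul_sum, ← Finset.sum_add_distrib]
  apply Finset.sum_congr rfl; intro e _
  rw [Finset.mul_sum, ← Finset.sum_add_distrib]
  apply Finset.sum_congr rfl; intro S _
  rw [← mul_assoc, ← add_mul]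
  congr 1
  unfold c0 cb pc
  by_cases h : i ∈ S.image γ
  · by_cases h2 : e i = b <;> simp [h, h2]
  · simp [h]

lemma grp (γ : I → M) (i : M) (c : (M → Bool) → Finset I → ℂ) :
    Grp (gl γ i) (Hf γ (c0 γ i c)) (Hf γ (cb γ i false c)) (Hf γ (cb γ i true c)) := by
  refine ⟨fun j hj w x => ?_, fun j hj => ?_, fun j hj => ?_, fun w => ?_, fun w => ?_⟩
  · rw [mem_gl] at hj
    unfold Hf
    apply Finset.sum_congr rfl; intro e _
    apply Finset.sum_congr rfl; intro S _
    by_cases h : i ∈ S.image γ
    · simp [c0, h]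
    · rw [mon_update_notMem]
      intro hjS
      exact h (Finset.mem_image.mpr ⟨j, hjS, hj⟩)
  · rw [mem_gl] at hj
    unfold Hf
    apply An_sum; intro e _
    apply An_sum; intro S _
    by_cases h : i ∈ S.image γ ∧ e i = false
    · apply An_smul
      apply An_mon
      intro _; rw [hj]; exact h.2
    · simp only [cb, h, if_false, zero_mul]
      exact ⟨fun _ => 0, fun _ => 0, fun w x => by simp⟩
  · rw [mem_gl] at hj
    unfold Hf
    simp_rw [map_sum]
    apply An_sum; intro e _
    apply An_sum; intro S _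
    by_cases h : i ∈ S.image γ ∧ e i = true
    · simp_rw [map_mul]
      apply An_smul
      apply An_conj_mon
      intro _; rw [hj]; exact h.2
    · simp only [cb, h, if_false, zero_mul, map_zero]
      exact ⟨fun _ => 0, fun _ => 0, fun w x => by simp⟩
  · unfold Hf
    rw [avL_sum]
    apply Finset.sum_eq_zero; intro e _
    rw [avL_sum]
    apply Finset.sum_eq_zero; intro S _
    rw [avL_smul]
    by_cases h : i ∈ S.image γ ∧ e i = false
    · obtain ⟨j, hjS, hj⟩ := Finset.mem_image.mp h.1
      dsimp only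
      rw [avL_bal (gl γ i) ((mem_gl γ i j).mpr hj) _ (av1_mon γ e hjS), mul_zero]
    · simp only [cb, h, if_false, zero_mul]
  · unfold Hf
    simp_rw [map_sum]
    rw [avL_sum]
    apply Finset.sum_eq_zero; intro e _
    rw [avL_sum]
    apply Finset.sum_eq_zero; intro S _
    simp_rw [map_mul]
    rw [avL_smul]
    by_cases h : i ∈ S.image γ ∧ e i = true
    · obtain ⟨j, hjS, hj⟩ := Finset.mem_image.mp h.1
      dsimp only
      rw [avL_bal (gl γ i) ((mem_gl γ i j).mpr hj) _ (av1_conj_mon γ e hjS), mul_zero]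
    · simp only [cb, h, if_false, map_zero, zero_mul]

/-- one group is processed: exponent `9/7` -/
lemma step97 (γ : I → M) (i : M) (c : (M → Bool) → Finset I → ℂ) :
    1/2 * Av (fun w => ‖Hf γ (pc γ i false c) w‖ ^ (9/7 : ℝ)) +
      1/2 * Av (fun w => ‖Hf γ (pc γ i true c) w‖ ^ (9/7 : ℝ)) ≤
    Av (fun w => ‖Hf γ c w‖ ^ (9/7 : ℝ)) := by
  simp_rw [Hf_pc, Hf_split γ i c]
  exact contr97 (grp γ i c)

/-- one group is processed: exponent `4` -/
lemma step4 (γ : I → M) (i : M) (c : (M → Bool) → Finset I → ℂ) :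
    1/2 * Av (fun w => ‖Hf γ (pc γ i false c) w‖ ^ 4) +
      1/2 * Av (fun w => ‖Hf γ (pc γ i true c) w‖ ^ 4) ≤
    Av (fun w => ‖Hf γ c w‖ ^ 4) := by
  simp_rw [Hf_pc, Hf_split γ i c]
  exact contr4 (grp γ i c)

end Pool.Agent.PLH
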