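import Pool.Agent.Lib_helper84.PLH.Step

/-!
Discrete pluriharmonic functions: the one step inequality.
-/

namespace Pool.Agent.PLH

open Complex ComplexConjugate

variable {W : Type*} [Fintype W]

lemma con (Z : W → ℂ) (m : W → ℝ) (c : ℝ) (h : ∀ w, ‖Z w‖ ≤ c * m w) :
    (Av fun w => (Z w).re) ^ 2 + (Av fun w => (Z w).im) ^ 2 ≤ (c * Av m) ^ 2 := by
  have h1 : (Av fun w => (Z w).re) ^ 2 + (Av fun w => (Z w).im) ^ 2 =
      ((Fintype.card W : ℝ)⁻¹ * ‖∑ w, Z w‖) ^ 2 := by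
    have e : ‖∑ w, Z w‖ ^ 2 = (∑ w, (Z w).re) ^ 2 + (∑ w, (Z w).im) ^ 2 := by
      rw [← Complex.normSq_eq_norm_sq, Complex.normSq_apply, Complex.re_sum, Complex.im_sum]
      ring
    unfold Av
    rw [mul_pow _ ‖∑ w, Z w‖, e]
    ring
  rw [h1]
  have h2 : (Fintype.card W : ℝ)⁻¹ * ‖∑ w, Z w‖ ≤ c * Av m := by
    calc (Fintype.card W : ℝ)⁻¹ * ‖∑ w, Z w‖ ≤ (Fintype.card W : ℝ)⁻¹ * ∑ w, ‖Z w‖ := by
          gcongr; exact norm_sum_le _ _
      _ ≤ (Fintype.card W : ℝ)⁻¹ * ∑ w, c * m w := by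
          gcongr with w _; exact h w
      _ = c * Av m := by unfold Av; rw [← Finset.mul_sum]; ring
  have h3 : 0 ≤ (Fintype.card W : ℝ)⁻¹ * ‖∑ w, Z w‖ := by positivity
  gcongr

lemma con1 (A B : W → ℂ) : mP A B ^ 2 + mQ A B ^ 2 ≤ (2/3 * m0 A B) ^ 2 := by
  have h := con (fun w => ((2 * (normSq (A w) + normSq (B w)) : ℝ) : ℂ) * (conj (A w) * B w))
    (fun w => (normSq (A w) + normSq (B w)) ^ 2 + 2 * normSq (conj (A w) * B w)) (2/3) (by
      intro w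
      rw [norm_mul, norm_mul, Complex.norm_real, RCLike.norm_conj, normSq_mul, normSq_conj,
        Complex.normSq_eq_norm_sq, Complex.normSq_eq_norm_sq, Real.norm_eq_abs,
        abs_of_nonneg (by positivity)]
      set a := ‖A w‖
      set b := ‖B w‖
      have ha : 0 ≤ a := norm_nonneg _
      have hb : 0 ≤ b := norm_nonneg _
      have h1 : 0 ≤ a^2 + b^2 - 2 * (a * b) := by nlinarith [sq_nonneg (a - b)]
      have h2 : 0 ≤ a^2 + b^2 - a * b := by nlinarith [sq_nonneg (a - b), mul_nonneg ha hb]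
      nlinarith [mul_nonneg h1 h2])
  simp only [Complex.re_ofReal_mul, Complex.im_ofReal_mul] at h
  exact h

lemma con2 (A B : W → ℂ) : mR A B ^ 2 + mS A B ^ 2 ≤ (1/6 * m0 A B) ^ 2 := by
  have h := con (fun w => (conj (A w) * B w) ^ 2)
    (fun w => (normSq (A w) + normSq (B w)) ^ 2 + 2 * normSq (conj (A w) * B w)) (1/6) (by
      intro w
      rw [norm_pow, norm_mul, RCLike.norm_conj, normSq_mul, normSq_conj,
        Complex.normSq_eq_norm_sq, Complex.normSq_eq_norm_sq]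
      set a := ‖A w‖
      set b := ‖B w‖
      nlinarith [sq_nonneg (a^2 - b^2)])
  exact h

/-- the weight `ν` -/
noncomputable def nu (p q r : ℝ) : Bool × Bool → ℂ
  | (false, false) => ⟨1+(-r/10)-p/6, -(q/6)⟩
  | (true, false) => ⟨1-(-r/10)+q/6, -(p/6)⟩
  | (true, true) => ⟨1+(-r/10)+p/6, q/6⟩
  | (false, true) => ⟨1-(-r/10)-q/6, p/6⟩

lemma sum_nu (p q r : ℝ) : ∑ x, conj (nu p q r x) = 4 := by
  rw [sumQ]
  apply Complex.ext <;> simp [nu] <;> ring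

lemma sum_nu' (p q r : ℝ) : ∑ x, conj (nu p q r x) * conj (zt x) = 0 := by
  rw [sumQ]
  apply Complex.ext <;> simp [nu, zt] <;> ring

lemma sum_nu2 (p q r : ℝ) : ∑ x, zt x * nu p q r x = 0 := by
  rw [sumQ]
  apply Complex.ext <;> simp [nu, zt] <;> ring

lemma sum_nu2' (p q r : ℝ) : ∑ x, (zt x * nu p q r x) * conj (zt x) = 4 := by
  rw [sumQ]
  apply Complex.ext <;> simp [nu, zt] <;> ring

/-- average of the fourth powers at a point of the circle, without weight -/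
lemma av_one (A B : W → ℂ) : ∑ x, Av (fun w => ‖A w + zt x * B w‖ ^ 4) = 4 * m0 A B := by
  rw [sumQ]
  have k1 := av4 A B 1 0 1 0 (by norm_num)
  have k2 := av4 A B 1 0 0 1 (by norm_num)
  have k3 := av4 A B 1 0 (-1) 0 (by norm_num)
  have k4 := av4 A B 1 0 0 (-1) (by norm_num)
  have c1 : (⟨1, 0⟩ : ℂ) = 1 := rfl
  have c2 : (⟨0, 1⟩ : ℂ) = Complex.I := rfl
  have c3 : (⟨-1, 0⟩ : ℂ) = -1 := by apply Complex.ext <;> simp
  have c4 : (⟨0, -1⟩ : ℂ) = -Complex.I := by apply Complex.ext <;> simp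
  rw [c1] at k1
  rw [c1, c2] at k2
  rw [c3, c1] at k3
  rw [c4, c1] at k4
  simp only [map_one, one_mul, mul_one] at k1 k2 k3 k4
  simp only [zt, one_mul]
  rw [k1, k2, k3, k4]
  ring

lemma bern {Y : ℝ} (hY : 0 ≤ Y) : Y ^ (9/8 : ℝ) ≤ 7/8 * Y + 1/8 * Y ^ 2 := by
  have h := Real.geom_mean_le_arith_mean2_weighted (w₁ := 7/8) (w₂ := 1/8) (p₁ := Y)
    (p₂ := Y ^ 2) (by norm_num) (by norm_num) hY (by positivity) (by norm_num)
  have e : Y ^ (7/8 : ℝ) * (Y ^ 2) ^ (1/8 : ℝ) = Y ^ (9/8 : ℝ) := by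
    rw [← Real.rpow_natCast Y 2, ← Real.rpow_mul hY, ← Real.rpow_add_of_nonneg hY (by norm_num)
      (by norm_num)]
    norm_num
  rw [← e]; exact h

/-- **One step.** -/
lemma one_step (A B : W → ℂ) : ∃ V1 V2 : Bool × Bool → ℂ,
    (∑ x, V1 x = 4) ∧ (∑ x, V1 x * conj (zt x) = 0) ∧ (∑ x, V2 x = 0) ∧
    (∑ x, V2 x * conj (zt x) = 4) ∧
    ∑ x, (Av fun w => ‖V1 x * A w + V2 x * B w‖ ^ 4) ^ (9/8 : ℝ) ≤
      4 * m0 A B ^ (9/8 : ℝ) := by
  have hm0 : 0 ≤ m0 A B := Av_nonneg fun w => by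
    have := normSq_nonneg (conj (A w) * B w); positivity
  rcases hm0.eq_or_lt with h0 | h0
  · refine ⟨fun x => conj (nu 0 0 0 x), fun x => zt x * nu 0 0 0 x, sum_nu _ _ _, sum_nu' _ _ _,
      sum_nu2 _ _ _, sum_nu2' _ _ _, ?_⟩
    have hnu : ∀ x, nu 0 0 0 x = 1 := by
      rintro ⟨a, b⟩; cases a <;> cases b <;> (apply Complex.ext <;> simp [nu])
    simp only [hnu, map_one, mul_one, one_mul]
    have h1 := av_one A B
    rw [← h0, mul_zero] at h1
    have h2 : ∀ x ∈ Finset.univ, Av (fun w => ‖A w + zt x * B w‖ ^ 4) = 0 :=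
      (Finset.sum_eq_zero_iff_of_nonneg (fun x _ => Av_nonneg fun w => by positivity)).mp h1
    rw [← h0, Finset.sum_eq_zero]
    · positivity
    · intro x hx
      rw [h2 x hx, Real.zero_rpow (by norm_num)]
  · obtain ⟨p, hp⟩ : ∃ p, p = mP A B / m0 A B := ⟨_, rfl⟩
    obtain ⟨q, hq⟩ : ∃ q, q = mQ A B / m0 A B := ⟨_, rfl⟩
    obtain ⟨r, hr⟩ : ∃ r, r = mR A B / m0 A B := ⟨_, rfl⟩
    obtain ⟨s, hs⟩ : ∃ s, s = mS A B / m0 A B := ⟨_, rfl⟩
    have hp' : mP A B = m0 A B * p := by rw [hp]; field_simp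
    have hq' : mQ A B = m0 A B * q := by rw [hq]; field_simp
    have hr' : mR A B = m0 A B * r := by rw [hr]; field_simp
    have hs' : mS A B = m0 A B * s := by rw [hs]; field_simp
    have h1 : p^2+q^2 ≤ 4/9 := by
      have := con1 A B
      rw [hp', hq'] at this
      have h2 : m0 A B ^ 2 * (p^2+q^2) ≤ m0 A B ^ 2 * (4/9) := by nlinarith
      exact le_of_mul_le_mul_left h2 (by positivity)
    have h2 : r^2+s^2 ≤ 1/36 := by
      have := con2 A B
      rw [hr', hs'] at this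
      have h2 : m0 A B ^ 2 * (r^2+s^2) ≤ m0 A B ^ 2 * (1/36) := by nlinarith
      exact le_of_mul_le_mul_left h2 (by positivity)
    refine ⟨fun x => conj (nu p q r x), fun x => zt x * nu p q r x, sum_nu _ _ _, sum_nu' _ _ _,
      sum_nu2 _ _ _, sum_nu2' _ _ _, ?_⟩
    obtain ⟨Y1, hY1⟩ : ∃ Y1, Y1 = Yv (1+(-r/10)-p/6) (-(q/6)) p q r s := ⟨_, rfl⟩
    obtain ⟨Y2, hY2⟩ : ∃ Y2, Y2 = Yv (1-(-r/10)+q/6) (-(p/6)) (-q) p (-r) (-s) := ⟨_, rfl⟩
    obtain ⟨Y3, hY3⟩ : ∃ Y3, Y3 = Yv (1+(-r/10)+p/6) (q/6) (-p) (-q) r s := ⟨_, rfl⟩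
    obtain ⟨Y4, hY4⟩ : ∃ Y4, Y4 = Yv (1-(-r/10)-q/6) (p/6) q (-p) (-r) (-s) := ⟨_, rfl⟩
    have hf := four p q r s h1 h2 Y1 Y2 Y3 Y4 hY1 hY2 hY3 hY4
    have c1 : (⟨1, 0⟩ : ℂ) = 1 := rfl
    have c2 : (⟨0, 1⟩ : ℂ) = Complex.I := rfl
    have c3 : (⟨-1, 0⟩ : ℂ) = -1 := by apply Complex.ext <;> simp
    have c4 : (⟨0, -1⟩ : ℂ) = -Complex.I := by apply Complex.ext <;> simp
    have a1 : Av (fun w => ‖conj (nu p q r (false, false)) * A w +
        zt (false, false) * nu p q r (false, false) * B w‖ ^ 4) = m0 A B * Y1 := by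
      have := av4 A B (1+(-r/10)-p/6) (-(q/6)) 1 0 (by norm_num)
      rw [c1] at this
      simp only [nu, zt]
      rw [this, hY1, hp', hq', hr', hs']; unfold Yv; ring
    have a2 : Av (fun w => ‖conj (nu p q r (true, false)) * A w +
        zt (true, false) * nu p q r (true, false) * B w‖ ^ 4) = m0 A B * Y2 := by
      have := av4 A B (1-(-r/10)+q/6) (-(p/6)) 0 1 (by norm_num)
      rw [c2] at this
      simp only [nu, zt]
      rw [this, hY2, hp', hq', hr', hs']; unfold Yv; ring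
    have a3 : Av (fun w => ‖conj (nu p q r (true, true)) * A w +
        zt (true, true) * nu p q r (true, true) * B w‖ ^ 4) = m0 A B * Y3 := by
      have := av4 A B (1+(-r/10)+p/6) (q/6) (-1) 0 (by norm_num)
      rw [c3] at this
      simp only [nu, zt]
      rw [this, hY3, hp', hq', hr', hs']; unfold Yv; ring
    have a4 : Av (fun w => ‖conj (nu p q r (false, true)) * A w +
        zt (false, true) * nu p q r (false, true) * B w‖ ^ 4) = m0 A B * Y4 := by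
      have := av4 A B (1-(-r/10)-q/6) (p/6) 0 (-1) (by norm_num)
      rw [c4] at this
      simp only [nu, zt]
      rw [this, hY4, hp', hq', hr', hs']; unfold Yv; ring
    have b1 : 0 ≤ Y1 := by
      have : 0 ≤ m0 A B * Y1 := by rw [← a1]; exact Av_nonneg fun w => by positivity
      exact nonneg_of_mul_nonneg_right this h0
    have b2 : 0 ≤ Y2 := by
      have : 0 ≤ m0 A B * Y2 := by rw [← a2]; exact Av_nonneg fun w => by positivity
      exact nonneg_of_mul_nonneg_right this h0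
    have b3 : 0 ≤ Y3 := by
      have : 0 ≤ m0 A B * Y3 := by rw [← a3]; exact Av_nonneg fun w => by positivity
      exact nonneg_of_mul_nonneg_right this h0
    have b4 : 0 ≤ Y4 := by
      have : 0 ≤ m0 A B * Y4 := by rw [← a4]; exact Av_nonneg fun w => by positivity
      exact nonneg_of_mul_nonneg_right this h0
    rw [sumQ]
    simp only [a1, a2, a3, a4]
    rw [Real.mul_rpow hm0 b1, Real.mul_rpow hm0 b2, Real.mul_rpow hm0 b3, Real.mul_rpow hm0 b4]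
    have hb1 := bern b1
    have hb2 := bern b2
    have hb3 := bern b3
    have hb4 := bern b4
    have hM : 0 ≤ m0 A B ^ (9/8 : ℝ) := by positivity
    have hs4 : Y1 ^ (9/8 : ℝ) + Y2 ^ (9/8 : ℝ) + Y3 ^ (9/8 : ℝ) + Y4 ^ (9/8 : ℝ) ≤ 4 := by
      linarith
    calc _ = m0 A B ^ (9/8 : ℝ) *
          (Y1 ^ (9/8 : ℝ) + Y2 ^ (9/8 : ℝ) + Y3 ^ (9/8 : ℝ) + Y4 ^ (9/8 : ℝ)) := by ring
      _ ≤ m0 A B ^ (9/8 : ℝ) * 4 := by gcongr
      _ = _ := by ring

end Pool.Agent.PLH
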