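import Mathlib

/-!
Discrete pluriharmonic functions: the four point polynomial inequality.
-/

namespace Pool.Agent.PLH

/-- monomial bound -/
lemma mb {α R T r s : ℝ} (h0 : 0 ≤ α) (hα : α ≤ 4/9) (hR : |R| ≤ α) (hT : |T| ≤ α)
    (hr : |r| ≤ 1/6) (hs : |s| ≤ 1/6) (i j l m n : ℕ) (B : ℝ) (h : 1 ≤ i + j + l)
    (hB : (4/9 : ℝ)^(i+j+l-1) * (1/6)^(m+n) = B) :
    |α^i*R^j*T^l*r^m*s^n| ≤ B * α := by
  have e1 : |α^i*R^j*T^l*r^m*s^n| = α^i*|R|^j*|T|^l*|r|^m*|s|^n := by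
    simp only [abs_mul, abs_pow, abs_of_nonneg h0]
  rw [e1, ← hB]
  have e2 : α^i*|R|^j*|T|^l*|r|^m*|s|^n ≤ α^i*α^j*α^l*(1/6)^m*(1/6)^n := by gcongr
  refine e2.trans ?_
  have e3 : α^i*α^j*α^l*(1/6 : ℝ)^m*(1/6)^n = α^(i+j+l-1) * (1/6)^(m+n) * α := by
    have : α^i*α^j*α^l = α^(i+j+l-1) * α := by
      rw [← pow_add, ← pow_add, ← pow_succ, Nat.sub_add_cancel h]
    rw [this, pow_add]; ring
  rw [e3]
  gcongr

lemma mr {r s : ℝ} (hr : |r| ≤ 1/6) (hs : |s| ≤ 1/6) (m n : ℕ) (B : ℝ) (h : 2 ≤ m)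
    (hB : (1/6 : ℝ)^(m-2+n) = B) : |r^m*s^n| ≤ B * r^2 := by
  have e1 : |r^m*s^n| = |r|^(m-2) * |s|^n * r^2 := by
    rw [abs_mul, abs_pow, abs_pow]
    have : |r|^m = |r|^(m-2) * r^2 := by
      rw [← sq_abs r, ← pow_add, Nat.sub_add_cancel h]
    rw [this]; ring
  rw [e1, ← hB, pow_add]
  gcongr


/-- the main polynomial inequality, in the variables `α = |g|^2`, `R + iT = g^2`, `r + is` -/
lemma core {α R T r s : ℝ} (ha : 0 ≤ α) (hα : α ≤ 4/9) (hR : |R| ≤ α) (hT : |T| ≤ α)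
    (hr : |r| ≤ 1/6) (hs : |s| ≤ 1/6) (e x0 x2 Ur Ui Wr Wi : ℝ) (he : e = -r/10)
    (hx0 : x0 = 1+6*e^2+e^4+4*(1+e^2)*(1/36)*α+(1/1296)*α^2+4*e*(1/36)*R
      -2*((1/6)*α*(1+3*e^2)+3*(1/6)*R*(3*e+e^3)+3*e*(1/216)*α*R+(1/216)*(R^2-T^2))
      +2*r*(4*e+4*e^3)+12*(1+e^2)*(1/36)*(r*R-s*T))
    (hx2 : x2 = 4*e+4*e^3+8*e*(1/36)*α+2*(1+e^2)*(1/36)*R-6*(1/6)*R*(1+3*e^2)-6*(1/216)*α*R
      -2*(1/6)*α*(3*e+e^3)-2*e*(1/216)*(R^2-T^2)+2*r*(1+6*e^2+e^4)+24*e*(1/36)*(r*R-s*T)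
      +2*(1/1296)*(r*(R^2-T^2)-2*s*R*T))
    (hUr : Ur = (1+6*e^2+e^4+3*(1/36)*α*(1+e^2))-2*(1/6)*(1+3*e^2+(1/36)*α)+6*e*(1/36)*R
      -4*(1/6)*(r*(3*e+e^3+(1/36)*R)-s*((1/36)*T)))
    (hUi : Ui = 6*e*(1/36)*T-4*(1/6)*(r*((1/36)*T)+s*(3*e+e^3+(1/36)*R)))
    (hWr : Wr = 4*e+4*e^3+6*e*(1/36)*α+3*(1+e^2)*(1/36)*R+(1/1296)*α*R
      -2*(1/6)*(3*e+e^3+e*(1/36)*α)-4*(1/6)*(r*(1+3*e^2+e*(1/36)*R)-s*(e*(1/36)*T)))
    (hWi : Wi = -(3*(1+e^2)*(1/36)*T+(1/1296)*α*T)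
      -4*(1/6)*(-r*(e*(1/36)*T)-s*(1+3*e^2+e*(1/36)*R))) :
    0 ≤ 9*(1-x0)-(1-x0)^2-2*(α*(Ur^2+Ui^2+Wr^2+Wi^2)+2*(R*(Ur*Wr+Ui*Wi)-T*(Ui*Wr-Ur*Wi)))-x2^2 := by
  subst hx0 hx2 hUr hUi hWr hWi he
  have h0 := (abs_le.mp (mb ha hα hR hT hr hs 0 0 1 0 1 (1/6) (by norm_num) (by norm_num))).1
  have h1 := (abs_le.mp (mr hr hs 4 0 (1/36) (by norm_num) (by norm_num))).2
  have h2 : 0 ≤ α^0*R^0*T^2*r^0*s^0 := by positivity
  have h3 := (abs_le.mp (mb ha hα hR hT hr hs 0 2 0 0 0 (4/9) (by norm_num) (by norm_num))).2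
  have h4 := (abs_le.mp (mb ha hα hR hT hr hs 1 0 0 0 2 (1/36) (by norm_num) (by norm_num))).2
  have h5 := (abs_le.mp (mb ha hα hR hT hr hs 1 0 0 2 0 (1/36) (by norm_num) (by norm_num))).2
  have h6 := (abs_le.mp (mb ha hα hR hT hr hs 2 0 0 0 0 (4/9) (by norm_num) (by norm_num))).2
  have h7 := (abs_le.mp (mb ha hα hR hT hr hs 0 0 1 2 1 (1/216) (by norm_num) (by norm_num))).2
  have h8 := (abs_le.mp (mb ha hα hR hT hr hs 0 1 0 1 2 (1/216) (by norm_num) (by norm_num))).2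
  have h9 := (abs_le.mp (mb ha hα hR hT hr hs 0 1 0 3 0 (1/216) (by norm_num) (by norm_num))).1
  have h10 := (abs_le.mp (mb ha hα hR hT hr hs 1 0 1 0 1 (2/27) (by norm_num) (by norm_num))).2
  have h11 := (abs_le.mp (mb ha hα hR hT hr hs 1 1 0 1 0 (2/27) (by norm_num) (by norm_num))).1
  have h12 := (abs_le.mp (mr hr hs 6 0 (1/1296) (by norm_num) (by norm_num))).2
  have h13 := (abs_le.mp (mb ha hα hR hT hr hs 0 0 2 0 2 (1/81) (by norm_num) (by norm_num))).2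
  have h14 : 0 ≤ α^0*R^0*T^2*r^2*s^0 := by positivity
  have h15 := (abs_le.mp (mb ha hα hR hT hr hs 0 1 1 1 1 (1/81) (by norm_num) (by norm_num))).1
  have h16 : 0 ≤ α^0*R^2*T^0*r^0*s^2 := by positivity
  have h17 := (abs_le.mp (mb ha hα hR hT hr hs 0 2 0 2 0 (1/81) (by norm_num) (by norm_num))).2
  have h18 := (abs_le.mp (mb ha hα hR hT hr hs 1 0 0 2 2 (1/1296) (by norm_num) (by norm_num))).2
  have h19 := (abs_le.mp (mb ha hα hR hT hr hs 1 0 0 4 0 (1/1296) (by norm_num) (by norm_num))).2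
  have h20 : 0 ≤ α^1*R^0*T^2*r^0*s^0 := by positivity
  have h21 := (abs_le.mp (mb ha hα hR hT hr hs 1 2 0 0 0 (16/81) (by norm_num) (by norm_num))).2
  have h22 := (abs_le.mp (mb ha hα hR hT hr hs 2 0 0 2 0 (1/81) (by norm_num) (by norm_num))).2
  have h23 := (abs_le.mp (mb ha hα hR hT hr hs 3 0 0 0 0 (16/81) (by norm_num) (by norm_num))).2
  have h24 := (abs_le.mp (mb ha hα hR hT hr hs 0 0 1 4 1 (1/7776) (by norm_num) (by norm_num))).2
  have h25 := (abs_le.mp (mb ha hα hR hT hr hs 0 0 3 0 1 (8/243) (by norm_num) (by norm_num))).1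
  have h26 := (abs_le.mp (mb ha hα hR hT hr hs 0 1 0 3 2 (1/7776) (by norm_num) (by norm_num))).2
  have h27 := (abs_le.mp (mb ha hα hR hT hr hs 0 1 0 5 0 (1/7776) (by norm_num) (by norm_num))).1
  have h28 := (abs_le.mp (mb ha hα hR hT hr hs 0 1 2 1 0 (8/243) (by norm_num) (by norm_num))).2
  have h29 := (abs_le.mp (mb ha hα hR hT hr hs 0 2 1 0 1 (8/243) (by norm_num) (by norm_num))).2
  have h30 := (abs_le.mp (mb ha hα hR hT hr hs 0 3 0 1 0 (8/243) (by norm_num) (by norm_num))).1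
  have h31 := (abs_le.mp (mb ha hα hR hT hr hs 1 0 1 2 1 (1/486) (by norm_num) (by norm_num))).2
  have h32 := (abs_le.mp (mb ha hα hR hT hr hs 1 1 0 1 2 (1/486) (by norm_num) (by norm_num))).1
  have h33 := (abs_le.mp (mb ha hα hR hT hr hs 1 1 0 3 0 (1/486) (by norm_num) (by norm_num))).1
  have h34 := (abs_le.mp (mb ha hα hR hT hr hs 2 0 1 0 1 (8/243) (by norm_num) (by norm_num))).2
  have h35 := (abs_le.mp (mb ha hα hR hT hr hs 2 1 0 1 0 (8/243) (by norm_num) (by norm_num))).1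
  have h36 := (abs_le.mp (mr hr hs 8 0 (1/46656) (by norm_num) (by norm_num))).2
  have h37 := (abs_le.mp (mb ha hα hR hT hr hs 0 0 2 2 2 (1/2916) (by norm_num) (by norm_num))).2
  have h38 : 0 ≤ α^0*R^0*T^2*r^4*s^0 := by positivity
  have h39 := (abs_le.mp (mb ha hα hR hT hr hs 0 0 4 0 0 (64/729) (by norm_num) (by norm_num))).2
  have h40 := (abs_le.mp (mb ha hα hR hT hr hs 0 1 1 3 1 (1/2916) (by norm_num) (by norm_num))).1
  have h41 : 0 ≤ α^0*R^2*T^0*r^2*s^2 := by positivity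
  have h42 := (abs_le.mp (mb ha hα hR hT hr hs 0 2 0 4 0 (1/2916) (by norm_num) (by norm_num))).2
  have h43 : 0 ≤ α^0*R^2*T^2*r^0*s^0 := by positivity
  have h44 := (abs_le.mp (mb ha hα hR hT hr hs 0 4 0 0 0 (64/729) (by norm_num) (by norm_num))).2
  have h45 := (abs_le.mp (mb ha hα hR hT hr hs 1 0 0 4 2 (1/46656) (by norm_num) (by norm_num))).2
  have h46 := (abs_le.mp (mb ha hα hR hT hr hs 1 0 0 6 0 (1/46656) (by norm_num) (by norm_num))).2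
  have h47 := (abs_le.mp (mb ha hα hR hT hr hs 1 0 2 0 2 (4/729) (by norm_num) (by norm_num))).2
  have h48 : 0 ≤ α^1*R^0*T^2*r^2*s^0 := by positivity
  have h49 := (abs_le.mp (mb ha hα hR hT hr hs 1 1 1 1 1 (4/729) (by norm_num) (by norm_num))).1
  have h50 := (abs_le.mp (mb ha hα hR hT hr hs 1 2 0 0 2 (4/729) (by norm_num) (by norm_num))).2
  have h51 := (abs_le.mp (mb ha hα hR hT hr hs 1 2 0 2 0 (4/729) (by norm_num) (by norm_num))).2
  have h52 := (abs_le.mp (mb ha hα hR hT hr hs 2 0 0 4 0 (1/2916) (by norm_num) (by norm_num))).2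
  have h53 := (abs_le.mp (mb ha hα hR hT hr hs 2 0 2 0 0 (64/729) (by norm_num) (by norm_num))).2
  have h54 := (abs_le.mp (mb ha hα hR hT hr hs 2 2 0 0 0 (64/729) (by norm_num) (by norm_num))).2
  have h55 := (abs_le.mp (mb ha hα hR hT hr hs 3 0 0 2 0 (4/729) (by norm_num) (by norm_num))).2
  have h56 := (abs_le.mp (mb ha hα hR hT hr hs 4 0 0 0 0 (64/729) (by norm_num) (by norm_num))).2
  have h57 := (abs_le.mp (mb ha hα hR hT hr hs 0 0 1 6 1 (1/279936) (by norm_num) (by norm_num))).2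
  have h58 := (abs_le.mp (mb ha hα hR hT hr hs 0 0 3 2 1 (2/2187) (by norm_num) (by norm_num))).1
  have h59 := (abs_le.mp (mb ha hα hR hT hr hs 0 1 0 5 2 (1/279936) (by norm_num) (by norm_num))).2
  have h60 := (abs_le.mp (mb ha hα hR hT hr hs 0 1 0 7 0 (1/279936) (by norm_num) (by norm_num))).1
  have h61 := (abs_le.mp (mb ha hα hR hT hr hs 0 1 2 1 2 (2/2187) (by norm_num) (by norm_num))).1
  have h62 := (abs_le.mp (mb ha hα hR hT hr hs 0 1 2 3 0 (2/2187) (by norm_num) (by norm_num))).2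
  have h63 := (abs_le.mp (mb ha hα hR hT hr hs 0 2 1 2 1 (2/2187) (by norm_num) (by norm_num))).2
  have h64 := (abs_le.mp (mb ha hα hR hT hr hs 0 3 0 1 2 (2/2187) (by norm_num) (by norm_num))).2
  have h65 := (abs_le.mp (mb ha hα hR hT hr hs 0 3 0 3 0 (2/2187) (by norm_num) (by norm_num))).1
  have h66 := (abs_le.mp (mb ha hα hR hT hr hs 1 0 1 4 1 (1/17496) (by norm_num) (by norm_num))).2
  have h67 := (abs_le.mp (mb ha hα hR hT hr hs 1 0 3 0 1 (32/2187) (by norm_num) (by norm_num))).1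
  have h68 := (abs_le.mp (mb ha hα hR hT hr hs 1 1 0 3 2 (1/17496) (by norm_num) (by norm_num))).1
  have h69 := (abs_le.mp (mb ha hα hR hT hr hs 1 1 0 5 0 (1/17496) (by norm_num) (by norm_num))).1
  have h70 := (abs_le.mp (mb ha hα hR hT hr hs 1 1 2 1 0 (32/2187) (by norm_num) (by norm_num))).2
  have h71 := (abs_le.mp (mb ha hα hR hT hr hs 1 2 1 0 1 (32/2187) (by norm_num) (by norm_num))).2
  have h72 := (abs_le.mp (mb ha hα hR hT hr hs 1 3 0 1 0 (32/2187) (by norm_num) (by norm_num))).1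
  have h73 := (abs_le.mp (mb ha hα hR hT hr hs 2 0 1 2 1 (2/2187) (by norm_num) (by norm_num))).2
  have h74 := (abs_le.mp (mb ha hα hR hT hr hs 2 1 0 3 0 (2/2187) (by norm_num) (by norm_num))).1
  have h75 := (abs_le.mp (mb ha hα hR hT hr hs 3 1 0 1 0 (32/2187) (by norm_num) (by norm_num))).1
  have h76 := (abs_le.mp (mr hr hs 10 0 (1/1679616) (by norm_num) (by norm_num))).2
  have h77 := (abs_le.mp (mb ha hα hR hT hr hs 0 0 2 4 2 (1/104976) (by norm_num) (by norm_num))).2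
  have h78 : 0 ≤ α^0*R^0*T^2*r^6*s^0 := by positivity
  have h79 := (abs_le.mp (mb ha hα hR hT hr hs 0 0 4 2 0 (16/6561) (by norm_num) (by norm_num))).2
  have h80 := (abs_le.mp (mb ha hα hR hT hr hs 0 1 1 5 1 (1/104976) (by norm_num) (by norm_num))).1
  have h81 := (abs_le.mp (mb ha hα hR hT hr hs 0 1 3 1 1 (16/6561) (by norm_num) (by norm_num))).2
  have h82 : 0 ≤ α^0*R^2*T^0*r^4*s^2 := by positivity
  have h83 := (abs_le.mp (mb ha hα hR hT hr hs 0 2 0 6 0 (1/104976) (by norm_num) (by norm_num))).2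
  have h84 := (abs_le.mp (mb ha hα hR hT hr hs 0 2 2 0 2 (16/6561) (by norm_num) (by norm_num))).2
  have h85 : 0 ≤ α^0*R^2*T^2*r^2*s^0 := by positivity
  have h86 := (abs_le.mp (mb ha hα hR hT hr hs 0 3 1 1 1 (16/6561) (by norm_num) (by norm_num))).1
  have h87 := (abs_le.mp (mb ha hα hR hT hr hs 0 4 0 2 0 (16/6561) (by norm_num) (by norm_num))).2
  have h88 := (abs_le.mp (mb ha hα hR hT hr hs 1 0 0 6 2 (1/1679616) (by norm_num) (by norm_num))).2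
  have h89 := (abs_le.mp (mb ha hα hR hT hr hs 1 0 0 8 0 (1/1679616) (by norm_num) (by norm_num))).2
  have h90 := (abs_le.mp (mb ha hα hR hT hr hs 1 0 2 2 2 (1/6561) (by norm_num) (by norm_num))).2
  have h91 := (abs_le.mp (mb ha hα hR hT hr hs 1 0 2 4 0 (1/6561) (by norm_num) (by norm_num))).2
  have h92 := (abs_le.mp (mb ha hα hR hT hr hs 1 1 1 3 1 (1/6561) (by norm_num) (by norm_num))).1
  have h93 := (abs_le.mp (mb ha hα hR hT hr hs 1 2 0 2 2 (1/6561) (by norm_num) (by norm_num))).2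
  have h94 := (abs_le.mp (mb ha hα hR hT hr hs 1 2 0 4 0 (1/6561) (by norm_num) (by norm_num))).2
  have h95 := (abs_le.mp (mb ha hα hR hT hr hs 2 0 0 6 0 (1/104976) (by norm_num) (by norm_num))).2
  have h96 := (abs_le.mp (mb ha hα hR hT hr hs 2 0 2 2 0 (16/6561) (by norm_num) (by norm_num))).2
  have h97 := (abs_le.mp (mb ha hα hR hT hr hs 2 2 0 2 0 (16/6561) (by norm_num) (by norm_num))).2
  have h98 := (abs_le.mp (mb ha hα hR hT hr hs 3 0 0 4 0 (1/6561) (by norm_num) (by norm_num))).2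
  have h99 := (abs_le.mp (mb ha hα hR hT hr hs 3 0 2 0 0 (256/6561) (by norm_num) (by norm_num))).2
  have h100 := (abs_le.mp (mb ha hα hR hT hr hs 3 2 0 0 0 (256/6561) (by norm_num) (by norm_num))).2
  have hrr : 0 ≤ r^2 := sq_nonneg r
  linear_combination (8406177876029213/183666009600000000)*ha +
    (17117104709087/4199040000000)*hrr + (11/9)*h0 + (8477/10000)*h1 + (5/36)*h2 + (167/162)*h3 +
    (8/9)*h4 + (91/30)*h5 + (329/1296)*h6 + (217/100)*h7 + (8/15)*h8 + (1463/600)*h9 +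
    (14/81)*h10 + (3991/3240)*h11 + (6447/250000)*h12 + (13/81)*h13 + (67/270)*h14 + (83/81)*h15 +
    (4/81)*h16 + (4411/5400)*h17 + (2/15)*h18 + (763/3000)*h19 + (11/648)*h20 + (7/72)*h21 +
    (1577/10800)*h22 + (31/2916)*h23 + (623/9000)*h24 + (1/81)*h25 + (4/225)*h26 +
    (14749/225000)*h27 + (749/14580)*h28 + (89/2916)*h29 + (407/14580)*h30 + (1/45)*h31 +
    (8/405)*h32 + (1067/9000)*h33 + (17/5832)*h34 + (407/14580)*h35 + (10881/100000000)*h36 +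
    (13/1350)*h37 + (151/21600)*h38 + (1/11664)*h39 + (103/2700)*h40 + (2/675)*h41 +
    (70051/3240000)*h42 + (1/5832)*h43 + (1/11664)*h44 + (1/750)*h45 + (9611/4500000)*h46 +
    (1/1458)*h47 + (361/291600)*h48 + (13/1215)*h49 + (1/1458)*h50 + (1223/72900)*h51 +
    (17297/6480000)*h52 + (1/23328)*h53 + (29/23328)*h54 + (17/23328)*h55 + (1/1679616)*h56 +
    (917/4500000)*h57 + (31/36450)*h58 + (1/18750)*h59 + (8077/45000000)*h60 + (1/1215)*h61 +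
    (1231/729000)*h62 + (689/291600)*h63 + (1/7290)*h64 + (17/18225)*h65 + (11/81000)*h66 +
    (1/17496)*h67 + (2/10125)*h68 + (3701/5400000)*h69 + (1/1944)*h70 + (1/2916)*h71 +
    (13/43740)*h72 + (13/116640)*h73 + (2759/5832000)*h74 + (31/699840)*h75 + (1/25000000)*h76 +
    (13/810000)*h77 + (83/9000000)*h78 + (1/164025)*h79 + (113/2025000)*h80 + (1/65610)*h81 +
    (1/202500)*h82 + (7/250000)*h83 + (1/104976)*h84 + (2/164025)*h85 + (1/65610)*h86 +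
    (1/164025)*h87 + (1/1125000)*h88 + (589/450000000)*h89 + (1/145800)*h90 + (17/11664000)*h91 +
    (1/27000)*h92 + (1/145800)*h93 + (3001/58320000)*h94 + (1/375000)*h95 + (1/174960)*h96 +
    (13/699840)*h97 + (1/720000)*h98 + (1/839808)*h99 + (1/839808)*h100

end Pool.Agent.PLH
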