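import Pool.Agent.Lib_helper84.PLH.Group

/-!
Discrete pluriharmonic functions: processing all groups.
-/

set_option linter.unusedSectionVars false

namespace Pool.Agent.PLH

open Complex ComplexConjugate

variable {I M : Type*} [Fintype I] [DecidableEq I] [Fintype M] [DecidableEq M]

lemma Av_const' {W : Type*} [Fintype W] [Nonempty W] (a : ℝ) : Av (fun _ : W => a) = a := by
  unfold Av
  rw [Finset.sum_const, Finset.card_univ, nsmul_eq_mul]
  have : (Fintype.card W : ℝ) ≠ 0 := by
    have : 0 < Fintype.card W := Fintype.card_pos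
    positivity
  field_simp

lemma Av_splitB (i : M) (F : (M → Bool) → ℝ) :
    Av F = Av (fun e => 1/2 * F (Function.update e i false) +
      1/2 * F (Function.update e i true)) := by
  have h1 : ∑ p : (M → Bool) × Bool, F (Function.update p.1 i p.2) =
      ∑ p : (M → Bool) × Bool, F p.1 := by
    refine Fintype.sum_equiv
      ⟨fun p => (Function.update p.1 i p.2, p.1 i), fun p => (Function.update p.1 i p.2, p.1 i),
        fun p => ?_, fun p => ?_⟩ _ _ (fun p => rfl)
    · simp
    · simp
  rw [Fintype.sum_prod_type, Fintype.sum_prod_type] at h1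
  simp only [Finset.sum_const, Finset.card_univ, Fintype.card_bool,
    nsmul_eq_mul, Fintype.sum_bool] at h1
  unfold Av
  rw [Finset.sum_add_distrib] at h1
  rw [Finset.sum_add_distrib, ← Finset.mul_sum, ← Finset.mul_sum]
  rw [← Finset.mul_sum] at h1
  push_cast at h1
  have : ∑ x, F x = 1/2 * (∑ e, F (Function.update e i true) + ∑ e, F (Function.update e i false)) := by
    linarith
  rw [this]; ring

/-- processed family for a list of groups -/
noncomputable def ps (γ : I → M) (l : List M) (c : (M → Bool) → Finset I → ℂ) (e' : M → Bool) :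
    (M → Bool) → Finset I → ℂ := l.foldr (fun i c => pc γ i (e' i) c) c

lemma ps_update (γ : I → M) (l : List M) (c : (M → Bool) → Finset I → ℂ) (e' : M → Bool) {i : M}
    (hi : i ∉ l) (b : Bool) : ps γ l c (Function.update e' i b) = ps γ l c e' := by
  induction l with
  | nil => rfl
  | cons k l ih =>
    have hk : k ≠ i := by rintro rfl; exact hi (by simp)
    have hl : i ∉ l := fun h => hi (List.mem_cons_of_mem _ h)
    change pc γ k (Function.update e' i b k) (ps γ l c (Function.update e' i b)) =
      pc γ k (e' k) (ps γ l c e')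
    rw [ih hl, Function.update_of_ne hk]

lemma chainG (γ : I → M) (N : ((I → Bool × Bool) → ℂ) → ℝ)
    (hstep : ∀ (i : M) (c : (M → Bool) → Finset I → ℂ),
      1/2 * N (Hf γ (pc γ i false c)) + 1/2 * N (Hf γ (pc γ i true c)) ≤ N (Hf γ c))
    (l : List M) (hl : l.Nodup) (c : (M → Bool) → Finset I → ℂ) :
    Av (fun e' : M → Bool => N (Hf γ (ps γ l c e'))) ≤ N (Hf γ c) := by
  induction l with
  | nil => exact (Av_const' (W := M → Bool) (N (Hf γ c))).le
  | cons i l ih =>
    rw [List.nodup_cons] at hl
    refine le_trans ?_ (ih hl.2)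
    rw [Av_splitB i]
    apply Av_mono
    intro e'
    have h1 : ∀ b, ps γ (i :: l) c (Function.update e' i b) = pc γ i b (ps γ l c e') := by
      intro b
      change pc γ i (Function.update e' i b i) (ps γ l c (Function.update e' i b)) = _
      rw [ps_update γ l c e' hl.1, Function.update_self]
    rw [h1, h1]
    exact hstep i _

/-- formula for the processed family -/
lemma ps_eq (γ : I → M) (l : List M) (c : (M → Bool) → Finset I → ℂ) (e' e : M → Bool)
    (S : Finset I) : ps γ l c e' e S =
      if (∀ i ∈ l, i ∈ S.image γ → e i = e' i) then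
        (1/32 : ℂ) ^ (l.filter (fun i => i ∈ S.image γ)).length * c e S else 0 := by
  induction l with
  | nil => simp [ps]
  | cons i l ih =>
    change pc γ i (e' i) (ps γ l c e') e S = _
    unfold pc
    rw [ih]
    by_cases h : i ∈ S.image γ
    · by_cases h2 : e i = e' i
      · rw [if_pos h, if_pos h2]
        by_cases h3 : ∀ k ∈ l, k ∈ S.image γ → e k = e' k
        · rw [if_pos h3, if_pos]
          · rw [List.filter_cons_of_pos (by simpa using h), List.length_cons, pow_succ]; ring
          · intro k hk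
            rcases List.mem_cons.mp hk with rfl | hk'
            · exact fun _ => h2
            · exact h3 k hk'
        · rw [if_neg h3, if_neg, mul_zero]
          intro h4; exact h3 (fun k hk => h4 k (List.mem_cons_of_mem _ hk))
      · rw [if_pos h, if_neg h2, if_neg]
        intro h4; exact h2 (h4 i (by simp) h)
    · rw [if_neg h]
      by_cases h3 : ∀ k ∈ l, k ∈ S.image γ → e k = e' k
      · rw [if_pos h3, if_pos]
        · rw [List.filter_cons_of_neg (by simpa using h)]
        · intro k hk hk2
          rcases List.mem_cons.mp hk with rfl | hk'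
          · exact absurd hk2 h
          · exact h3 k hk' hk2
      · rw [if_neg h3, if_neg]
        intro h4; exact h3 (fun k hk => h4 k (List.mem_cons_of_mem _ hk))

/-- the part of a family at the set `S` -/
noncomputable def onl (S : Finset I) (c : (M → Bool) → Finset I → ℂ) :
    (M → Bool) → Finset I → ℂ := fun e T => if T = S then c e T else 0

lemma ps_onl (γ : I → M) (l : List M) (c : (M → Bool) → Finset I → ℂ) (e' : M → Bool)
    (S : Finset I) : onl S (ps γ l c e') = ps γ l (onl S c) e' := by
  funext e T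
  rw [ps_eq]
  unfold onl
  rw [ps_eq]
  by_cases h : T = S
  · simp [h]
  · simp [h]

lemma Hf_onl (γ : I → M) (c : (M → Bool) → Finset I → ℂ) (S : Finset I) (w : I → Bool × Bool) :
    Hf γ (onl S c) w = ∑ e, c e S * mon γ e S w := by
  unfold Hf onl
  apply Finset.sum_congr rfl; intro e _
  rw [Finset.sum_eq_single S]
  · simp
  · intro T _ hT; simp [hT]
  · simp

lemma Hf_sum_onl (γ : I → M) (c : (M → Bool) → Finset I → ℂ) (w : I → Bool × Bool) :
    Hf γ c w = ∑ S, Hf γ (onl S c) w := by
  simp_rw [Hf_onl]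
  unfold Hf
  rw [Finset.sum_comm]

lemma cross_zero (γ : I → M) (c : (M → Bool) → Finset I → ℂ) {S T : Finset I} {j : I}
    (hS : j ∈ S) (hT : j ∉ T) :
    Av (fun w => (Hf γ (onl S c) w * conj (Hf γ (onl T c) w)).re) = 0 := by
  rw [Av_swap j]
  have : (fun w => 1/4 * ∑ x, (Hf γ (onl S c) (Function.update w j x) *
      conj (Hf γ (onl T c) (Function.update w j x))).re) = fun _ => (0:ℝ) := by
    funext w
    have h1 : ∀ x, Hf γ (onl T c) (Function.update w j x) = Hf γ (onl T c) w := by
      intro x
      rw [Hf_onl, Hf_onl]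
      apply Finset.sum_congr rfl; intro e _
      rw [mon_update_notMem γ e hT]
    have h2 : ∑ x, Hf γ (onl S c) (Function.update w j x) = 0 := by
      simp_rw [Hf_onl, mon_update_mem γ _ hS]
      rw [Finset.sum_comm]
      apply Finset.sum_eq_zero; intro e _
      have : ∀ x, c e S * (zs (e (γ j)) x * mon γ e (S.erase j) w) =
          zs (e (γ j)) x * (c e S * mon γ e (S.erase j) w) := by intro x; ring
      simp_rw [this]
      rw [← Finset.sum_mul, sum_zs, zero_mul]
    simp_rw [h1]
    rw [← Complex.re_sum, ← Finset.sum_mul, h2]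
    simp
  rw [this]
  unfold Av; simp

lemma Av_sum {W K : Type*} [Fintype W] (s : Finset K) (F : K → W → ℝ) :
    Av (fun w => ∑ k ∈ s, F k w) = ∑ k ∈ s, Av (F k) := by
  unfold Av
  rw [Finset.sum_comm, Finset.mul_sum]

/-- orthogonality of different sets -/
lemma orthS (γ : I → M) (c : (M → Bool) → Finset I → ℂ) :
    Av (fun w => ‖Hf γ c w‖^2) = ∑ S, Av (fun w => ‖Hf γ (onl S c) w‖^2) := by
  have h1 : ∀ w, ‖Hf γ c w‖^2 =
      ∑ S, ∑ T, (Hf γ (onl S c) w * conj (Hf γ (onl T c) w)).re := by
    intro w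
    have : ((‖Hf γ c w‖^2 : ℝ) : ℂ) = Hf γ c w * conj (Hf γ c w) := by
      rw [Complex.mul_conj']; push_cast; rfl
    have h2 : ‖Hf γ c w‖^2 = (Hf γ c w * conj (Hf γ c w)).re := by
      rw [← this, Complex.ofReal_re]
    rw [h2, Hf_sum_onl γ c w, map_sum, Finset.sum_mul_sum, Complex.re_sum]
    apply Finset.sum_congr rfl; intro S _
    rw [Complex.re_sum]
  simp_rw [h1]
  rw [Av_sum]
  apply Finset.sum_congr rfl; intro S _
  rw [Av_sum, Finset.sum_eq_single S]
  · congr 1; funext w
    rw [Complex.mul_conj', ← Complex.ofReal_pow, Complex.ofReal_re]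
  · intro T _ hT
    have : ∃ j, (j ∈ S ∧ j ∉ T) ∨ (j ∈ T ∧ j ∉ S) := by
      by_contra hcon
      push Not at hcon
      exact hT (Finset.ext fun j => ⟨fun h => (hcon j).2 h, fun h => (hcon j).1 h⟩)
    obtain ⟨j, ⟨h1, h2⟩ | ⟨h1, h2⟩⟩ := this
    · exact cross_zero γ c h1 h2
    · have h3 := cross_zero γ c h1 h2
      rw [← h3]
      congr 1; funext w
      rw [← Complex.conj_re, map_mul, Complex.conj_conj, mul_comm]
  · simp

/-- one step for the part at `S` -/
lemma step2 (γ : I → M) (i : M) (S : Finset I) (c : (M → Bool) → Finset I → ℂ)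
    (hc : ∀ e T, T ≠ S → c e T = 0) :
    1/2 * Av (fun w => ‖Hf γ (pc γ i false c) w‖^2) + 1/2 * Av (fun w => ‖Hf γ (pc γ i true c) w‖^2)
      = (if i ∈ S.image γ then (1/2048 : ℝ) else 1) * Av (fun w => ‖Hf γ c w‖^2) := by
  by_cases h : i ∈ S.image γ
  · rw [if_pos h]
    have h0 : ∀ w, Hf γ (c0 γ i c) w = 0 := by
      intro w
      unfold Hf
      apply Finset.sum_eq_zero; intro e _
      apply Finset.sum_eq_zero; intro T _
      by_cases hT : T = S
      · rw [hT]; simp [c0, h]
      · simp [c0, hc e T hT]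
    simp_rw [Hf_pc, Hf_split γ i c, h0, zero_add]
    have o := orth2 (grp γ i c) (fun _ => 1) (fun j hj w x => rfl)
    simp only [one_mul] at o
    rw [o]
    have n : ∀ z : ℂ, ‖(1/32) * z‖^2 = 1/1024 * ‖z‖^2 := by
      intro z
      rw [norm_mul]
      have : ‖(1/32 : ℂ)‖ = 1/32 := by norm_num
      rw [this]; ring
    simp_rw [n]
    rw [Av_mul, Av_mul]; ring
  · rw [if_neg h]
    have : ∀ b, pc γ i b c = c := by
      intro b
      funext e T
      unfold pc
      by_cases hT : T = S
      · rw [hT, if_neg h]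
      · rw [hc e T hT]; simp
    rw [this, this]; ring

lemma ps_supp (γ : I → M) (l : List M) (S : Finset I) (c : (M → Bool) → Finset I → ℂ)
    (hc : ∀ e T, T ≠ S → c e T = 0) (e' : M → Bool) : ∀ e T, T ≠ S → ps γ l c e' e T = 0 := by
  intro e T hT
  rw [ps_eq, hc e T hT]; simp

lemma chain2 (γ : I → M) (S : Finset I) (l : List M) (hl : l.Nodup)
    (c : (M → Bool) → Finset I → ℂ) (hc : ∀ e T, T ≠ S → c e T = 0) :
    Av (fun e' : M → Bool => Av (fun w => ‖Hf γ (ps γ l c e') w‖^2)) =
      (1/2048 : ℝ) ^ (l.filter (fun i => i ∈ S.image γ)).length *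
        Av (fun w => ‖Hf γ c w‖^2) := by
  induction l with
  | nil =>
    have h := Av_const' (W := M → Bool) (Av (fun w => ‖Hf γ c w‖^2))
    simp only [List.filter_nil, List.length_nil, pow_zero, one_mul]
    exact h
  | cons i l ih =>
    rw [List.nodup_cons] at hl
    rw [Av_splitB i]
    have h1 : ∀ e' : M → Bool, ∀ b, ps γ (i :: l) c (Function.update e' i b) =
        pc γ i b (ps γ l c e') := by
      intro e' b
      change pc γ i (Function.update e' i b i) (ps γ l c (Function.update e' i b)) = _
      rw [ps_update γ l c e' hl.1, Function.update_self]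
    simp_rw [h1]
    have h2 : ∀ e' : M → Bool, 1/2 * Av (fun w => ‖Hf γ (pc γ i false (ps γ l c e')) w‖^2) +
        1/2 * Av (fun w => ‖Hf γ (pc γ i true (ps γ l c e')) w‖^2) =
        (if i ∈ S.image γ then (1/2048 : ℝ) else 1) * Av (fun w => ‖Hf γ (ps γ l c e') w‖^2) :=
      fun e' => step2 γ i S _ (ps_supp γ l S c hc e')
    simp_rw [h2]
    rw [Av_mul, ih hl.2]
    by_cases h : i ∈ S.image γ
    · rw [if_pos h, List.filter_cons_of_pos (by simpa using h), List.length_cons, pow_succ]; ring
    · rw [if_neg h, List.filter_cons_of_neg (by simpa using h)]; ring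

/-- lower bound for the mean square after processing -/
theorem lower2 (γ : I → M) (l : List M) (hl : l.Nodup) (k : ℕ)
    (c : (M → Bool) → Finset I → ℂ)
    (hk : ∀ e S, c e S ≠ 0 → (l.filter (fun i => i ∈ S.image γ)).length ≤ k) :
    Av (fun w => ‖Hf γ c w‖^2) ≤
      2048 ^ k * Av (fun e' : M → Bool => Av (fun w => ‖Hf γ (ps γ l c e') w‖^2)) := by
  have h1 : Av (fun e' : M → Bool => Av (fun w => ‖Hf γ (ps γ l c e') w‖^2)) =
      ∑ S, Av (fun e' : M → Bool => Av (fun w => ‖Hf γ (ps γ l (onl S c) e') w‖^2)) := by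
    rw [← Av_sum]
    congr 1; funext e'
    rw [orthS]
    apply Finset.sum_congr rfl; intro S _
    rw [ps_onl]
  rw [h1, orthS, Finset.mul_sum]
  apply Finset.sum_le_sum
  intro S _
  have hc : ∀ e T, T ≠ S → onl S c e T = 0 := by
    intro e T hT; unfold onl; rw [if_neg hT]
  rw [chain2 γ S l hl (onl S c) hc]
  have hA : 0 ≤ Av (fun w => ‖Hf γ (onl S c) w‖^2) := Av_nonneg fun w => by positivity
  by_cases h : ∃ e, c e S ≠ 0
  · obtain ⟨e, he⟩ := h
    have hle := hk e S he
    have h3 : (1:ℝ) ≤ 2048 ^ k * (1/2048 : ℝ) ^ (l.filter (fun i => i ∈ S.image γ)).length := by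
      rw [one_div, inv_pow, ← div_eq_mul_inv, one_le_div (by positivity)]
      exact pow_le_pow_right₀ (by norm_num) hle
    nlinarith
  · push Not at h
    have : ∀ w, Hf γ (onl S c) w = 0 := by
      intro w
      rw [Hf_onl]
      apply Finset.sum_eq_zero; intro e _
      rw [h e, zero_mul]
    simp_rw [this]
    have hz : Av (fun _ : I → Bool × Bool => ‖(0:ℂ)‖^2) = 0 := by unfold Av; simp
    rw [hz]; simp

end Pool.Agent.PLH
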