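import Pool.Agent.Lib_helper84.PLH.Proc
import Pool.Agent.Lib_helper31.GPL.Junta
import Pool.Agent.Lib_helper49.Pluri.Ends

/-!
Discrete pluriharmonic functions: comparison of the first and the second moment for bounded
functions which are pluriharmonic in groups of variables.
-/

set_option linter.unusedSectionVars false

namespace Pool.Agent.PLH

open Complex ComplexConjugate

variable {I M : Type*} [Fintype I] [DecidableEq I] [Fintype M] [DecidableEq M]

lemma zs_true (x : Bool × Bool) : zs true x = zt x.swap := by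
  obtain ⟨a, b⟩ := x
  cases a <;> cases b <;> simp [zs, zt]

/-- swapping the letters of the groups with sign -/
def sw (γ : I → M) (e : M → Bool) (w : I → Bool × Bool) : I → Bool × Bool :=
  fun j => if e (γ j) then (w j).swap else w j

lemma sw_sw (γ : I → M) (e : M → Bool) (w : I → Bool × Bool) : sw γ e (sw γ e w) = w := by
  funext j
  unfold sw
  by_cases h : e (γ j) = true
  · simp [h]
  · simp [h]

lemma Av_sw (γ : I → M) (e : M → Bool) (F : (I → Bool × Bool) → ℝ) :
    Av (fun w => F (sw γ e w)) = Av F := by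
  unfold Av
  congr 1
  exact Fintype.sum_equiv ⟨sw γ e, sw γ e, sw_sw γ e, sw_sw γ e⟩ _ _ (fun w => rfl)

lemma mon_sw (γ : I → M) (e : M → Bool) (S : Finset I) (w : I → Bool × Bool) :
    mon γ e S w = ∏ j ∈ S, zt (sw γ e w j) := by
  unfold mon
  apply Finset.prod_congr rfl
  intro j _
  unfold sw
  cases h : e (γ j)
  · simp [zs]
  · simp [zs_true]

/-- Parseval -/
lemma pars (s : Finset I) : ∀ c : Finset I → ℂ,
    Av (fun w => ‖pv s c w‖^2) = ∑ S ∈ s.powerset, ‖c S‖^2 := by
  induction s using Finset.induction_on with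
  | empty =>
    intro c
    have e1 : ∀ w : I → Bool × Bool, pv ∅ c w = c ∅ := by intro w; unfold pv; simp
    simp_rw [e1]
    rw [Av_const]; simp
  | insert j s hj ih =>
    intro c
    rw [Av_pv hj c (fun z => ‖z‖^2), Finset.sum_powerset_insert hj, ← ih, ← ih,
      ← Av_add, ← Av_sum Finset.univ, ← Av_mul]
    congr 1; funext w
    rw [sumQ]
    simp only [zt, ← Complex.normSq_eq_norm_sq, Complex.normSq_apply]
    simp only [Complex.add_re, Complex.add_im, Complex.mul_re, Complex.mul_im, Complex.one_re,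
      Complex.one_im, Complex.I_re, Complex.I_im, Complex.neg_re, Complex.neg_im]
    ring

/-- the collected coefficients after processing -/
noncomputable def aS (γ : I → M) (l : List M) (c : (M → Bool) → Finset I → ℂ) (e' : M → Bool)
    (S : Finset I) : ℂ := ∑ e, ps γ l c e' e S

lemma Hf_processed (γ : I → M) (l : List M) (c : (M → Bool) → Finset I → ℂ) (e' e'' : M → Bool)
    (h : ∀ e S, ps γ l c e' e S ≠ 0 → ∀ i ∈ S.image γ, e i = e'' i) (w : I → Bool × Bool) :
    Hf γ (ps γ l c e') w = pv Finset.univ (aS γ l c e') (sw γ e'' w) := by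
  unfold Hf pv aS
  rw [Finset.sum_comm, Finset.powerset_univ]
  apply Finset.sum_congr rfl; intro S _
  rw [Finset.sum_mul]
  apply Finset.sum_congr rfl; intro e _
  by_cases h0 : ps γ l c e' e S = 0
  · rw [h0]; simp
  · congr 1
    rw [← mon_sw]
    unfold mon
    apply Finset.prod_congr rfl; intro j hj
    rw [h e S h0 (γ j) (Finset.mem_image_of_mem γ hj)]

/-- **Comparison of the first and second moment.** -/
theorem s4f (γ : I → M) (k : ℕ) (i0 : M) (c : (M → Bool) → Finset I → ℂ)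
    (h1 : ∀ e S, c e S ≠ 0 → i0 ∈ S.image γ → e i0 = false)
    (h2 : ∀ e S, c e S ≠ 0 → ((S.image γ).erase i0).card ≤ k)
    (hb : ∀ w, ‖Hf γ c w‖ ≤ 1) :
    (Av fun w => ‖Hf γ c w‖^2) ^ (19/20 : ℝ) ≤ 2 ^ (20 * k) * Av fun w => ‖Hf γ c w‖ := by
  obtain ⟨l, hl⟩ : ∃ l : List M, l = (Finset.univ.erase i0).toList := ⟨_, rfl⟩
  have hnd : l.Nodup := by rw [hl]; exact Finset.nodup_toList _
  have hmem : ∀ i, i ∈ l ↔ i ≠ i0 := by
    intro i; rw [hl, Finset.mem_toList, Finset.mem_erase]; simp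
  -- the number of processed groups met by S
  have hcount : ∀ S : Finset I, (l.filter (fun i => i ∈ S.image γ)).length =
      ((S.image γ).erase i0).card := by
    intro S
    rw [← List.toFinset_card_of_nodup (hnd.filter _)]
    congr 1
    ext i
    rw [List.mem_toFinset, List.mem_filter, hmem, Finset.mem_erase]
    simp
  have hk : ∀ e S, c e S ≠ 0 → (l.filter (fun i => i ∈ S.image γ)).length ≤ k := by
    intro e S h; rw [hcount]; exact h2 e S h
  -- processed functions
  have hproc : ∀ e' w, Hf γ (ps γ l c e') w =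
      pv Finset.univ (aS γ l c e') (sw γ (fun i => if i = i0 then false else e' i) w) := by
    intro e' w
    apply Hf_processed
    intro e S hne i hi
    rw [ps_eq] at hne
    by_cases hcond : ∀ i ∈ l, i ∈ S.image γ → e i = e' i
    · rw [if_pos hcond] at hne
      have hc : c e S ≠ 0 := right_ne_zero_of_mul hne
      by_cases hi0 : i = i0
      · rw [hi0]; simp only [if_true]
        exact h1 e S hc (hi0 ▸ hi)
      · simp only [hi0, if_false]
        exact hcond i ((hmem i).mpr hi0) hi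
    · rw [if_neg hcond] at hne; exact absurd rfl hne
  -- the moments
  set X : (M → Bool) → ℝ := fun e' => Av fun w => ‖Hf γ (ps γ l c e') w‖^2 with hX
  set a : (M → Bool) → ℝ := fun e' => Av fun w => ‖Hf γ (ps γ l c e') w‖^(9/7 : ℝ) with ha
  set b : (M → Bool) → ℝ := fun e' => Av fun w => ‖Hf γ (ps γ l c e') w‖^4 with hb'
  have eX : ∀ e', X e' = ∑ S, ‖aS γ l c e' S‖^2 := by
    intro e'
    simp only [hX]
    simp_rw [hproc]
    rw [Av_sw γ _ (fun w => ‖pv Finset.univ (aS γ l c e') w‖^2), pars, Finset.powerset_univ]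
  have hXab : ∀ e', X e' ≤ a e' ^ (7/9 : ℝ) * b e' ^ (1/4 : ℝ) := by
    intro e'
    have hq := bq Finset.univ (aS γ l c e') (aS γ l c e')
    have hip : ‖ip Finset.univ (aS γ l c e') (aS γ l c e')‖ = X e' := by
      rw [eX]
      have : ip Finset.univ (aS γ l c e') (aS γ l c e') = ((∑ S, ‖aS γ l c e' S‖^2 : ℝ) : ℂ) := by
        unfold ip
        rw [Finset.powerset_univ]
        push_cast
        apply Finset.sum_congr rfl; intro S _
        rw [Complex.mul_conj']
      rw [this, Complex.norm_real, Real.norm_eq_abs, abs_of_nonneg (by positivity)]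
    rw [hip] at hq
    simp only [ha, hb']
    simp_rw [hproc]
    rw [Av_sw γ _ (fun w => ‖pv Finset.univ (aS γ l c e') w‖^(9/7 : ℝ)),
      Av_sw γ _ (fun w => ‖pv Finset.univ (aS γ l c e') w‖^4)]
    exact hq
  -- Av = avg
  have hav : ∀ F : (M → Bool) → ℝ, Lib_helper49.Pluri.avg F = Av F := by
    intro F
    unfold Lib_helper49.Pluri.avg Av
    rw [div_eq_inv_mul]
  have hXa0 : ∀ e', 0 ≤ X e' := fun e' => Av_nonneg fun w => by positivity
  have ha0 : ∀ e', 0 ≤ a e' := fun e' => Av_nonneg fun w => by positivity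
  have hb0 : ∀ e', 0 ≤ b e' := fun e' => Av_nonneg fun w => by positivity
  have hjunta : ∀ e', X e' ≤ 2 ^ k * Lib_helper49.Pluri.avg X := by
    intro e'
    rw [hav]
    have e1 : Av X = ∑ S, Av (fun e'' => ‖aS γ l c e'' S‖^2) := by
      rw [← Av_sum]
      congr 1; funext e''; exact eX e''
    rw [eX, e1, Finset.mul_sum]
    apply Finset.sum_le_sum
    intro S _
    by_cases h : ∃ e, c e S ≠ 0
    · obtain ⟨e, he⟩ := h
      have hj := Lib_helper31.GPL.junta_le ((S.image γ).erase i0)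
        (fun e'' => ‖aS γ l c e'' S‖^2) (fun e'' => by positivity) (by
          intro e1 e2 h12
          have : aS γ l c e1 S = aS γ l c e2 S := by
            unfold aS
            apply Finset.sum_congr rfl; intro e _
            rw [ps_eq, ps_eq]
            have hiff : (∀ i ∈ l, i ∈ S.image γ → e i = e1 i) ↔
                (∀ i ∈ l, i ∈ S.image γ → e i = e2 i) := by
              constructor
              · intro h i hi hi2
                rw [h i hi hi2]
                exact h12 i (Finset.mem_erase.mpr ⟨(hmem i).mp hi, hi2⟩)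
              · intro h i hi hi2
                rw [h i hi hi2]
                exact (h12 i (Finset.mem_erase.mpr ⟨(hmem i).mp hi, hi2⟩)).symm
            by_cases hc : ∀ i ∈ l, i ∈ S.image γ → e i = e1 i
            · rw [if_pos hc, if_pos (hiff.mp hc)]
            · rw [if_neg hc, if_neg (fun h => hc (hiff.mpr h))]
          simp only [this]) e'
      refine hj.trans ?_
      have hle : (2:ℝ) ^ ((S.image γ).erase i0).card ≤ 2 ^ k :=
        pow_le_pow_right₀ (by norm_num) (h2 e S he)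
      have h0 : 0 ≤ Av (fun e'' : M → Bool => ‖aS γ l c e'' S‖^2) :=
        Av_nonneg fun w => by positivity
      exact mul_le_mul_of_nonneg_right hle h0
    · push Not at h
      have hz : ∀ e'', aS γ l c e'' S = 0 := by
        intro e''
        unfold aS
        apply Finset.sum_eq_zero; intro e _
        rw [ps_eq, h e]; simp
      simp_rw [hz]
      have : Av (fun _ : M → Bool => ‖(0:ℂ)‖^2) = 0 := by unfold Av; simp
      rw [this]; simp
  have hP := chainG γ (fun F => Av fun w => ‖F w‖^(9/7 : ℝ)) (fun i c => step97 γ i c) l hnd c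
  have hR := chainG γ (fun F => Av fun w => ‖F w‖^4) (fun i c => step4 γ i c) l hnd c
  have h36 := Lib_helper49.Pluri.junta36 X a b hXa0 ha0 hb0 k
    (Av fun w => ‖Hf γ c w‖^(9/7 : ℝ)) (Av fun w => ‖Hf γ c w‖^4) hXab
    (by rw [hav]; exact hP) (by rw [hav]; exact hR) hjunta
  have hth0 : 0 ≤ Av fun w => ‖Hf γ c w‖^2 := Av_nonneg fun w => by positivity
  have hX10 : 0 ≤ Av fun w => ‖Hf γ c w‖ := Av_nonneg fun w => norm_nonneg _
  have hP0 : 0 ≤ Av fun w => ‖Hf γ c w‖^(9/7 : ℝ) := Av_nonneg fun w => by positivity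
  have hR0 : 0 ≤ Av fun w => ‖Hf γ c w‖^4 := Av_nonneg fun w => by positivity
  -- Hoelder
  have hPle : (Av fun w => ‖Hf γ c w‖^(9/7 : ℝ)) ≤
      (Av fun w => ‖Hf γ c w‖) ^ (5/7 : ℝ) * (Av fun w => ‖Hf γ c w‖^2) ^ (2/7 : ℝ) := by
    have hpq : Real.HolderConjugate (7/5) (7/2) := by
      rw [Real.holderConjugate_iff]; norm_num
    have hh := Real.inner_le_Lp_mul_Lq_of_nonneg (Finset.univ : Finset (I → Bool × Bool)) hpq
      (f := fun w => ‖Hf γ c w‖ ^ (5/7 : ℝ)) (g := fun w => (‖Hf γ c w‖^2) ^ (2/7 : ℝ))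
      (fun w _ => by positivity) (fun w _ => by positivity)
    have e1 : ∀ w, (‖Hf γ c w‖ ^ (5/7 : ℝ)) ^ (7/5 : ℝ) = ‖Hf γ c w‖ := by
      intro w; rw [← Real.rpow_mul (norm_nonneg _)]; norm_num
    have e2 : ∀ w, ((‖Hf γ c w‖^2) ^ (2/7 : ℝ)) ^ (7/2 : ℝ) = ‖Hf γ c w‖^2 := by
      intro w; rw [← Real.rpow_mul (by positivity)]; norm_num
    have e3 : ∀ w, ‖Hf γ c w‖ ^ (5/7 : ℝ) * (‖Hf γ c w‖^2) ^ (2/7 : ℝ) =
        ‖Hf γ c w‖ ^ (9/7 : ℝ) := by
      intro w
      rw [← Real.rpow_natCast, ← Real.rpow_mul (norm_nonneg _),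
        ← Real.rpow_add_of_nonneg (norm_nonneg _) (by norm_num) (by norm_num)]
      norm_num
    simp only [e1, e2, e3] at hh
    have e4 : (1 / (7/5) : ℝ) = 5/7 := by norm_num
    have e5 : (1 / (7/2) : ℝ) = 2/7 := by norm_num
    rw [e4, e5] at hh
    have hc : (0:ℝ) < (Fintype.card (I → Bool × Bool) : ℝ) := by
      exact_mod_cast Fintype.card_pos
    have hs1 : 0 ≤ ∑ w, ‖Hf γ c w‖ := Finset.sum_nonneg fun w _ => norm_nonneg _
    have hs2 : 0 ≤ ∑ w, ‖Hf γ c w‖^2 := Finset.sum_nonneg fun w _ => by positivity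
    unfold Av
    rw [Real.mul_rpow (by positivity) hs1, Real.mul_rpow (by positivity) hs2]
    have e6 : ((Fintype.card (I → Bool × Bool) : ℝ)⁻¹) ^ (5/7 : ℝ) *
        ((Fintype.card (I → Bool × Bool) : ℝ)⁻¹) ^ (2/7 : ℝ) =
        (Fintype.card (I → Bool × Bool) : ℝ)⁻¹ := by
      rw [← Real.rpow_add (by positivity)]; norm_num
    calc (Fintype.card (I → Bool × Bool) : ℝ)⁻¹ * ∑ w, ‖Hf γ c w‖^(9/7 : ℝ)
        ≤ (Fintype.card (I → Bool × Bool) : ℝ)⁻¹ * ((∑ w, ‖Hf γ c w‖) ^ (5/7 : ℝ) *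
          (∑ w, ‖Hf γ c w‖^2) ^ (2/7 : ℝ)) := by gcongr
      _ = (((Fintype.card (I → Bool × Bool) : ℝ)⁻¹) ^ (5/7 : ℝ) *
        ((Fintype.card (I → Bool × Bool) : ℝ)⁻¹) ^ (2/7 : ℝ)) *
          ((∑ w, ‖Hf γ c w‖) ^ (5/7 : ℝ) * (∑ w, ‖Hf γ c w‖^2) ^ (2/7 : ℝ)) := by rw [e6]
      _ = _ := by ring
  have hRle : (Av fun w => ‖Hf γ c w‖^4) ≤ Av fun w => ‖Hf γ c w‖^2 := by
    apply Av_mono
    intro w
    have h3 := hb w
    have h4 : 0 ≤ ‖Hf γ c w‖ := norm_nonneg _
    have h5 : ‖Hf γ c w‖^2 ≤ 1 := by nlinarith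
    nlinarith [sq_nonneg (‖Hf γ c w‖)]
  have hlow := lower2 γ l hnd k c hk
  have hEX : (1 / 2 ^ 11) ^ k * (Av fun w => ‖Hf γ c w‖^2) ≤ Lib_helper49.Pluri.avg X := by
    rw [hav]
    have e1 : ((1:ℝ) / 2 ^ 11) ^ k * 2048 ^ k = 1 := by
      rw [← mul_pow]; norm_num
    calc (1 / 2 ^ 11) ^ k * (Av fun w => ‖Hf γ c w‖^2)
        ≤ (1 / 2 ^ 11) ^ k * (2048 ^ k * Av X) := by gcongr
      _ = ((1 / 2 ^ 11) ^ k * 2048 ^ k) * Av X := by ring
      _ = Av X := by rw [e1, one_mul]
  exact Lib_helper49.Pluri.end20 hth0 hX10 hP0 hR0 k h36 hRle hPle hEX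

end Pool.Agent.PLH
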