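import Pool.Agent.Lib_helper84.PLH.S4W

/-!
Discrete pluriharmonic functions: the part of the second moment on the monomials which meet few
groups, for bounded functions which are pluriharmonic in groups of variables.
-/

set_option linter.unusedSectionVars false

namespace Pool.Agent.PLH

open Complex ComplexConjugate

variable {I M : Type*} [Fintype I] [DecidableEq I] [Fintype M] [DecidableEq M]

/-- Hoelder between the moments 1, 9/7, 2 -/
lemma holder97 (F : (I → Bool × Bool) → ℂ) :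
    (Av fun w => ‖F w‖^(9/7 : ℝ)) ≤
      (Av fun w => ‖F w‖) ^ (5/7 : ℝ) * (Av fun w => ‖F w‖^2) ^ (2/7 : ℝ) := by
  have hpq : Real.HolderConjugate (7/5) (7/2) := by
    rw [Real.holderConjugate_iff]; norm_num
  have hh := Real.inner_le_Lp_mul_Lq_of_nonneg (Finset.univ : Finset (I → Bool × Bool)) hpq
    (f := fun w => ‖F w‖ ^ (5/7 : ℝ)) (g := fun w => (‖F w‖^2) ^ (2/7 : ℝ))
    (fun w _ => by positivity) (fun w _ => by positivity)
  have e1 : ∀ w, (‖F w‖ ^ (5/7 : ℝ)) ^ (7/5 : ℝ) = ‖F w‖ := by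
    intro w; rw [← Real.rpow_mul (norm_nonneg _)]; norm_num
  have e2 : ∀ w, ((‖F w‖^2) ^ (2/7 : ℝ)) ^ (7/2 : ℝ) = ‖F w‖^2 := by
    intro w; rw [← Real.rpow_mul (by positivity)]; norm_num
  have e3 : ∀ w, ‖F w‖ ^ (5/7 : ℝ) * (‖F w‖^2) ^ (2/7 : ℝ) = ‖F w‖ ^ (9/7 : ℝ) := by
    intro w
    rw [← Real.rpow_natCast, ← Real.rpow_mul (norm_nonneg _),
      ← Real.rpow_add_of_nonneg (norm_nonneg _) (by norm_num) (by norm_num)]
    norm_num
  simp only [e1, e2, e3] at hh
  have e4 : (1 / (7/5) : ℝ) = 5/7 := by norm_num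
  have e5 : (1 / (7/2) : ℝ) = 2/7 := by norm_num
  rw [e4, e5] at hh
  have hc : (0:ℝ) < (Fintype.card (I → Bool × Bool) : ℝ) := by
    exact_mod_cast Fintype.card_pos
  have hs1 : 0 ≤ ∑ w, ‖F w‖ := Finset.sum_nonneg fun w _ => norm_nonneg _
  have hs2 : 0 ≤ ∑ w, ‖F w‖^2 := Finset.sum_nonneg fun w _ => by positivity
  unfold Av
  rw [Real.mul_rpow (by positivity) hs1, Real.mul_rpow (by positivity) hs2]
  have e6 : ((Fintype.card (I → Bool × Bool) : ℝ)⁻¹) ^ (5/7 : ℝ) *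
      ((Fintype.card (I → Bool × Bool) : ℝ)⁻¹) ^ (2/7 : ℝ) =
      (Fintype.card (I → Bool × Bool) : ℝ)⁻¹ := by
    rw [← Real.rpow_add (by positivity)]; norm_num
  calc (Fintype.card (I → Bool × Bool) : ℝ)⁻¹ * ∑ w, ‖F w‖^(9/7 : ℝ)
      ≤ (Fintype.card (I → Bool × Bool) : ℝ)⁻¹ * ((∑ w, ‖F w‖) ^ (5/7 : ℝ) *
        (∑ w, ‖F w‖^2) ^ (2/7 : ℝ)) := by gcongr
    _ = (((Fintype.card (I → Bool × Bool) : ℝ)⁻¹) ^ (5/7 : ℝ) *
      ((Fintype.card (I → Bool × Bool) : ℝ)⁻¹) ^ (2/7 : ℝ)) *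
        ((∑ w, ‖F w‖) ^ (5/7 : ℝ) * (∑ w, ‖F w‖^2) ^ (2/7 : ℝ)) := by rw [e6]
    _ = _ := by ring

/-- the processed functions, as analytic functions in swapped letters -/
lemma hf_ps (γ : I → M) (i0 : M) (l : List M) (hmem : ∀ i, i ∈ l ↔ i ≠ i0)
    (c : (M → Bool) → Finset I → ℂ)
    (h1 : ∀ e S, c e S ≠ 0 → i0 ∈ S.image γ → e i0 = false) (e' : M → Bool)
    (w : I → Bool × Bool) : Hf γ (ps γ l c e') w =
      pv Finset.univ (aS γ l c e') (sw γ (fun i => if i = i0 then false else e' i) w) := by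
  apply Hf_processed
  intro e S hne i hi
  rw [ps_eq] at hne
  by_cases hcond : ∀ i ∈ l, i ∈ S.image γ → e i = e' i
  · rw [if_pos hcond] at hne
    have hc : c e S ≠ 0 := right_ne_zero_of_mul hne
    by_cases hi0 : i = i0
    · rw [hi0]; simp only [if_true]
      exact h1 e S hc (hi0 ▸ hi)
    · simp only [hi0, if_false]
      exact hcond i ((hmem i).mpr hi0) hi
  · rw [if_neg hcond] at hne; exact absurd rfl hne

/-- the mean square of a processed function -/
lemma sq_ps (γ : I → M) (i0 : M) (l : List M) (hmem : ∀ i, i ∈ l ↔ i ≠ i0)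
    (c : (M → Bool) → Finset I → ℂ)
    (h1 : ∀ e S, c e S ≠ 0 → i0 ∈ S.image γ → e i0 = false) (e' : M → Bool) :
    (Av fun w => ‖Hf γ (ps γ l c e') w‖^2) = ∑ S, ‖aS γ l c e' S‖^2 := by
  simp_rw [hf_ps γ i0 l hmem c h1]
  rw [Av_sw γ _ (fun w => ‖pv Finset.univ (aS γ l c e') w‖^2), pars, Finset.powerset_univ]

/-- (BQ) for the processed functions -/
lemma bq_ps (γ : I → M) (i0 : M) (l : List M) (hmem : ∀ i, i ∈ l ↔ i ≠ i0)
    (c : (M → Bool) → Finset I → ℂ)
    (h1 : ∀ e S, c e S ≠ 0 → i0 ∈ S.image γ → e i0 = false) (e' : M → Bool) :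
    ∑ S, ‖aS γ l c e' S‖^2 ≤ (Av fun w => ‖Hf γ (ps γ l c e') w‖^(9/7 : ℝ)) ^ (7/9 : ℝ) *
      (Av fun w => ‖Hf γ (ps γ l c e') w‖^4) ^ (1/4 : ℝ) := by
  have hq := bq Finset.univ (aS γ l c e') (aS γ l c e')
  have hip : ‖ip Finset.univ (aS γ l c e') (aS γ l c e')‖ = ∑ S, ‖aS γ l c e' S‖^2 := by
    have : ip Finset.univ (aS γ l c e') (aS γ l c e') = ((∑ S, ‖aS γ l c e' S‖^2 : ℝ) : ℂ) := by
      unfold ip
      rw [Finset.powerset_univ]
      push_cast
      apply Finset.sum_congr rfl; intro S _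
      rw [Complex.mul_conj']
    rw [this, Complex.norm_real, Real.norm_eq_abs, abs_of_nonneg (by positivity)]
  rw [hip] at hq
  simp_rw [hf_ps γ i0 l hmem c h1]
  rw [Av_sw γ _ (fun w => ‖pv Finset.univ (aS γ l c e') w‖^(9/7 : ℝ)),
    Av_sw γ _ (fun w => ‖pv Finset.univ (aS γ l c e') w‖^4)]
  exact hq

/-- the coefficients of the monomials which meet at most `k` groups other than `i0` -/
def cut (γ : I → M) (k : ℕ) (i0 : M) (c : (M → Bool) → Finset I → ℂ) :
    (M → Bool) → Finset I → ℂ :=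
  fun e S => if ((S.image γ).erase i0).card ≤ k then c e S else 0

lemma aS_cut (γ : I → M) (k : ℕ) (i0 : M) (l : List M) (c : (M → Bool) → Finset I → ℂ)
    (e' : M → Bool) (S : Finset I) : aS γ l (cut γ k i0 c) e' S =
      if ((S.image γ).erase i0).card ≤ k then aS γ l c e' S else 0 := by
  unfold aS
  by_cases h : ((S.image γ).erase i0).card ≤ k
  · rw [if_pos h]
    apply Finset.sum_congr rfl; intro e _
    rw [ps_eq, ps_eq]
    simp only [cut, if_pos h]
  · rw [if_neg h]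
    apply Finset.sum_eq_zero; intro e _
    rw [ps_eq]
    simp [cut, if_neg h]

/-- **The part of the second moment on the monomials which meet few groups.** -/
theorem s4k' (γ : I → M) (k : ℕ) (i0 : M) (c : (M → Bool) → Finset I → ℂ)
    (h1 : ∀ e S, c e S ≠ 0 → i0 ∈ S.image γ → e i0 = false)
    (hb : ∀ w, ‖Hf γ c w‖ ≤ 1) :
    (Av fun w => ‖Hf γ (cut γ k i0 c) w‖^2) ^ 36 ≤
      2 ^ (397 * k) * (Av fun w => ‖Hf γ c w‖) ^ 20 * (Av fun w => ‖Hf γ c w‖^2) ^ 17 := by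
  obtain ⟨l, hl⟩ : ∃ l : List M, l = (Finset.univ.erase i0).toList := ⟨_, rfl⟩
  have hnd : l.Nodup := by rw [hl]; exact Finset.nodup_toList _
  have hmem : ∀ i, i ∈ l ↔ i ≠ i0 := by
    intro i; rw [hl, Finset.mem_toList, Finset.mem_erase]; simp
  have hcount : ∀ S : Finset I, (l.filter (fun i => i ∈ S.image γ)).length =
      ((S.image γ).erase i0).card := by
    intro S
    rw [← List.toFinset_card_of_nodup (hnd.filter _)]
    congr 1
    ext i
    rw [List.mem_toFinset, List.mem_filter, hmem, Finset.mem_erase]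
    simp
  have hcut : ∀ e S, cut γ k i0 c e S ≠ 0 → c e S ≠ 0 ∧ ((S.image γ).erase i0).card ≤ k := by
    intro e S h
    unfold cut at h
    by_cases h' : ((S.image γ).erase i0).card ≤ k
    · rw [if_pos h'] at h; exact ⟨h, h'⟩
    · rw [if_neg h'] at h; exact absurd rfl h
  have hk : ∀ e S, cut γ k i0 c e S ≠ 0 → (l.filter (fun i => i ∈ S.image γ)).length ≤ k := by
    intro e S h; rw [hcount]; exact (hcut e S h).2
  have h1k : ∀ e S, cut γ k i0 c e S ≠ 0 → i0 ∈ S.image γ → e i0 = false := by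
    intro e S h h'; exact h1 e S (hcut e S h).1 h'
  have hav : ∀ F : (M → Bool) → ℝ, Lib_helper49.Pluri.avg F = Av F := by
    intro F
    unfold Lib_helper49.Pluri.avg Av
    rw [div_eq_inv_mul]
  -- the part of the mean square on few groups
  set X : (M → Bool) → ℝ := fun e' => ∑ S, ‖aS γ l (cut γ k i0 c) e' S‖^2 with hX
  set a : (M → Bool) → ℝ := fun e' => Av fun w => ‖Hf γ (ps γ l c e') w‖^(9/7 : ℝ) with ha
  set b : (M → Bool) → ℝ := fun e' => Av fun w => ‖Hf γ (ps γ l c e') w‖^4 with hb'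
  have hXab : ∀ e', X e' ≤ a e' ^ (7/9 : ℝ) * b e' ^ (1/4 : ℝ) := by
    intro e'
    refine le_trans ?_ (bq_ps γ i0 l hmem c h1 e')
    simp only [hX]
    apply Finset.sum_le_sum; intro S _
    rw [aS_cut]
    by_cases h : ((S.image γ).erase i0).card ≤ k
    · rw [if_pos h]
    · rw [if_neg h]
      simp only [norm_zero, ne_eq, OfNat.ofNat_ne_zero, not_false_eq_true, zero_pow]
      positivity
  have hX0 : ∀ e', 0 ≤ X e' := fun e' => Finset.sum_nonneg fun S _ => by positivity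
  have ha0 : ∀ e', 0 ≤ a e' := fun e' => Av_nonneg fun w => by positivity
  have hb0 : ∀ e', 0 ≤ b e' := fun e' => Av_nonneg fun w => by positivity
  have hjunta : ∀ e', X e' ≤ 2 ^ k * Lib_helper49.Pluri.avg X := by
    intro e'
    rw [hav]
    have e1 : Av X = ∑ S, Av (fun e'' => ‖aS γ l (cut γ k i0 c) e'' S‖^2) := by
      rw [← Av_sum]
    rw [e1, Finset.mul_sum]
    simp only [hX]
    apply Finset.sum_le_sum
    intro S _
    by_cases h : ((S.image γ).erase i0).card ≤ k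
    · have hj := Lib_helper31.GPL.junta_le ((S.image γ).erase i0)
        (fun e'' => ‖aS γ l (cut γ k i0 c) e'' S‖^2) (fun e'' => by positivity) (by
          intro e1 e2 h12
          have : aS γ l (cut γ k i0 c) e1 S = aS γ l (cut γ k i0 c) e2 S := by
            unfold aS
            apply Finset.sum_congr rfl; intro e _
            rw [ps_eq, ps_eq]
            have hiff : (∀ i ∈ l, i ∈ S.image γ → e i = e1 i) ↔
                (∀ i ∈ l, i ∈ S.image γ → e i = e2 i) := by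
              constructor
              · intro h i hi hi2
                rw [h i hi hi2]
                exact h12 i (Finset.mem_erase.mpr ⟨(hmem i).mp hi, hi2⟩)
              · intro h i hi hi2
                rw [h i hi hi2]
                exact (h12 i (Finset.mem_erase.mpr ⟨(hmem i).mp hi, hi2⟩)).symm
            by_cases hc : ∀ i ∈ l, i ∈ S.image γ → e i = e1 i
            · rw [if_pos hc, if_pos (hiff.mp hc)]
            · rw [if_neg hc, if_neg (fun h => hc (hiff.mpr h))]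
          simp only [this]) e'
      refine hj.trans ?_
      have hle : (2:ℝ) ^ ((S.image γ).erase i0).card ≤ 2 ^ k :=
        pow_le_pow_right₀ (by norm_num) h
      have h0 : 0 ≤ Av (fun e'' : M → Bool => ‖aS γ l (cut γ k i0 c) e'' S‖^2) :=
        Av_nonneg fun w => by positivity
      exact mul_le_mul_of_nonneg_right hle h0
    · have hz : ∀ e'', aS γ l (cut γ k i0 c) e'' S = 0 := by
        intro e''
        rw [aS_cut, if_neg h]
      simp_rw [hz]
      have : Av (fun _ : M → Bool => ‖(0:ℂ)‖^2) = 0 := by unfold Av; simp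
      rw [this]; simp
  have hP := chainG γ (fun F => Av fun w => ‖F w‖^(9/7 : ℝ)) (fun i c => step97 γ i c) l hnd c
  have hR := chainG γ (fun F => Av fun w => ‖F w‖^4) (fun i c => step4 γ i c) l hnd c
  have h36 := Lib_helper49.Pluri.junta36 X a b hX0 ha0 hb0 k
    (Av fun w => ‖Hf γ c w‖^(9/7 : ℝ)) (Av fun w => ‖Hf γ c w‖^4) hXab
    (by rw [hav]; exact hP) (by rw [hav]; exact hR) hjunta
  have hw0 : 0 ≤ Av fun w => ‖Hf γ (cut γ k i0 c) w‖^2 := Av_nonneg fun w => by positivity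
  have hth0 : 0 ≤ Av fun w => ‖Hf γ c w‖^2 := Av_nonneg fun w => by positivity
  have hX10 : 0 ≤ Av fun w => ‖Hf γ c w‖ := Av_nonneg fun w => norm_nonneg _
  have hP0 : 0 ≤ Av fun w => ‖Hf γ c w‖^(9/7 : ℝ) := Av_nonneg fun w => by positivity
  have hR0 : 0 ≤ Av fun w => ‖Hf γ c w‖^4 := Av_nonneg fun w => by positivity
  have hRle : (Av fun w => ‖Hf γ c w‖^4) ≤ Av fun w => ‖Hf γ c w‖^2 := by
    apply Av_mono
    intro w
    have h3 := hb w
    have h4 : 0 ≤ ‖Hf γ c w‖ := norm_nonneg _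
    have h5 : ‖Hf γ c w‖^2 ≤ 1 := by nlinarith
    nlinarith [sq_nonneg (‖Hf γ c w‖)]
  have hlow := lower2 γ l hnd k (cut γ k i0 c) hk
  have hEX : (1 / 2 ^ 11) ^ k * (Av fun w => ‖Hf γ (cut γ k i0 c) w‖^2) ≤
      Lib_helper49.Pluri.avg X := by
    rw [hav]
    have e0 : (Av fun e' : M → Bool => Av fun w => ‖Hf γ (ps γ l (cut γ k i0 c) e') w‖^2) =
        Av X := by
      congr 1; funext e'
      exact sq_ps γ i0 l hmem (cut γ k i0 c) h1k e'
    rw [e0] at hlow
    have e1 : ((1:ℝ) / 2 ^ 11) ^ k * 2048 ^ k = 1 := by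
      rw [← mul_pow]; norm_num
    calc (1 / 2 ^ 11) ^ k * (Av fun w => ‖Hf γ (cut γ k i0 c) w‖^2)
        ≤ (1 / 2 ^ 11) ^ k * (2048 ^ k * Av X) := by gcongr
      _ = ((1 / 2 ^ 11) ^ k * 2048 ^ k) * Av X := by ring
      _ = Av X := by rw [e1, one_mul]
  exact Lib_helper49.Pluri.end20k hw0 hth0 hX10 hP0 hR0 k h36 hRle (holder97 _) hEX

/-- the same with the letters `x + i y`, `x - i y`, `x, y = ±1` -/
theorem s4k {n m : ℕ} (γ : Fin n → Fin m) (k : ℕ) (i0 : Fin m)
    (c : (Fin m → Bool) → Finset (Fin n) → ℂ)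
    (h1 : ∀ e S, c e S ≠ 0 → i0 ∈ S.image γ → e i0 = false)
    (hb : ∀ w : Fin n → Bool × Bool, ‖∑ e, ∑ S, c e S * ∏ i ∈ S,
      ((-1) ^ (w i).1.toNat + (-1) ^ (e (γ i)).toNat * (-1) ^ (w i).2.toNat * Complex.I)‖ ≤ 1) :
    (Av fun w : Fin n → Bool × Bool => ‖∑ e, ∑ S,
      (if ((S.image γ).erase i0).card ≤ k then c e S else 0) * ∏ i ∈ S,
      ((-1) ^ (w i).1.toNat + (-1) ^ (e (γ i)).toNat * (-1) ^ (w i).2.toNat * Complex.I)‖^2)
        ^ 36 ≤
    2 ^ (397 * k) * (Av fun w : Fin n → Bool × Bool => ‖∑ e, ∑ S, c e S * ∏ i ∈ S,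
      ((-1) ^ (w i).1.toNat + (-1) ^ (e (γ i)).toNat * (-1) ^ (w i).2.toNat * Complex.I)‖) ^ 20 *
    (Av fun w : Fin n → Bool × Bool => ‖∑ e, ∑ S, c e S * ∏ i ∈ S,
      ((-1) ^ (w i).1.toNat + (-1) ^ (e (γ i)).toNat * (-1) ^ (w i).2.toNat * Complex.I)‖^2)
        ^ 17 := by
  have hH : ∀ (c : (Fin m → Bool) → Finset (Fin n) → ℂ) (w : Fin n → Bool × Bool),
      ∑ e, ∑ S, c e S * ∏ i ∈ S,
      ((-1) ^ (w i).1.toNat + (-1) ^ (e (γ i)).toNat * (-1) ^ (w i).2.toNat * Complex.I) =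
      Hf γ (fun e S => c e S * ∏ i ∈ S, kp (e (γ i))) w := by
    intro c w
    unfold Hf mon
    apply Finset.sum_congr rfl; intro e _
    apply Finset.sum_congr rfl; intro S _
    rw [mul_assoc, ← Finset.prod_mul_distrib]
    congr 1
    apply Finset.prod_congr rfl; intro i _
    exact letter (e (γ i)) (w i)
  have hcut : (fun (e : Fin m → Bool) (S : Finset (Fin n)) =>
      (if ((S.image γ).erase i0).card ≤ k then c e S else 0) * ∏ i ∈ S, kp (e (γ i))) =
      cut γ k i0 (fun e S => c e S * ∏ i ∈ S, kp (e (γ i))) := by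
    funext e S
    unfold cut
    by_cases h : ((S.image γ).erase i0).card ≤ k
    · rw [if_pos h, if_pos h]
    · rw [if_neg h, if_neg h, zero_mul]
  simp_rw [hH] at hb ⊢
  rw [hcut]
  exact s4k' γ k i0 _ (fun e S h => h1 e S (left_ne_zero_of_mul h)) hb

end Pool.Agent.PLH
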