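import Pool.Agent.Lib_helper84.PLH.BQ

/-!
Discrete pluriharmonic functions: averages over single variables, superharmonic functions on the
four points, and chains of averages.
-/

namespace Pool.Agent.PLH

open Complex ComplexConjugate

variable {I : Type*} [Fintype I] [DecidableEq I]

/-- average in the variable `j` -/
noncomputable def av1 (j : I) (F : (I → Bool × Bool) → ℂ) (w : I → Bool × Bool) : ℂ :=
  1/4 * ∑ x, F (Function.update w j x)

/-- affine analytic in the variable `j` -/
def An (j : I) (F : (I → Bool × Bool) → ℂ) : Prop :=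
  ∃ A B : (I → Bool × Bool) → ℂ, ∀ w x, F (Function.update w j x) = A w + zt x * B w

/-- iterated average -/
noncomputable def avL (l : List I) (F : (I → Bool × Bool) → ℂ) : (I → Bool × Bool) → ℂ :=
  l.foldr av1 F

lemma sum_zt : ∑ x, zt x = 0 := by
  rw [sumQ]; simp [zt]

lemma sum_zt2 : ∑ x, zt x ^ 2 = 0 := by
  rw [sumQ]; simp [zt]

omit [Fintype I] in
lemma av1_of_eq {j : I} {F A B : (I → Bool × Bool) → ℂ}
    (h : ∀ w x, F (Function.update w j x) = A w + zt x * B w) (w : I → Bool × Bool) :
    av1 j F w = A w := by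
  unfold av1
  simp_rw [h]
  rw [Finset.sum_add_distrib, ← Finset.sum_mul, sum_zt, Finset.sum_const, Finset.card_univ]
  simp

omit [Fintype I] in
lemma av1_update (j : I) (F : (I → Bool × Bool) → ℂ) (w : I → Bool × Bool) (x : Bool × Bool) :
    av1 j F (Function.update w j x) = av1 j F w := by
  unfold av1; simp

omit [Fintype I] in
lemma An_av1 {j : I} {F : (I → Bool × Bool) → ℂ} (h : An j F) (i : I) : An j (av1 i F) := by
  rcases eq_or_ne i j with rfl | hij
  · refine ⟨av1 i F, fun _ => 0, fun w x => ?_⟩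
    rw [av1_update]; simp
  · obtain ⟨A, B, hAB⟩ := h
    refine ⟨av1 i A, av1 i B, fun w x => ?_⟩
    unfold av1
    have : ∀ y, F (Function.update (Function.update w j x) i y) =
        A (Function.update w i y) + zt x * B (Function.update w i y) := by
      intro y
      rw [Function.update_comm hij.symm, hAB]
    simp_rw [this]
    rw [Finset.sum_add_distrib, ← Finset.mul_sum]; ring

omit [Fintype I] in
lemma An_avL {j : I} {F : (I → Bool × Bool) → ℂ} (h : An j F) (l : List I) : An j (avL l F) := by
  induction l with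
  | nil => exact h
  | cons i l ih => exact An_av1 ih i

lemma Av_swap (j : I) (F : (I → Bool × Bool) → ℝ) :
    Av F = Av (fun w => 1/4 * ∑ x, F (Function.update w j x)) := by
  rw [Av_split j]
  unfold Av
  rw [← Finset.mul_sum, ← Finset.mul_sum, Finset.sum_comm]
  ring

/-- **Chain of averages.** -/
lemma chain (l : List I) (Ψ : (I → Bool × Bool) → ℂ → ℂ → ℝ)
    (hΨ : ∀ j ∈ l, ∀ w x, Ψ (Function.update w j x) = Ψ w)
    (hsup : ∀ w α β A B, 1/4 * ∑ x, Ψ w (α + zt x * A) (β + zt x * B) ≤ Ψ w α β)
    (a b : (I → Bool × Bool) → ℂ) (ha : ∀ j ∈ l, An j a) (hb : ∀ j ∈ l, An j b) :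
    Av (fun w => Ψ w (a w) (b w)) ≤ Av (fun w => Ψ w (avL l a w) (avL l b w)) := by
  induction l with
  | nil => exact le_rfl
  | cons j l ih =>
    have h1 := ih (fun i hi => hΨ i (List.mem_cons_of_mem _ hi))
      (fun i hi => ha i (List.mem_cons_of_mem _ hi)) (fun i hi => hb i (List.mem_cons_of_mem _ hi))
    refine h1.trans ?_
    obtain ⟨A, B, hAB⟩ := An_avL (ha j (by simp)) l
    obtain ⟨A', B', hAB'⟩ := An_avL (hb j (by simp)) l
    rw [Av_swap j]
    apply Av_mono
    intro w
    have e1 : avL (j :: l) a w = A w := av1_of_eq hAB w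
    have e2 : avL (j :: l) b w = A' w := av1_of_eq hAB' w
    rw [e1, e2]
    simp_rw [hΨ j (by simp), hAB, hAB']
    exact hsup w _ _ _ _

/-- harmonic functions: equality -/
lemma chain_eq (l : List I) (Ψ : (I → Bool × Bool) → ℂ → ℂ → ℝ)
    (hΨ : ∀ j ∈ l, ∀ w x, Ψ (Function.update w j x) = Ψ w)
    (hsup : ∀ w α β A B, 1/4 * ∑ x, Ψ w (α + zt x * A) (β + zt x * B) = Ψ w α β)
    (a b : (I → Bool × Bool) → ℂ) (ha : ∀ j ∈ l, An j a) (hb : ∀ j ∈ l, An j b) :
    Av (fun w => Ψ w (a w) (b w)) = Av (fun w => Ψ w (avL l a w) (avL l b w)) := by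
  apply le_antisymm
  · exact chain l Ψ hΨ (fun w α β A B => (hsup w α β A B).le) a b ha hb
  · have h := chain l (fun w α β => - Ψ w α β) (fun j hj w x => by rw [hΨ j hj w x])
      (fun w α β A B => by
        rw [Finset.sum_neg_distrib, mul_neg, hsup w α β A B]) a b ha hb
    have e : ∀ F : (I → Bool × Bool) → ℝ, Av (fun w => - F w) = - Av F := by
      intro F
      have := Av_mul (-1) F
      simpa using this
    rw [e, e] at h
    linarith

/-- averages of a linear expression -/
lemma av_lin (l : List I) (u a : (I → Bool × Bool) → ℂ)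
    (hu : ∀ j ∈ l, ∀ w x, u (Function.update w j x) = u w)
    (ha : ∀ j ∈ l, An j a) (ha0 : ∀ w, avL l a w = 0) :
    Av (fun w => (u w * a w).re) = 0 := by
  have h := chain_eq l (fun w α _ => (u w * α).re) (fun j hj w x => by
      funext α β; rw [hu j hj w x]) (fun w α β A B => by
      have : ∑ x, (u w * (α + zt x * A)).re = (∑ x, u w * (α + zt x * A)).re := by
        rw [Complex.re_sum]
      rw [this]
      have e : ∑ x, u w * (α + zt x * A) = 4 * (u w * α) := by
        rw [← Finset.mul_sum, Finset.sum_add_distrib, ← Finset.sum_mul, sum_zt, Finset.sum_const,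
          Finset.card_univ]
        simp; ring
      rw [e]
      have e4 : (4 * (u w * α)).re = 4 * (u w * α).re := by
        rw [show (4 : ℂ) = ((4 : ℝ) : ℂ) by norm_num, Complex.re_ofReal_mul]
      rw [e4]; ring) a a ha ha
  rw [h]
  simp_rw [ha0, mul_zero, Complex.zero_re]
  unfold Av; simp

/-- averages of a product -/
lemma av_prod (l : List I) (u : (I → Bool × Bool) → ℝ) (a b : (I → Bool × Bool) → ℂ)
    (hu : ∀ j ∈ l, ∀ w x, u (Function.update w j x) = u w)
    (ha : ∀ j ∈ l, An j a) (hb : ∀ j ∈ l, An j b) (ha0 : ∀ w, avL l a w = 0) :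
    Av (fun w => u w * (a w * b w).re) = 0 := by
  have h := chain_eq l (fun w α β => u w * (α * β).re) (fun j hj w x => by
      funext α β; rw [hu j hj w x]) (fun w α β A B => by
      rw [← Finset.mul_sum]
      have : ∑ x, ((α + zt x * A) * (β + zt x * B)).re =
          (∑ x, (α + zt x * A) * (β + zt x * B)).re := by
        rw [Complex.re_sum]
      rw [this]
      have e : ∑ x, (α + zt x * A) * (β + zt x * B) = 4 * (α * β) := by
        have e1 : ∀ x, (α + zt x * A) * (β + zt x * B) =
            α * β + zt x * (A * β + α * B) + zt x ^ 2 * (A * B) := by intro x; ring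
        simp_rw [e1]
        have s1 : ∑ x, zt x * (A * β + α * B) = 0 := by rw [← Finset.sum_mul, sum_zt, zero_mul]
        have s2 : ∑ x, zt x ^ 2 * (A * B) = 0 := by rw [← Finset.sum_mul, sum_zt2, zero_mul]
        rw [Finset.sum_add_distrib, Finset.sum_add_distrib, s1, s2, Finset.sum_const,
          Finset.card_univ]
        simp
      rw [e]
      have e4 : (4 * (α * β)).re = 4 * (α * β).re := by
        rw [show (4 : ℂ) = ((4 : ℝ) : ℂ) by norm_num, Complex.re_ofReal_mul]
      rw [e4]; ring) a b ha hb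
  rw [h]
  simp_rw [ha0, zero_mul, Complex.zero_re, mul_zero]
  unfold Av; simp

end Pool.Agent.PLH
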