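import Pool.Agent.Lib_helper84.PLH.Four

/-!
Discrete pluriharmonic functions: the weights `V1`, `V2` of one induction step.
-/

namespace Pool.Agent.PLH

open Complex ComplexConjugate

/-- the four points `1, i, -1, -i` -/
def zt : Bool × Bool → ℂ
  | (false, false) => 1
  | (true, false) => Complex.I
  | (true, true) => -1
  | (false, true) => -Complex.I

lemma sumQ {M : Type*} [AddCommMonoid M] (F : Bool × Bool → M) :
    ∑ q, F q = F (false, false) + F (true, false) + F (true, true) + F (false, true) := by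
  rw [Fintype.sum_prod_type]
  simp only [Fintype.sum_bool]
  abel

/-- average over a finite set -/
noncomputable def Av {W : Type*} [Fintype W] (F : W → ℝ) : ℝ := (Fintype.card W : ℝ)⁻¹ * ∑ w, F w

section
variable {W : Type*} [Fintype W]

lemma Av_add (F G : W → ℝ) : Av (fun w => F w + G w) = Av F + Av G := by
  unfold Av; rw [Finset.sum_add_distrib]; ring

lemma Av_mul (c : ℝ) (F : W → ℝ) : Av (fun w => c * F w) = c * Av F := by
  unfold Av; rw [← Finset.mul_sum]; ring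

lemma Av_mono {F G : W → ℝ} (h : ∀ w, F w ≤ G w) : Av F ≤ Av G := by
  unfold Av
  exact mul_le_mul_of_nonneg_left (Finset.sum_le_sum fun w _ => h w) (by positivity)

lemma Av_nonneg {F : W → ℝ} (h : ∀ w, 0 ≤ F w) : 0 ≤ Av F := by
  unfold Av
  exact mul_nonneg (by positivity) (Finset.sum_nonneg fun w _ => h w)

end

/-- fourth power of the weighted combination -/
lemma norm4 (ν z A B : ℂ) (hz : normSq z = 1) :
    ‖conj ν * A + z * ν * B‖ ^ 4 = (normSq ν) ^ 2 * ((normSq A + normSq B) ^ 2 +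
      2 * normSq (conj A * B)) + 2 * normSq ν * (ν ^ 2 * z * (conj A * B)).re *
        (2 * (normSq A + normSq B)) + 2 * (ν ^ 4 * z ^ 2 * (conj A * B) ^ 2).re := by
  have h2 : ‖conj ν * A + z * ν * B‖ ^ 2 = normSq ν * (normSq A + normSq B) +
      2 * (ν ^ 2 * z * (conj A * B)).re := by
    rw [← Complex.normSq_eq_norm_sq, Complex.normSq_add, normSq_mul, normSq_mul, normSq_mul,
      normSq_conj, hz]
    have : (conj ν * A * conj (z * ν * B)) = conj (ν ^ 2 * z * (conj A * B)) := by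
      simp only [map_mul, map_pow, Complex.conj_conj]; ring
    rw [this, Complex.conj_re]; ring
  have h4 : ‖conj ν * A + z * ν * B‖ ^ 4 = (‖conj ν * A + z * ν * B‖ ^ 2) ^ 2 := by ring
  rw [h4, h2]
  set X := ν ^ 2 * z * (conj A * B) with hX
  have h5 : normSq X = (normSq ν) ^ 2 * normSq (conj A * B) := by
    rw [hX, normSq_mul, normSq_mul, hz, map_pow]; ring
  have h6 : ν ^ 4 * z ^ 2 * (conj A * B) ^ 2 = X ^ 2 := by rw [hX]; ring
  rw [h6]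
  have h7 : (X ^ 2).re = X.re ^ 2 - X.im ^ 2 := by rw [pow_two, Complex.mul_re]; ring
  have h8 : normSq X = X.re ^ 2 + X.im ^ 2 := by rw [normSq_apply]; ring
  rw [h7]
  rw [h8] at h5
  linear_combination (2 : ℝ) * h5

variable {W : Type*} [Fintype W]

/-- the moments -/
noncomputable def m0 (A B : W → ℂ) : ℝ :=
  Av fun w => (normSq (A w) + normSq (B w)) ^ 2 + 2 * normSq (conj (A w) * B w)
noncomputable def mP (A B : W → ℂ) : ℝ :=
  Av fun w => 2 * (normSq (A w) + normSq (B w)) * (conj (A w) * B w).re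
noncomputable def mQ (A B : W → ℂ) : ℝ :=
  Av fun w => 2 * (normSq (A w) + normSq (B w)) * (conj (A w) * B w).im
noncomputable def mR (A B : W → ℂ) : ℝ :=
  Av fun w => ((conj (A w) * B w) ^ 2).re
noncomputable def mS (A B : W → ℂ) : ℝ :=
  Av fun w => ((conj (A w) * B w) ^ 2).im

/-- value of the average of the fourth powers -/
lemma av4 (A B : W → ℂ) (a b z1 z2 : ℝ) (hz : z1 ^ 2 + z2 ^ 2 = 1) :
    Av (fun w => ‖conj (⟨a, b⟩ : ℂ) * A w + (⟨z1, z2⟩ : ℂ) * (⟨a, b⟩ : ℂ) * B w‖ ^ 4) =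
    (a^2+b^2)^2 * m0 A B + 2*(a^2+b^2)*((z1 * mP A B - z2 * mQ A B)*(a^2-b^2)
      - (z1 * mQ A B + z2 * mP A B)*(2*a*b))
    + 2*(((z1^2-z2^2) * mR A B - 2*z1*z2*mS A B)*((a^2-b^2)^2-(2*a*b)^2)
      - ((z1^2-z2^2) * mS A B + 2*z1*z2*mR A B)*(2*(a^2-b^2)*(2*a*b))) := by
  have hz' : normSq (⟨z1, z2⟩ : ℂ) = 1 := by rw [normSq_mk]; linarith [hz]
  have h1 : ∀ w, ‖conj (⟨a, b⟩ : ℂ) * A w + (⟨z1, z2⟩ : ℂ) * (⟨a, b⟩ : ℂ) * B w‖ ^ 4 =
      (a^2+b^2)^2 * ((normSq (A w) + normSq (B w)) ^ 2 + 2 * normSq (conj (A w) * B w)) +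
      ((2*(a^2+b^2)*(z1*(a^2-b^2) - z2*(2*a*b))) *
        (2 * (normSq (A w) + normSq (B w)) * (conj (A w) * B w).re) +
      ((2*(a^2+b^2)*(-z2*(a^2-b^2) - z1*(2*a*b))) *
        (2 * (normSq (A w) + normSq (B w)) * (conj (A w) * B w).im) +
      ((2*((z1^2-z2^2)*((a^2-b^2)^2-(2*a*b)^2) - 2*z1*z2*(2*(a^2-b^2)*(2*a*b)))) *
        ((conj (A w) * B w) ^ 2).re +
      (2*(-2*z1*z2*((a^2-b^2)^2-(2*a*b)^2) - (z1^2-z2^2)*(2*(a^2-b^2)*(2*a*b)))) *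
        ((conj (A w) * B w) ^ 2).im))) := by
    intro w
    rw [norm4 _ _ _ _ hz']
    set X := conj (A w) * B w with hX
    have e1 : normSq (⟨a, b⟩ : ℂ) = a^2 + b^2 := by rw [normSq_mk]; ring
    have e2 : ((⟨a, b⟩ : ℂ) ^ 2 * (⟨z1, z2⟩ : ℂ) * X).re =
        (z1*(a^2-b^2) - z2*(2*a*b)) * X.re + (-z2*(a^2-b^2) - z1*(2*a*b)) * X.im := by
      simp only [pow_two, Complex.mul_re, Complex.mul_im]; ring
    have e3 : ((⟨a, b⟩ : ℂ) ^ 4 * (⟨z1, z2⟩ : ℂ) ^ 2 * X ^ 2).re =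
        ((z1^2-z2^2)*((a^2-b^2)^2-(2*a*b)^2) - 2*z1*z2*(2*(a^2-b^2)*(2*a*b))) * (X ^ 2).re +
        (-2*z1*z2*((a^2-b^2)^2-(2*a*b)^2) - (z1^2-z2^2)*(2*(a^2-b^2)*(2*a*b))) * (X ^ 2).im := by
      have e4 : ((⟨a, b⟩ : ℂ) ^ 4 * (⟨z1, z2⟩ : ℂ) ^ 2).re =
        (z1^2-z2^2)*((a^2-b^2)^2-(2*a*b)^2) - 2*z1*z2*(2*(a^2-b^2)*(2*a*b)) := by
        have : (⟨a, b⟩ : ℂ) ^ 4 = ((⟨a, b⟩ : ℂ) ^ 2) ^ 2 := by ring
        rw [this]
        simp only [pow_two, Complex.mul_re, Complex.mul_im]; ring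
      have e5 : ((⟨a, b⟩ : ℂ) ^ 4 * (⟨z1, z2⟩ : ℂ) ^ 2).im =
        2*z1*z2*((a^2-b^2)^2-(2*a*b)^2) + (z1^2-z2^2)*(2*(a^2-b^2)*(2*a*b)) := by
        have : (⟨a, b⟩ : ℂ) ^ 4 = ((⟨a, b⟩ : ℂ) ^ 2) ^ 2 := by ring
        rw [this]
        simp only [pow_two, Complex.mul_re, Complex.mul_im]; ring
      rw [Complex.mul_re, e4, e5]; ring
    rw [e1, e2, e3]; ring
  simp_rw [h1]
  rw [Av_add, Av_add, Av_add, Av_add, Av_mul, Av_mul, Av_mul, Av_mul, Av_mul]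
  unfold m0 mP mQ mR mS
  ring

end Pool.Agent.PLH
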